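import Pool.Agent.H56.TH.Defs

/-!
# Module HA: Hausdorff measure under holomorphic maps

PROOFS. `haus_image`: `ε > 0`. `deriv g` is continuous on `O`. Every `x ∈ S` has a ball `B_x ⊆ O` on which
`|‖deriv g w‖ - ‖deriv g x‖| ≤ ε`; `g` is `(‖deriv g x‖ + ε)`-Lipschitz on it (`Convex.lipschitzOnWith_of_nnnorm_deriv_le`). `S` is
covered by finitely many `B_i`; disjoint measurable pieces `A_i = A ∩ B_i \ (B_1 ∪ .. ∪ B_{i-1})` (induction on the finite set);
`μH[1] (g '' A_i) ≤ (‖deriv g x_i‖ + ε) μH[1] A_i` (`LipschitzOnWith.hausdorffMeasure_image_le`)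
`≤ ∫⁻ w in A_i, (‖deriv g w‖ + 2 ε)`. Sum: `μH[1] (g '' A) ≤ ∫⁻ w in A, ‖deriv g w‖ + 2 ε μH[1] S`; `ε → 0`.
`lint_image`: there is a measurable `F₁ ≤ F` with the same integral over `g '' S` (`exists_measurable_le_lintegral_eq`). The
measures `ν B = μH[1] (B ∩ g '' S)` and `ν' B = ∫⁻ w in S ∩ g ⁻¹' B, ‖deriv g w‖` (`= (μ.restrict S).withDensity .. map g`; `g` is
continuous on `S`, use `Set.indicator`/`AEMeasurable` on the restricted measure) satisfy `ν ≤ ν'` by `haus_image` with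
`A = S ∩ g ⁻¹' B` (`B ∩ g '' S = g '' (S ∩ g ⁻¹' B)`), so `∫⁻ F₁ dν ≤ ∫⁻ F₁ dν' = ∫⁻ w in S, F₁ (g w) ‖deriv g w‖` and `F₁ ≤ F`.
(`g` need not be injective.)
-/

set_option autoImplicit false

open Filter Topology Metric Set MeasureTheory
open scoped MeasureTheory

namespace Pool.Agent.H56.TH

private theorem haus_piece {g : ℂ → ℂ} {O A : Set ℂ} (hO : IsOpen O) (hg : DifferentiableOn ℂ g O) (x : ℂ)
    (r ε : ℝ) (hε : 0 < ε) (hB : ball x r ⊆ O)
    (hd : ∀ w ∈ ball x r, |‖deriv g w‖ - ‖deriv g x‖| ≤ ε) (hA : MeasurableSet A) (hAB : A ⊆ ball x r) :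
    (μH[1] : Measure ℂ) (g '' A) ≤ ∫⁻ w in A, ENNReal.ofReal ‖deriv g w‖ ∂(μH[1] : Measure ℂ) +
      ENNReal.ofReal (2 * ε) * (μH[1] : Measure ℂ) A := by
  have hK0 : 0 ≤ ‖deriv g x‖ + ε := by positivity
  have hlip : LipschitzOnWith (Real.toNNReal (‖deriv g x‖ + ε)) g (ball x r) := by
    refine Convex.lipschitzOnWith_of_nnnorm_deriv_le (𝕜 := ℂ) ?_ ?_ (convex_ball x r)
    · intro w hw
      exact hg.differentiableAt (hO.mem_nhds (hB hw))
    · intro w hw
      have h1 := hd w hw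
      rw [abs_le] at h1
      rw [← NNReal.coe_le_coe, Real.coe_toNNReal _ hK0, coe_nnnorm]
      linarith [h1.2]
  have h1 := (hlip.mono hAB).hausdorffMeasure_image_le (d := 1) zero_le_one
  rw [ENNReal.rpow_one] at h1
  refine h1.trans ?_
  have h2 : ((Real.toNNReal (‖deriv g x‖ + ε) : NNReal) : ENNReal) * (μH[1] : Measure ℂ) A =
      ∫⁻ w in A, ENNReal.ofReal (‖deriv g x‖ + ε) ∂(μH[1] : Measure ℂ) := by
    rw [setLIntegral_const]
    rfl
  rw [h2]
  calc ∫⁻ w in A, ENNReal.ofReal (‖deriv g x‖ + ε) ∂(μH[1] : Measure ℂ)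
      ≤ ∫⁻ w in A, (ENNReal.ofReal ‖deriv g w‖ + ENNReal.ofReal (2 * ε)) ∂(μH[1] : Measure ℂ) := by
        refine setLIntegral_mono' hA fun w hw => ?_
        rw [← ENNReal.ofReal_add (norm_nonneg _) (by positivity)]
        apply ENNReal.ofReal_le_ofReal
        have h3 := hd w (hAB hw)
        rw [abs_le] at h3
        linarith [h3.1]
    _ = ∫⁻ w in A, ENNReal.ofReal ‖deriv g w‖ ∂(μH[1] : Measure ℂ) +
      ENNReal.ofReal (2 * ε) * (μH[1] : Measure ℂ) A := by
        rw [lintegral_add_right _ measurable_const, setLIntegral_const]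

private theorem haus_eps {g : ℂ → ℂ} {O S : Set ℂ} (hO : IsOpen O) (hg : DifferentiableOn ℂ g O) (hS : IsCompact S)
    (hSO : S ⊆ O) (ε : ℝ) (hε : 0 < ε) : ∃ T : Set ℂ, MeasurableSet T ∧ S ⊆ T ∧
      ∀ A : Set ℂ, MeasurableSet A → A ⊆ T → (μH[1] : Measure ℂ) (g '' A) ≤
        ∫⁻ w in A, ENNReal.ofReal ‖deriv g w‖ ∂(μH[1] : Measure ℂ) +
          ENNReal.ofReal (2 * ε) * (μH[1] : Measure ℂ) A := by
  refine hS.induction_on (p := fun S' => ∃ T : Set ℂ, MeasurableSet T ∧ S' ⊆ T ∧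
      ∀ A : Set ℂ, MeasurableSet A → A ⊆ T → (μH[1] : Measure ℂ) (g '' A) ≤
        ∫⁻ w in A, ENNReal.ofReal ‖deriv g w‖ ∂(μH[1] : Measure ℂ) +
          ENNReal.ofReal (2 * ε) * (μH[1] : Measure ℂ) A) ?_ ?_ ?_ ?_
  · refine ⟨∅, MeasurableSet.empty, subset_rfl, fun A _ hA => ?_⟩
    rw [subset_empty_iff.1 hA, image_empty, measure_empty]
    exact zero_le
  · rintro s t hst ⟨T, hT, htT, h⟩
    exact ⟨T, hT, hst.trans htT, h⟩
  · rintro s t ⟨T, hT, hsT, h⟩ ⟨T', hT', htT', h'⟩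
    refine ⟨T ∪ T', hT.union hT', union_subset_union hsT htT', fun A hA hAT => ?_⟩
    have h1 := h (A ∩ T) (hA.inter hT) inter_subset_right
    have h2 := h' (A \ T) (hA.diff hT) (by
      intro w hw
      exact (hAT hw.1).resolve_left hw.2)
    have h3 : g '' A ⊆ g '' (A ∩ T) ∪ g '' (A \ T) := by
      rw [← image_union, inter_union_sdiff]
    calc (μH[1] : Measure ℂ) (g '' A)
        ≤ (μH[1] : Measure ℂ) (g '' (A ∩ T)) + (μH[1] : Measure ℂ) (g '' (A \ T)) :=
          (measure_mono h3).trans (measure_union_le _ _)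
      _ ≤ _ := add_le_add h1 h2
      _ = (∫⁻ w in A ∩ T, ENNReal.ofReal ‖deriv g w‖ ∂(μH[1] : Measure ℂ) +
            ∫⁻ w in A \ T, ENNReal.ofReal ‖deriv g w‖ ∂(μH[1] : Measure ℂ)) +
          (ENNReal.ofReal (2 * ε) * ((μH[1] : Measure ℂ) (A ∩ T) + (μH[1] : Measure ℂ) (A \ T))) := by
          rw [mul_add]
          ring
      _ = _ := by
          rw [lintegral_inter_add_sdiff _ _ hT, measure_inter_add_sdiff _ hT]
  · intro x hx
    have hcont : ContinuousAt (fun w => ‖deriv g w‖) x :=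
      (((hg.deriv hO).continuousOn).continuousAt (hO.mem_nhds (hSO hx))).norm
    obtain ⟨r₁, hr₁, h1⟩ := Metric.isOpen_iff.1 hO x (hSO hx)
    obtain ⟨r₂, hr₂, h2⟩ := Metric.continuousAt_iff.1 hcont ε hε
    refine ⟨ball x (min r₁ r₂), mem_nhdsWithin_of_mem_nhds (ball_mem_nhds x (lt_min hr₁ hr₂)),
      ball x (min r₁ r₂), measurableSet_ball, subset_rfl, fun A hA hAT => ?_⟩
    refine haus_piece hO hg x (min r₁ r₂) ε hε ?_ ?_ hA hAT
    · exact (ball_subset_ball (min_le_left _ _)).trans h1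
    · intro w hw
      have h3 := h2 (show dist w x < r₂ from lt_of_lt_of_le hw (min_le_right _ _))
      rw [Real.dist_eq] at h3
      exact h3.le

theorem haus_image {g : ℂ → ℂ} {O S A : Set ℂ} (hO : IsOpen O) (hg : DifferentiableOn ℂ g O) (hS : IsCompact S)
    (hSO : S ⊆ O) (hfin : (μH[1] : Measure ℂ) S < ⊤) (hA : MeasurableSet A) (hAS : A ⊆ S) :
    (μH[1] : Measure ℂ) (g '' A) ≤ ∫⁻ w in A, ENNReal.ofReal ‖deriv g w‖ ∂(μH[1] : Measure ℂ) := by
  refine ENNReal.le_of_forall_pos_le_add fun e he _ => ?_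
  obtain ⟨m, hm⟩ : ∃ m : NNReal, (m : ENNReal) = (μH[1] : Measure ℂ) S :=
    ⟨((μH[1] : Measure ℂ) S).toNNReal, ENNReal.coe_toNNReal hfin.ne⟩
  have hε : 0 < (e : ℝ) / (2 * m + 1) := by positivity
  obtain ⟨T, hT, hST, h⟩ := haus_eps hO hg hS hSO _ hε
  refine (h A hA (hAS.trans hST)).trans (add_le_add le_rfl ?_)
  calc ENNReal.ofReal (2 * ((e : ℝ) / (2 * m + 1))) * (μH[1] : Measure ℂ) A
      ≤ ENNReal.ofReal (2 * ((e : ℝ) / (2 * m + 1))) * (m : ENNReal) := by
        rw [hm]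
        exact mul_le_mul_right (measure_mono hAS) _
    _ = ENNReal.ofReal (2 * ((e : ℝ) / (2 * m + 1)) * m) := by
        rw [ENNReal.ofReal_mul (p := 2 * ((e : ℝ) / (2 * m + 1))) (by positivity),
          ENNReal.ofReal_coe_nnreal]
    _ ≤ ENNReal.ofReal (e : ℝ) := by
        apply ENNReal.ofReal_le_ofReal
        rw [mul_div_assoc', div_mul_eq_mul_div, div_le_iff₀ (by positivity)]
        nlinarith [e.coe_nonneg]
    _ = (e : ENNReal) := ENNReal.ofReal_coe_nnreal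

theorem lint_image {g : ℂ → ℂ} {O S : Set ℂ} (hO : IsOpen O) (hg : DifferentiableOn ℂ g O) (hS : IsCompact S)
    (hSO : S ⊆ O) (hfin : (μH[1] : Measure ℂ) S < ⊤) (F : ℂ → ENNReal) :
    ∫⁻ w in g '' S, F w ∂(μH[1] : Measure ℂ) ≤
      ∫⁻ w in S, F (g w) * ENNReal.ofReal ‖deriv g w‖ ∂(μH[1] : Measure ℂ) := by
  have hgc : ContinuousOn g S := hg.continuousOn.mono hSO
  have hdc : ContinuousOn (fun w => ENNReal.ofReal ‖deriv g w‖) S :=
    ENNReal.continuous_ofReal.comp_continuousOn (((hg.deriv hO).continuousOn.mono hSO).norm)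
  have hSm : MeasurableSet S := hS.measurableSet
  have hgS : IsCompact (g '' S) := hS.image_of_continuousOn hgc
  have hgSm : MeasurableSet (g '' S) := hgS.measurableSet
  obtain ⟨F₁, hF₁, hle, heq⟩ := exists_measurable_le_lintegral_eq
    ((μH[1] : Measure ℂ).restrict (g '' S)) F
  have hfm : IsFiniteMeasure ((μH[1] : Measure ℂ).restrict S) := by
    refine ⟨?_⟩
    rw [Measure.restrict_apply_univ]
    exact hfin
  have hda : AEMeasurable (fun w => ENNReal.ofReal ‖deriv g w‖) ((μH[1] : Measure ℂ).restrict S) :=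
    hdc.aemeasurable hSm
  have hga : AEMeasurable g ((μH[1] : Measure ℂ).restrict S) := hgc.aemeasurable hSm
  have hga' : AEMeasurable g (((μH[1] : Measure ℂ).restrict S).withDensity
      fun w => ENNReal.ofReal ‖deriv g w‖) := hga.mono_ac (withDensity_absolutelyContinuous _ _)
  have hν : (μH[1] : Measure ℂ).restrict (g '' S) ≤
      (((μH[1] : Measure ℂ).restrict S).withDensity fun w => ENNReal.ofReal ‖deriv g w‖).map g := by
    rw [Measure.le_iff]
    intro B hB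
    have hAm : MeasurableSet (S ∩ g ⁻¹' B) := by
      have h1 : Measurable (S.domRestrict g) := (continuousOn_iff_continuous_domRestrict.1 hgc).measurable
      have h2 : S ∩ g ⁻¹' B = Subtype.val '' ((S.domRestrict g) ⁻¹' B) := by
        ext w
        simp only [mem_inter_iff, mem_preimage, mem_image, Subtype.exists,
          exists_and_right, exists_eq_right]
        constructor
        · rintro ⟨h3, h4⟩
          exact ⟨h3, h4⟩
        · rintro ⟨h3, h4⟩
          exact ⟨h3, h4⟩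
      rw [h2]
      exact MeasurableSet.subtype_image hSm (h1 hB)
    rw [Measure.restrict_apply hB, Measure.map_apply_of_aemeasurable hga' hB, withDensity_apply',
      Measure.restrict_restrict' hSm, inter_comm (g ⁻¹' B) S]
    have h3 : B ∩ g '' S = g '' (S ∩ g ⁻¹' B) := by
      rw [image_inter_preimage, inter_comm]
    rw [h3]
    exact haus_image hO hg hS hSO hfin hAm inter_subset_left
  calc ∫⁻ w in g '' S, F w ∂(μH[1] : Measure ℂ) = ∫⁻ w in g '' S, F₁ w ∂(μH[1] : Measure ℂ) := heq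
    _ ≤ ∫⁻ w, F₁ w ∂((((μH[1] : Measure ℂ).restrict S).withDensity
        fun w => ENNReal.ofReal ‖deriv g w‖).map g) := lintegral_mono' hν le_rfl
    _ = ∫⁻ w, F₁ (g w) ∂(((μH[1] : Measure ℂ).restrict S).withDensity
        fun w => ENNReal.ofReal ‖deriv g w‖) := lintegral_map' hF₁.aemeasurable hga'
    _ = ∫⁻ w in S, ENNReal.ofReal ‖deriv g w‖ * F₁ (g w) ∂(μH[1] : Measure ℂ) := by
        exact lintegral_withDensity_eq_lintegral_mul₀' hda (hF₁.comp_aemeasurable hga')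
    _ ≤ ∫⁻ w in S, F (g w) * ENNReal.ofReal ‖deriv g w‖ ∂(μH[1] : Measure ℂ) := by
        refine lintegral_mono fun w => ?_
        rw [mul_comm]
        exact mul_le_mul_left (hle (g w)) _

end Pool.Agent.H56.TH
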