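import Pool.Agent.H56.TH.Defs

/-!
# Module TF: sets with their holes

PROOFS. `fill_open`: union of open sets. `sub_fill`: trivial. `fill_sub`: definition of `Full`.
`fill_full`: let `O` be open, bounded, `frontier O ⊆ fill Y`. The compact set `frontier O \ Y` is covered by finitely many
open bounded `O₁, .., O_m` with `frontier O_i ⊆ Y`. `W = O ∪ O₁ ∪ .. ∪ O_m` is open and bounded and
`frontier W ⊆ (frontier O ∪ ⋃ frontier O_i) \ W ⊆ Y` (a point of `frontier O` off `Y` is in some `O_i ⊆ W`), so `W` is one of the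
sets of the definition and `O ⊆ W ⊆ fill Y`.
`fill_pre`: `O` in the family, `z ∈ O`, `O' = connectedComponentIn O z`: open, bounded, preconnected,
`frontier O' ⊆ frontier O ⊆ Y` (as in `H76.SU.hul_comp`), and `frontier O'` is not empty (`O'` nonempty, bounded, so not the
plane). So `closure O' ∪ Y` is preconnected (both parts are, they meet in a point of the frontier; for `Y` take the union of two
preconnected sets with a common point), contained in `fill Y`, contains `z` and `Y`. `fill Y` is the union of such sets; they all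
contain a fixed point of `Y` (if `Y` is empty the family has only the empty set, since `frontier O'` is not empty).
`fill_front`: `z ∈ frontier (fill Y)`; `z ∉ fill Y` (open), so `z ∉ Y`. If `z ∉ closure Y`, a ball `B` around `z` misses `Y`; it
meets `fill Y`, so some `O` of the family; `B` is preconnected and misses `frontier O ⊆ Y`, so `B ⊆ O` and `z ∈ fill Y`. So
`z ∈ closure Y \ Y`.
`full_ball` : `O` bounded open, `frontier O ⊆ ball c r`: take the maximum of `dist · c` on the compact `closure O`, at `w`. If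
`w ∈ O` a point of `O` a bit further from `c` gives a contradiction (move `w` away from `c`; for `w = c` any direction), so
`w ∈ frontier O` and the maximum is `< r`.
-/

set_option autoImplicit false

open Filter Topology Metric Set MeasureTheory
open scoped MeasureTheory

namespace Pool.Agent.H56.TH

theorem fill_open {Y : Set ℂ} (hY : IsOpen Y) : IsOpen (fill Y) := by
  unfold fill
  exact hY.union (isOpen_sUnion fun O hO => hO.1)

theorem sub_fill (Y : Set ℂ) : Y ⊆ fill Y := by
  unfold fill
  exact subset_union_left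

private theorem mem_fill {Y O : Set ℂ} (h1 : IsOpen O) (h2 : Bornology.IsBounded O)
    (h3 : frontier O ⊆ Y) : O ⊆ fill Y := by
  intro z hz
  exact Or.inr (mem_sUnion.2 ⟨O, ⟨h1, h2, h3⟩, hz⟩)

private theorem fill_mem {Y : Set ℂ} {z : ℂ} (hz : z ∈ fill Y) (hzY : z ∉ Y) :
    ∃ O : Set ℂ, IsOpen O ∧ Bornology.IsBounded O ∧ frontier O ⊆ Y ∧ z ∈ O := by
  rcases hz with h | h
  · exact absurd h hzY
  · obtain ⟨O, ⟨h1, h2, h3⟩, hz⟩ := mem_sUnion.1 h
    exact ⟨O, h1, h2, h3, hz⟩

theorem fill_sub {Y V : Set ℂ} (hYV : Y ⊆ V) (hV : Full V) : fill Y ⊆ V := by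
  intro z hz
  by_cases hzY : z ∈ Y
  · exact hYV hzY
  · obtain ⟨O, h1, h2, h3, hzO⟩ := fill_mem hz hzY
    exact hV O h1 h2 (h3.trans hYV) hzO

theorem fill_full {Y : Set ℂ} (hY : IsOpen Y) : Full (fill Y) := by
  intro O hO hOb hOf
  have hFc : IsCompact (frontier O \ Y) := by
    have h1 : IsCompact (frontier O) :=
      Metric.isCompact_of_isClosed_isBounded isClosed_frontier
        (hOb.closure.subset frontier_subset_closure)
    exact h1.diff hY
  have hcov : ∀ z ∈ frontier O \ Y, ∃ O' : Set ℂ, (IsOpen O' ∧ Bornology.IsBounded O' ∧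
      frontier O' ⊆ Y) ∧ z ∈ O' := by
    intro z hz
    obtain ⟨O', h1, h2, h3, h4⟩ := fill_mem (hOf hz.1) hz.2
    exact ⟨O', ⟨h1, h2, h3⟩, h4⟩
  choose! G hG using hcov
  obtain ⟨t, ht, hts⟩ := hFc.elim_nhds_subcover G
    (fun z hz => (hG z hz).1.1.mem_nhds (hG z hz).2)
  have hWo : IsOpen (O ∪ ⋃ z ∈ t, G z) :=
    hO.union (isOpen_biUnion fun z hz => (hG z (ht z hz)).1.1)
  have hWb : Bornology.IsBounded (O ∪ ⋃ z ∈ t, G z) := by
    refine hOb.union ?_
    exact (Bornology.isBounded_biUnion_finset t).2 fun z hz => (hG z (ht z hz)).1.2.1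
  refine subset_union_left.trans (mem_fill hWo hWb ?_)
  intro w hw
  rw [hWo.frontier_eq] at hw
  by_contra hwY
  have hw1 : w ∉ O := fun h => hw.2 (Or.inl h)
  have hw2 : ∀ z ∈ t, w ∉ G z := fun z hz h => hw.2 (Or.inr (mem_biUnion hz h))
  have hw3 := hw.1
  rw [closure_union, t.closure_biUnion] at hw3
  rcases hw3 with h | h
  · have h1 : w ∈ frontier O := by
      rw [hO.frontier_eq]
      exact ⟨h, hw1⟩
    obtain ⟨z, hz, hwz⟩ := mem_iUnion₂.1 (hts ⟨h1, hwY⟩)
    exact hw2 z hz hwz
  · obtain ⟨z, hz, hwz⟩ := mem_iUnion₂.1 h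
    have h1 : w ∈ frontier (G z) := by
      rw [(hG z (ht z hz)).1.1.frontier_eq]
      exact ⟨hwz, hw2 z hz⟩
    exact hwY ((hG z (ht z hz)).1.2.2 h1)

private theorem comp_frontier {O : Set ℂ} (hO : IsOpen O) (z : ℂ) :
    frontier (connectedComponentIn O z) ⊆ frontier O := by
  intro w hw
  have hC : IsOpen (connectedComponentIn O z) := hO.connectedComponentIn
  rw [hC.frontier_eq] at hw
  rw [hO.frontier_eq]
  refine ⟨closure_mono (connectedComponentIn_subset _ _) hw.1, fun hwO => ?_⟩
  have h1 : IsOpen (connectedComponentIn O w) := hO.connectedComponentIn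
  have h2 : w ∈ connectedComponentIn O w := mem_connectedComponentIn hwO
  obtain ⟨u, hu1, hu2⟩ := mem_closure_iff.1 hw.1 _ h1 h2
  apply hw.2
  rw [connectedComponentIn_eq hu2, ← connectedComponentIn_eq hu1]
  exact h2

private theorem frontier_ne {O : Set ℂ} (hne : O.Nonempty) (hb : Bornology.IsBounded O) :
    (frontier O).Nonempty := by
  by_contra h
  rw [Set.not_nonempty_iff_eq_empty, ← isClopen_iff_frontier_eq_empty, isClopen_iff] at h
  rcases h with h | h
  · rw [h] at hne
    exact Set.not_nonempty_empty hne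
  · rw [h] at hb
    exact NormedSpace.unbounded_univ ℝ ℂ hb

theorem fill_pre {Y : Set ℂ} (hY : IsOpen Y) (hc : IsPreconnected Y) : IsPreconnected (fill Y) := by
  have key : ∀ z ∈ fill Y, z ∉ Y → ∃ T : Set ℂ, T ⊆ fill Y ∧ z ∈ T ∧ IsPreconnected T ∧ Y ⊆ T ∧
      Y.Nonempty := by
    intro z hz hzY
    obtain ⟨O, hO, hOb, hOf, hzO⟩ := fill_mem hz hzY
    have h1 : z ∈ connectedComponentIn O z := mem_connectedComponentIn hzO
    have h2 : Bornology.IsBounded (connectedComponentIn O z) :=
      hOb.subset (connectedComponentIn_subset _ _)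
    have h3 : frontier (connectedComponentIn O z) ⊆ Y := (comp_frontier hO z).trans hOf
    obtain ⟨p, hp⟩ := frontier_ne ⟨z, h1⟩ h2
    refine ⟨closure (connectedComponentIn O z) ∪ Y, ?_, Or.inl (subset_closure h1),
      IsPreconnected.union p (frontier_subset_closure hp) (h3 hp)
        isPreconnected_connectedComponentIn.closure hc, subset_union_right, ⟨p, h3 hp⟩⟩
    refine union_subset ?_ (sub_fill Y)
    intro w hw
    by_cases hwC : w ∈ connectedComponentIn O z
    · exact mem_fill hO hOb hOf (connectedComponentIn_subset _ _ hwC)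
    · apply sub_fill Y
      apply h3
      rw [hO.connectedComponentIn.frontier_eq]
      exact ⟨hw, hwC⟩
  rcases Y.eq_empty_or_nonempty with h | ⟨y, hy⟩
  · have h1 : fill Y = ∅ := by
      rw [Set.eq_empty_iff_forall_notMem]
      intro z hz
      have hzY : z ∉ Y := by
        rw [h]
        exact Set.notMem_empty z
      obtain ⟨T, -, -, -, -, hne⟩ := key z hz hzY
      rw [h] at hne
      exact Set.not_nonempty_empty hne
    rw [h1]
    exact isPreconnected_empty
  · refine isPreconnected_of_forall y fun z hz => ?_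
    by_cases hzY : z ∈ Y
    · exact ⟨Y, sub_fill Y, hy, hzY, hc⟩
    · obtain ⟨T, h1, h2, h3, h4, -⟩ := key z hz hzY
      exact ⟨T, h1, h4 hy, h2, h3⟩

theorem fill_front {Y : Set ℂ} (hY : IsOpen Y) : frontier (fill Y) ⊆ frontier Y := by
  intro z hz
  rw [(fill_open hY).frontier_eq] at hz
  have hzY : z ∉ Y := fun h => hz.2 (sub_fill Y h)
  rw [hY.frontier_eq]
  refine ⟨?_, hzY⟩
  by_contra hcl
  obtain ⟨ε, hε, hB⟩ := Metric.isOpen_iff.1 (isClosed_closure (s := Y)).isOpen_compl z hcl
  have hBY : ∀ u ∈ ball z ε, u ∉ Y := fun u hu h => hB hu (subset_closure h)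
  obtain ⟨w, hw1, hw2⟩ := mem_closure_iff.1 hz.1 _ isOpen_ball (mem_ball_self hε)
  obtain ⟨O, hO, hOb, hOf, hwO⟩ := fill_mem hw2 (hBY w hw1)
  have hsub : ball z ε ⊆ O := by
    by_contra hns
    obtain ⟨u, hu, huO⟩ := Set.not_subset.1 hns
    have hnf : ∀ v ∈ ball z ε, v ∉ O → v ∉ closure O := by
      intro v hv hvO hvc
      apply hBY v hv
      apply hOf
      rw [hO.frontier_eq]
      exact ⟨hvc, hvO⟩
    have hpc : IsPreconnected (ball z ε) := (convex_ball z ε).isPreconnected
    obtain ⟨v, -, hv1, hv2⟩ := hpc O (closure O)ᶜ hO isClosed_closure.isOpen_compl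
      (fun v hv => by
        by_cases hvO : v ∈ O
        · exact Or.inl hvO
        · exact Or.inr (hnf v hv hvO)) ⟨w, hw1, hwO⟩ ⟨u, hu, hnf u hu huO⟩
    exact hv2 (subset_closure hv1)
  exact hz.2 (mem_fill hO hOb hOf (hsub (mem_ball_self hε)))

private theorem further (v : ℂ) (t : ℝ) (ht : 0 ≤ t) : ∃ u : ℂ, ‖u‖ = t ∧ ‖v + u‖ = ‖v‖ + t := by
  by_cases hv : v = 0
  · refine ⟨(t : ℂ), ?_, ?_⟩
    · rw [Complex.norm_real, Real.norm_of_nonneg ht]
    · rw [hv, zero_add, norm_zero, zero_add, Complex.norm_real, Real.norm_of_nonneg ht]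
  · have hn : 0 < ‖v‖ := norm_pos_iff.2 hv
    refine ⟨((t / ‖v‖ : ℝ) : ℂ) * v, ?_, ?_⟩
    · rw [norm_mul, Complex.norm_real, Real.norm_of_nonneg (by positivity)]
      field_simp
    · have h1 : v + ((t / ‖v‖ : ℝ) : ℂ) * v = ((1 + t / ‖v‖ : ℝ) : ℂ) * v := by
        push_cast
        ring
      rw [h1, norm_mul, Complex.norm_real, Real.norm_of_nonneg (by positivity)]
      field_simp

theorem full_ball (c : ℂ) (r : ℝ) : Full (ball c r) := by
  intro O hO hOb hOf o ho
  by_contra hor
  have hcl : IsCompact (closure O) :=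
    Metric.isCompact_of_isClosed_isBounded isClosed_closure hOb.closure
  obtain ⟨w, hw, hmax⟩ := hcl.exists_isMaxOn ⟨o, subset_closure ho⟩
    (f := fun z => dist z c) (Continuous.continuousOn (by fun_prop))
  have hM : r ≤ dist w c := by
    have h1 : dist o c ≤ dist w c := hmax (subset_closure ho)
    rw [mem_ball, not_lt] at hor
    exact hor.trans h1
  by_cases hwO : w ∈ O
  · obtain ⟨ε, hε, hB⟩ := Metric.isOpen_iff.1 hO w hwO
    obtain ⟨u, hu1, hu2⟩ := further (w - c) (ε / 2) (by positivity)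
    have h1 : w + u ∈ O := by
      apply hB
      rw [mem_ball, dist_eq_norm, add_sub_cancel_left, hu1]
      linarith
    have h2 : dist (w + u) c ≤ dist w c := hmax (subset_closure h1)
    rw [dist_eq_norm, dist_eq_norm] at h2
    have h3 : w + u - c = w - c + u := by ring
    rw [h3, hu2] at h2
    linarith
  · have h1 : w ∈ frontier O := by
      rw [hO.frontier_eq]
      exact ⟨hw, hwO⟩
    have h2 := hOf h1
    rw [mem_ball] at h2
    linarith

theorem wn_univ (P : Set ℂ) : Wn P univ where
  op := isOpen_univ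
  co := isPreconnected_univ
  fu := fun _ _ _ _ => subset_univ _
  fr := by
    rw [frontier_univ]
    exact Set.empty_disjoint P

end Pool.Agent.H56.TH
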