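import Mathlib

/-!
# THEOREM H (expansion on compact sets without critical points in a totally disconnected post-critical set): definitions

`Full`: no holes. `Wn`: windows (open, connected, without holes, boundary off `P`). `fill`: a set with its holes.
`len`: the length of the boundary in the metric `ρ |dz|` (Hausdorff measure). `grd`: a grid, `lay`: a layer around `Q`.
`Mt`: `ρ` is comparable with `1 / dist (·, P)`. `Col`: collars (`Q` is a piece of `P`). `nb`: the neighbourhood of `L`.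
`HY`: the setting of THEOREM H. See think 1789, 1800.
-/

set_option autoImplicit false

open Filter Topology Metric Set MeasureTheory
open scoped MeasureTheory

namespace Pool.Agent.H56.TH

/-- no holes: a bounded open set whose boundary is in `V` is in `V` -/
def Full (V : Set ℂ) : Prop :=
  ∀ O : Set ℂ, IsOpen O → Bornology.IsBounded O → frontier O ⊆ V → O ⊆ V

/-- windows (`univ` is a window; boundedness is not required) -/
structure Wn (P V : Set ℂ) : Prop where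
  op : IsOpen V
  co : IsPreconnected V
  fu : Full V
  fr : Disjoint (frontier V) P

/-- a set with its holes -/
def fill (Y : Set ℂ) : Set ℂ :=
  Y ∪ ⋃₀ {O : Set ℂ | IsOpen O ∧ Bornology.IsBounded O ∧ frontier O ⊆ Y}

/-- the length of the boundary of `V` in the metric `ρ |dz|` -/
noncomputable def len (ρ : ℂ → ENNReal) (V : Set ℂ) : ENNReal :=
  ∫⁻ w in frontier V, ρ w ∂(μH[1] : Measure ℂ)

/-- the grid of mesh `h` through `(a, b)` -/
def grd (a b h : ℝ) : Set ℂ :=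
  {w | (∃ k : ℤ, w.re = a + k * h) ∨ ∃ k : ℤ, w.im = b + k * h}

/-- the layer `s ≤ dist (·, Q) ≤ t` -/
def lay (Q : Set ℂ) (s t : ℝ) : Set ℂ := {w | s ≤ infDist w Q ∧ infDist w Q ≤ t}

/-- `ρ` is comparable with `1 / dist (·, P)` in `O` -/
structure Mt (ρ : ℂ → ENNReal) (P O : Set ℂ) : Prop where
  lo : ∀ w ∈ O, ENNReal.ofReal (1 / infDist w P) ≤ ρ w
  up : ∀ (w : ℂ) (d : ℝ), 0 < d → ball w d ⊆ O → Disjoint (ball w d) P → ρ w ≤ ENNReal.ofReal (16 / d)

/-- a collar: the piece `Q` of `P` has distance `≥ 4 d` from the rest of `P` -/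
structure Col (P Q : Set ℂ) (d : ℝ) : Prop where
  d0 : 0 < d
  Qc : IsCompact Q
  Qn : Q.Nonempty
  QP : Q ⊆ P
  sep : ∀ p ∈ P, p ∉ Q → ∀ q ∈ Q, 4 * d ≤ dist p q

/-- the `δ`-neighbourhood of `L` as a union of balls -/
def nb (L : Set ℂ) (δ : ℝ) : Set ℂ := ⋃ z ∈ L, ball z δ

/-- the setting of THEOREM H: `L` compact, `f L ⊆ L ⊆ P`, `f` injective on the balls `ball z δ₀`, `z ∈ L`, with inverse
branches on `ball (f z) δ₁`; the points of `L` are components of `P`; the metric `ρ` is non increasing under pull back;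
(O): no nonempty open set stays forever in the neighbourhood of `L` -/
structure HY (f : ℂ → ℂ) (P L : Set ℂ) (ρ : ℂ → ENNReal) (δ₀ δ₁ : ℝ) : Prop where
  hδ₁ : 0 < δ₁
  hδ : δ₁ ≤ δ₀
  Pc : IsClosed P
  Lc : IsCompact L
  Ln : L.Nonempty
  LP : L ⊆ P
  Lf : ∀ z ∈ L, f z ∈ L
  Pf : ∀ z ∈ P, z ∈ nb L δ₀ → f z ∈ P
  fd : DifferentiableOn ℂ f (nb L δ₀)
  inj : ∀ z ∈ L, InjOn f (ball z δ₀)
  br : ∀ z ∈ L, ∃ g : ℂ → ℂ, DifferentiableOn ℂ g (ball (f z) δ₁) ∧ g (f z) = z ∧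
    ∀ u ∈ ball (f z) δ₁, g u ∈ ball z δ₀ ∧ f (g u) = u
  col : ∀ z ∈ L, ∀ κ : ℝ, 0 < κ → ∃ Q : Set ℂ, z ∈ Q ∧ Q ⊆ P ∧ Q ⊆ ball z κ ∧ IsCompact Q ∧ IsClosed (P \ Q)
  met : Mt ρ P (nb L δ₀)
  ct : ∀ w ∈ nb L δ₀, ρ w ≤ ρ (f w) * ENNReal.ofReal ‖deriv f w‖
  esc : ∀ O : Set ℂ, IsOpen O → O.Nonempty → ∃ j : ℕ, ∃ w ∈ O, f^[j] w ∉ nb L δ₀

end Pool.Agent.H56.TH
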