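import Pool.Agent.H56.TH.Defs
import Pool.Agent.H56.UD.DA

/-!
# THEOREM H, module MR: the planar setting `PS` gives the setting `HY`

`rh`: the metric: the supremum over all `k` and all `z ∈ dm k`, `f^[k] z = w`, of `1 / (‖(f^[k])' z‖ dist (z, P))`.
`FR`: a frame: what the metric needs (it holds for `PS` and for the setting `SS` of H78/UX, with `J := P`).
`mr_unif`: local inverses with uniform radii near a compact set without critical points. `mr_der`: `f' ≠ 0` off `Cr`.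
`mr_col`: clopen pieces of `P`. `mr_comp`: connected subsets of small neighbourhoods of `L` are small.
`hy_fr`: the setting `HY` in a frame. `hy_ps`: the setting `HY` from `PS`.
-/

set_option autoImplicit false

open Filter Topology Metric Set MeasureTheory
open scoped MeasureTheory

namespace Pool.Agent.H56.TH

open Pool.Agent.H56.UD Pool.Agent.H80.AJ

/-- the metric -/
noncomputable def rh (f : ℂ → ℂ) (U J P : Set ℂ) (δ : ℝ) (w : ℂ) : ENNReal :=
  ⨆ (k : ℕ) (z : ℂ) (_ : z ∈ dm f U J δ k) (_ : f^[k] z = w),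
    (ENNReal.ofReal (‖deriv (f^[k]) z‖ * infDist z P))⁻¹

/-- a frame -/
structure FR (f : ℂ → ℂ) (U J P : Set ℂ) (δ : ℝ) : Prop where
  hδ : 0 < δ
  Uo : IsOpen U
  fd : DifferentiableOn ℂ f U
  Pc : IsCompact P
  Pn : P.Nonempty
  PJ : P ⊆ J
  PU : P ⊆ U
  Pf : ∀ z ∈ P, f z ∈ P
  br : ∀ (k : ℕ) (w z : ℂ) (r : ℝ), ball w r ⊆ thickening δ J → (∀ u ∈ ball w r, u ∉ P) → z ∈ dm f U J δ k →
    f^[k] z ∈ ball w r → ∃ G : ℂ → ℂ, DifferentiableOn ℂ G (ball w r) ∧ G (f^[k] z) = z ∧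
      ∀ u ∈ ball w r, G u ∈ dm f U J δ k ∧ f^[k] (G u) = u

private theorem mr_open {V : Set ℂ} {c : ℂ} {R : ℝ} (hR : 0 < R) (hV : V = ball c R) {f : ℂ → ℂ}
    (hf : DifferentiableOn ℂ f V) (hi : InjOn f V) : ∀ s ⊆ V, IsOpen s → IsOpen (f '' s) := by
  subst hV
  rcases (hf.analyticOnNhd isOpen_ball).is_constant_or_isOpen (convex_ball c R).isPreconnected with
    ⟨w, hw⟩ | h1
  · exfalso
    have h1 : c ∈ ball c R := mem_ball_self hR
    have h2 : c + ((R / 2 : ℝ) : ℂ) ∈ ball c R := by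
      rw [mem_ball_iff_norm, add_sub_cancel_left, Complex.norm_real,
        Real.norm_of_nonneg (by positivity)]
      linarith
    have h3 := hi h1 h2 ((hw _ h1).trans (hw _ h2).symm)
    have h4 : ((R / 2 : ℝ) : ℂ) = 0 := by linear_combination -h3
    have h5 : R / 2 = 0 := by exact_mod_cast h4
    linarith
  · exact h1

private theorem mr_hol {c : ℂ} {R : ℝ} (hR : 0 < R) {f : ℂ → ℂ}
    (hf : DifferentiableOn ℂ f (ball c R)) (hi : InjOn f (ball c R)) :
    DifferentiableOn ℂ (Function.invFunOn f (ball c R)) (f '' ball c R) := by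
  have hopen := mr_open hR rfl hf hi
  obtain ⟨V, hV⟩ : ∃ V, V = ball c R := ⟨_, rfl⟩
  have hVo : IsOpen V := by rw [hV]; exact isOpen_ball
  rw [← hV] at hf hi hopen ⊢
  obtain ⟨k, hk⟩ : ∃ k, k = Function.invFunOn f V := ⟨_, rfl⟩
  rw [← hk]
  have hkmem : ∀ w ∈ f '' V, k w ∈ V := fun w hw => by
    rw [hk]
    exact Function.invFunOn_mem hw
  have hkeq : ∀ w ∈ f '' V, f (k w) = w := fun w hw => by
    rw [hk]
    exact Function.invFunOn_eq hw
  have hkg : ∀ y ∈ V, k (f y) = y := by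
    intro y hy
    have hw : f y ∈ f '' V := mem_image_of_mem f hy
    exact hi (hkmem _ hw) hy (hkeq _ hw)
  have hkc : ContinuousOn k (f '' V) := by
    rintro w ⟨y, hy, rfl⟩
    apply ContinuousAt.continuousWithinAt
    rw [ContinuousAt, hkg y hy]
    intro N hN
    obtain ⟨N', hN'N, hN'o, hyN'⟩ := _root_.mem_nhds_iff.1 hN
    have h1 : IsOpen (f '' (N' ∩ V)) := hopen _ inter_subset_right (hN'o.inter hVo)
    have h2 : f y ∈ f '' (N' ∩ V) := mem_image_of_mem f ⟨hyN', hy⟩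
    rw [Filter.mem_map]
    filter_upwards [h1.mem_nhds h2] with v hv
    obtain ⟨x, hx, rfl⟩ := hv
    show k (f x) ∈ N
    rw [hkg x hx.2]
    exact hN'N hx.1
  intro w hw
  exact (Pool.Agent.H32.BT.diff_of_inverse ((hopen _ subset_rfl hVo).mem_nhds hw) hkc hVo
    (hkmem w hw) hf (fun v hv _ => hkeq v hv)).differentiableWithinAt

/-- local inverses with uniform radii -/
theorem mr_unif {f : ℂ → ℂ} {U L : Set ℂ} (hU : IsOpen U) (hf : DifferentiableOn ℂ f U)
    (hL : IsCompact L) (hLU : L ⊆ U) (hd : ∀ z ∈ L, deriv f z ≠ 0) {ε : ℝ} (hε : 0 < ε) :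
    ∃ r0 : ℝ, 0 < r0 ∧ ∀ r : ℝ, 0 < r → r ≤ r0 → ∃ s : ℝ, 0 < s ∧ s ≤ r ∧ ∀ z ∈ L,
      ball z r ⊆ U ∧ (∀ w ∈ ball z r, f w ∈ ball (f z) ε) ∧ InjOn f (ball z r) ∧
      (∀ w ∈ ball z r, deriv f w ≠ 0) ∧
      ∃ g : ℂ → ℂ, DifferentiableOn ℂ g (ball (f z) s) ∧ g (f z) = z ∧
        ∀ u ∈ ball (f z) s, g u ∈ ball z r ∧ f (g u) = u := by
  rcases L.eq_empty_or_nonempty with rfl | hne
  · exact ⟨1, one_pos, fun r hr _ => ⟨r, hr, le_rfl, fun z hz => absurd hz (notMem_empty z)⟩⟩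
  have hdc : ContinuousOn (deriv f) U := ((hf.analyticOnNhd hU).deriv).continuousOn
  obtain ⟨z0, hz0, hmin⟩ := hL.exists_isMinOn hne (hdc.mono hLU).norm
  obtain ⟨z1, hz1, hmax⟩ := hL.exists_isMaxOn hne (hdc.mono hLU).norm
  obtain ⟨m, hm⟩ : ∃ m : ℝ, m = ‖deriv f z0‖ := ⟨_, rfl⟩
  obtain ⟨M, hM⟩ : ∃ M : ℝ, M = ‖deriv f z1‖ := ⟨_, rfl⟩
  have hm0 : 0 < m := by rw [hm]; exact norm_pos_iff.2 (hd z0 hz0)
  have hmin' : ∀ z ∈ L, m ≤ ‖deriv f z‖ := fun z hz => by rw [hm]; exact hmin hz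
  have hmax' : ∀ z ∈ L, ‖deriv f z‖ ≤ M := fun z hz => by rw [hM]; exact hmax hz
  have hmM : m ≤ M := (hmin' z0 hz0).trans (hmax' z0 hz0)
  have hM0 : 0 < M := hm0.trans_le hmM
  obtain ⟨R, hR, hRU⟩ := hL.exists_cthickening_subset_open hU hLU
  have hK : IsCompact (cthickening R L) := hL.cthickening
  have huc := hK.uniformContinuousOn_of_continuous (hdc.mono hRU)
  rw [Metric.uniformContinuousOn_iff] at huc
  obtain ⟨δu, hδu, hu⟩ := huc (m / 2) (by positivity)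
  refine ⟨min R (min δu (ε / (2 * M))), lt_min hR (lt_min hδu (by positivity)), fun r hr hr0 => ?_⟩
  have hrR : r ≤ R := hr0.trans (min_le_left _ _)
  have hrδ : r ≤ δu := hr0.trans ((min_le_right _ _).trans (min_le_left _ _))
  have hrε : r ≤ ε / (2 * M) := hr0.trans ((min_le_right _ _).trans (min_le_right _ _))
  refine ⟨min r (r * m / 16), lt_min hr (by positivity), min_le_left _ _, fun z hz => ?_⟩
  have hbK : ball z r ⊆ cthickening R L := by
    intro w hw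
    exact thickening_subset_cthickening _ _ (mem_thickening_iff.2 ⟨z, hz, (mem_ball.1 hw).trans_le hrR⟩)
  have hbU : ball z r ⊆ U := hbK.trans hRU
  have hzK : z ∈ cthickening R L := hbK (mem_ball_self hr)
  have hdd : ∀ w ∈ ball z r, ‖deriv f w - deriv f z‖ ≤ m / 2 := by
    intro w hw
    have := hu w (hbK hw) z hzK ((mem_ball.1 hw).trans_le hrδ)
    rw [dist_eq_norm] at this
    exact this.le
  have hmv : ∀ w ∈ ball z r, ∀ w' ∈ ball z r,
      ‖(f w - deriv f z * w) - (f w' - deriv f z * w')‖ ≤ m / 2 * ‖w - w'‖ := by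
    intro w hw w' hw'
    refine (convex_ball z r).norm_image_sub_le_of_norm_hasDerivWithin_le
      (f := fun x => f x - deriv f z * x) (f' := fun x => deriv f x - deriv f z) (fun x hx => ?_)
      (fun x hx => hdd x hx) hw' hw
    have h1 := ((hf x (hbU hx)).differentiableAt (hU.mem_nhds (hbU hx))).hasDerivAt
    have h2 := ((hasDerivAt_id x).const_mul (deriv f z))
    have h3 := h1.sub h2
    rw [mul_one] at h3
    exact h3.hasDerivWithinAt
  have hinj : InjOn f (ball z r) := by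
    intro w hw w' hw' he
    have h1 := hmv w hw w' hw'
    rw [he] at h1
    have h2 : (f w' - deriv f z * w) - (f w' - deriv f z * w') = -(deriv f z * (w - w')) := by ring
    rw [h2, norm_neg, norm_mul] at h1
    have h3 := hmin' z hz
    have h4 := norm_nonneg (w - w')
    have h5 : m * ‖w - w'‖ ≤ ‖deriv f z‖ * ‖w - w'‖ := mul_le_mul_of_nonneg_right h3 h4
    have h6 : ‖w - w'‖ = 0 := by nlinarith
    exact sub_eq_zero.1 (norm_eq_zero.1 h6)
  refine ⟨hbU, fun w hw => ?_, hinj, fun w hw h0 => ?_, ?_⟩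
  · have h1 := hmv w hw z (mem_ball_self hr)
    have h2 : f w - f z = ((f w - deriv f z * w) - (f z - deriv f z * z)) + deriv f z * (w - z) := by ring
    rw [mem_ball, dist_eq_norm, h2]
    have h3 : ‖w - z‖ < r := by rw [← dist_eq_norm]; exact hw
    have h4 : ‖deriv f z * (w - z)‖ ≤ M * ‖w - z‖ := by
      rw [norm_mul]
      exact mul_le_mul_of_nonneg_right (hmax' z hz) (norm_nonneg _)
    have h5 : r * (2 * M) ≤ ε := by
      rwa [le_div_iff₀ (by positivity)] at hrε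
    have h6 := norm_add_le ((f w - deriv f z * w) - (f z - deriv f z * z)) (deriv f z * (w - z))
    have h7 : M * ‖w - z‖ < M * r := mul_lt_mul_of_pos_left h3 hM0
    have h8 : m / 2 * ‖w - z‖ ≤ M * ‖w - z‖ := mul_le_mul_of_nonneg_right (by linarith) (norm_nonneg _)
    linarith
  · have h1 := hdd w hw
    rw [h0, zero_sub, norm_neg] at h1
    have h2 := hmin' z hz
    linarith
  · have hcov := univ_cover hr (hf.mono hbU) hinj
    have hsub : ball (f z) (min r (r * m / 16)) ⊆ f '' ball z r := by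
      refine (ball_subset_ball ?_).trans hcov
      refine (min_le_right _ _).trans ?_
      have := mul_le_mul_of_nonneg_left (hmin' z hz) hr.le
      linarith
    refine ⟨Function.invFunOn f (ball z r), (mr_hol hr (hf.mono hbU) hinj).mono hsub, ?_, fun u hu => ?_⟩
    · have hw : f z ∈ f '' ball z r := mem_image_of_mem f (mem_ball_self hr)
      exact hinj (Function.invFunOn_mem hw) (mem_ball_self hr) (Function.invFunOn_eq hw)
    · exact ⟨Function.invFunOn_mem (hsub hu), Function.invFunOn_eq (hsub hu)⟩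

variable {f : ℂ → ℂ} {U J P Cr : Set ℂ} {δ : ℝ} {η : ℂ → ℂ → ℂ} {ρ : ℝ}

/-- no critical points off `Cr` -/
theorem mr_der {z : ℂ} {s : ℝ} (hs : 0 < s) (hzd : DifferentiableAt ℂ f z)
    (hl : (∃ g : ℂ → ℂ, DifferentiableOn ℂ g (ball (f z) s) ∧ g (f z) = z ∧ ∀ u ∈ ball (f z) s, g u ∈ U ∧ f (g u) = u) ∨
      (∃ c ∈ Cr, ball (f z) s ⊆ ball (f c) (ρ ^ 2 / 4) ∧ z ∈ η c '' ball 0 ρ))
    (hnf : ∀ c ∈ Cr, DifferentiableOn ℂ (η c) (ball 0 ρ) ∧ InjOn (η c) (ball 0 ρ) ∧ η c 0 = c ∧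
      ∀ v ∈ ball (0 : ℂ) ρ, η c v ∈ U ∧ f (η c v) = f c + v ^ 2)
    (hc : z ∉ Cr) : deriv f z ≠ 0 := by
  have hfd : HasDerivAt f (deriv f z) z := hzd.hasDerivAt
  rcases hl with ⟨g, hg, hgz, hgf⟩ | ⟨c, hc', -, v, hv, hvz⟩
  · intro h0
    have h1 : HasDerivAt g (deriv g (f z)) (f z) :=
      ((hg _ (mem_ball_self hs)).differentiableAt (isOpen_ball.mem_nhds (mem_ball_self hs))).hasDerivAt
    have h2 : HasDerivAt (f ∘ g) (deriv f z * deriv g (f z)) (f z) := by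
      have h3 : HasDerivAt f (deriv f z) (g (f z)) := by rw [hgz]; exact hfd
      exact h3.comp (f z) h1
    have h4 : f ∘ g =ᶠ[𝓝 (f z)] id := by
      filter_upwards [isOpen_ball.mem_nhds (mem_ball_self hs)] with u hu
      exact (hgf u hu).2
    have h5 := (h4.hasDerivAt_iff.1 h2).unique (hasDerivAt_id _)
    rw [h0, zero_mul] at h5
    exact zero_ne_one h5
  · obtain ⟨h1, h2, h3, h4⟩ := hnf c hc'
    have hv0 : v ≠ 0 := by
      rintro rfl
      rw [h3] at hvz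
      rw [← hvz] at hc
      exact hc hc'
    intro h0
    have h5 : HasDerivAt (η c) (deriv (η c) v) v :=
      ((h1 v hv).differentiableAt (isOpen_ball.mem_nhds hv)).hasDerivAt
    have h6 : HasDerivAt (f ∘ η c) (deriv f z * deriv (η c) v) v := by
      have h7 : HasDerivAt f (deriv f z) (η c v) := by rw [hvz]; exact hfd
      exact h7.comp v h5
    have h8 : (f ∘ η c) =ᶠ[𝓝 v] fun u => f c + u ^ 2 := by
      filter_upwards [isOpen_ball.mem_nhds hv] with u hu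
      exact (h4 u hu).2
    have h9 : HasDerivAt (fun u : ℂ => f c + u ^ 2) (2 * v) v := by
      have := (hasDerivAt_pow 2 v).const_add (f c)
      simpa using this
    have h10 := (h8.hasDerivAt_iff.1 h6).unique h9
    rw [h0, zero_mul] at h10
    exact hv0 (by simpa using h10.symm)

/-- clopen pieces -/
theorem mr_col {P : Set ℂ} (hP : IsCompact P) {z : ℂ} (hz : z ∈ P) (ht : connectedComponentIn P z = {z})
    {κ : ℝ} (hκ : 0 < κ) :
    ∃ Q : Set ℂ, z ∈ Q ∧ Q ⊆ P ∧ Q ⊆ ball z κ ∧ IsCompact Q ∧ IsClosed (P \ Q) := by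
  have : CompactSpace P := isCompact_iff_compactSpace.1 hP
  rw [connectedComponentIn_eq_image hz, connectedComponent_eq_iInter_isClopen] at ht
  obtain ⟨x, hx⟩ : ∃ x : P, x = ⟨z, hz⟩ := ⟨_, rfl⟩
  rw [← hx] at ht
  have hne : Nonempty {s : Set P // IsClopen s ∧ x ∈ s} := ⟨⟨univ, isClopen_univ, mem_univ _⟩⟩
  obtain ⟨⟨V, hV, hzV⟩, hVκ⟩ := exists_subset_nhds_of_compactSpace
    (V := fun s : {s : Set P // IsClopen s ∧ x ∈ s} => (s : Set P))
    (fun s t => ⟨⟨s.1 ∩ t.1, s.2.1.inter t.2.1, s.2.2, t.2.2⟩, inter_subset_left, inter_subset_right⟩)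
    (fun s => s.2.1.isClosed) (U := Subtype.val ⁻¹' ball z κ) (fun y hy => by
      have h1 : (y : ℂ) ∈ ({z} : Set ℂ) := by
        rw [← ht]
        exact mem_image_of_mem _ hy
      refine (isOpen_ball.preimage continuous_subtype_val).mem_nhds ?_
      rw [mem_preimage, mem_singleton_iff.1 h1]
      exact mem_ball_self hκ)
  rw [hx] at hzV
  refine ⟨Subtype.val '' V, ⟨⟨z, hz⟩, hzV, rfl⟩, ?_, ?_, ?_, ?_⟩
  · rintro _ ⟨x, -, rfl⟩
    exact x.2
  · rintro _ ⟨x, hx, rfl⟩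
    exact hVκ hx
  · exact hV.isClosed.isCompact.image continuous_subtype_val
  · have h1 : P \ (Subtype.val '' V) = Subtype.val '' Vᶜ := by
      ext x
      constructor
      · rintro ⟨hx, hx2⟩
        exact ⟨⟨x, hx⟩, fun hxV => hx2 ⟨⟨x, hx⟩, hxV, rfl⟩, rfl⟩
      · rintro ⟨y, hy, rfl⟩
        refine ⟨y.2, ?_⟩
        rintro ⟨y', hy', he⟩
        rw [Subtype.ext he] at hy'
        exact hy hy'
    rw [h1]
    exact (hV.compl.isClosed.isCompact.image continuous_subtype_val).isClosed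

/-- connected sets near `L` are small -/
theorem mr_comp {P L : Set ℂ} (hP : IsCompact P) (ht : ∀ z ∈ L, connectedComponentIn P z = {z})
    (hL : IsCompact L) (hLP : L ⊆ P) {ε : ℝ} (hε : 0 < ε) : ∃ δ₀ : ℝ, 0 < δ₀ ∧ ∀ S : Set ℂ, IsPreconnected S →
      S ⊆ nb L δ₀ → ∀ a ∈ S, ∀ b ∈ S, dist a b < ε := by
  classical
  have h1 : ∀ z ∈ L, ∃ (Q : Set ℂ) (e : ℝ), 0 < e ∧ z ∈ Q ∧ Q ⊆ ball z (ε / 8) ∧
      Disjoint (thickening e Q) (thickening e (P \ Q)) := by
    intro z hz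
    obtain ⟨Q, h1, h2, h3, h4, h5⟩ := mr_col hP (hLP hz) (ht z hz) (show 0 < ε / 8 by positivity)
    obtain ⟨e, he, hd⟩ := disjoint_sdiff_right.exists_thickenings h4 h5
    exact ⟨Q, e, he, h1, h3, hd⟩
  choose! Q e he hzQ hQb hQd using h1
  obtain ⟨t, htL, htc⟩ := hL.elim_nhds_subcover (fun z => ball z (e z)) fun z hz => ball_mem_nhds z (he z hz)
  obtain ⟨δ₀, hδ₀, hδe, hδε⟩ : ∃ δ₀ : ℝ, 0 < δ₀ ∧ (∀ z ∈ t, δ₀ ≤ e z) ∧ δ₀ ≤ ε / 8 := by
    rcases t.eq_empty_or_nonempty with rfl | hne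
    · exact ⟨ε / 8, by positivity, fun z hz => absurd hz (Finset.notMem_empty z), le_rfl⟩
    · obtain ⟨z0, hz0, hmin⟩ := t.exists_min_image e hne
      exact ⟨min (e z0) (ε / 8), lt_min (he z0 (htL z0 hz0)) (by positivity),
        fun z hz => (min_le_left _ _).trans (hmin z hz), min_le_right _ _⟩
  refine ⟨δ₀, hδ₀, fun S hS hSL a ha b hb => ?_⟩
  obtain ⟨q, hq, haq⟩ := mem_iUnion₂.1 (hSL ha)
  obtain ⟨z, hz, hqz⟩ := mem_iUnion₂.1 (htc hq)
  have hzL := htL z hz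
  have hqQ : q ∈ Q z := by
    by_contra hcon
    have h1 : q ∈ thickening (e z) (Q z) := mem_thickening_iff.2 ⟨z, hzQ z hzL, hqz⟩
    have h2 : q ∈ thickening (e z) (P \ Q z) :=
      self_subset_thickening (he z hzL) _ ⟨hLP hq, hcon⟩
    exact (hQd z hzL).le_bot ⟨h1, h2⟩
  have hcov : S ⊆ thickening δ₀ (Q z) ∪ thickening δ₀ (P \ Q z) := by
    intro x hx
    obtain ⟨y, hy, hxy⟩ := mem_iUnion₂.1 (hSL hx)
    by_cases hyQ : y ∈ Q z
    · exact Or.inl (mem_thickening_iff.2 ⟨y, hyQ, hxy⟩)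
    · exact Or.inr (mem_thickening_iff.2 ⟨y, ⟨hLP hy, hyQ⟩, hxy⟩)
  have hdis : Disjoint (thickening δ₀ (Q z)) (thickening δ₀ (P \ Q z)) :=
    (hQd z hzL).mono (thickening_mono (hδe z hz) _) (thickening_mono (hδe z hz) _)
  have hsub := hS.subset_left_of_subset_union isOpen_thickening isOpen_thickening hdis hcov
    ⟨a, ha, mem_thickening_iff.2 ⟨q, hqQ, haq⟩⟩
  have hpt : ∀ x ∈ S, dist x z < ε / 4 := by
    intro x hx
    obtain ⟨y, hy, hxy⟩ := mem_thickening_iff.1 (hsub hx)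
    have h1 := mem_ball.1 (hQb z hzL hy)
    have h2 := dist_triangle x y z
    linarith
  have h1 := hpt a ha
  have h2 := hpt b hb
  have h3 := dist_triangle_right a b z
  linarith

/-- totally disconnected sets -/
theorem mr_td {P : Set ℂ} (hP : IsTotallyDisconnected P) {z : ℂ} (hz : z ∈ P) : connectedComponentIn P z = {z} :=
  (hP _ (connectedComponentIn_subset P z) isPreconnected_connectedComponentIn).eq_singleton_of_mem
    (mem_connectedComponentIn hz)

theorem fr_open (h : FR f U J P δ) (k : ℕ) : IsOpen (dm f U J δ k) := by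
  induction k with
  | zero =>
    rw [dm_zero]
    exact isOpen_thickening
  | succ k ih =>
    have he : dm f U J δ (k + 1) = U ∩ f ⁻¹' (dm f U J δ k) := by
      ext z
      exact dm_succ k z
    rw [he]
    exact h.fd.continuousOn.isOpen_inter_preimage h.Uo ih

theorem fr_diff (h : FR f U J P δ) (k : ℕ) : DifferentiableOn ℂ (f^[k]) (dm f U J δ k) := by
  induction k with
  | zero => simpa using differentiableOn_id
  | succ k ih =>
    rw [Function.iterate_succ]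
    exact ih.comp (h.fd.mono fun z hz => ((dm_succ k z).1 hz).1) fun z hz => ((dm_succ k z).1 hz).2

theorem fr_it (h : FR f U J P δ) (k : ℕ) {z : ℂ} (hz : z ∈ P) : f^[k] z ∈ P := by
  induction k with
  | zero => simpa using hz
  | succ k ih =>
    rw [Function.iterate_succ_apply']
    exact h.Pf _ ih

private theorem mr_itd (h : FR f U J P δ) {k : ℕ} {z : ℂ} (hz : z ∈ dm f U J δ k) :
    HasDerivAt (f^[k]) (deriv (f^[k]) z) z :=
  ((fr_diff h k z hz).differentiableAt ((fr_open h k).mem_nhds hz)).hasDerivAt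

/-- the upper bound -/
theorem rh_up (h : FR f U J P δ) {w : ℂ} {d : ℝ} (hd : 0 < d) (hw : ball w d ⊆ thickening δ J)
    (hP : Disjoint (ball w d) P) : rh f U J P δ w ≤ ENNReal.ofReal (16 / d) := by
  unfold rh
  refine iSup_le fun k => iSup_le fun z => iSup_le fun hz => iSup_le fun hzw => ?_
  have hwb : f^[k] z ∈ ball w d := by rw [hzw]; exact mem_ball_self hd
  obtain ⟨G, hG1, hG2, hG3⟩ := h.br k w z d hw (fun u hu hu2 => hP.le_bot ⟨hu, hu2⟩) hz hwb
  rw [hzw] at hG2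
  have hGi : InjOn G (ball w d) := by
    intro u hu u' hu' he
    have h1 := (hG3 u hu).2
    rw [he, (hG3 u' hu').2] at h1
    exact h1.symm
  have hGd : HasDerivAt G (deriv G w) w :=
    ((hG1 w (mem_ball_self hd)).differentiableAt (isOpen_ball.mem_nhds (mem_ball_self hd))).hasDerivAt
  have hch : deriv (f^[k]) z * deriv G w = 1 := by
    have h1 : HasDerivAt (f^[k]) (deriv (f^[k]) z) (G w) := by rw [hG2]; exact mr_itd h hz
    have h2 := h1.comp w hGd
    have h3 : f^[k] ∘ G =ᶠ[𝓝 w] id := by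
      filter_upwards [isOpen_ball.mem_nhds (mem_ball_self hd)] with u hu
      exact (hG3 u hu).2
    exact (h3.hasDerivAt_iff.1 h2).unique (hasDerivAt_id _)
  have hnm : ‖deriv (f^[k]) z‖ * ‖deriv G w‖ = 1 := by rw [← norm_mul, hch, norm_one]
  have hinf : d * ‖deriv G w‖ / 16 ≤ infDist z P := by
    refine (le_infDist h.Pn).2 fun p hp => ?_
    by_contra hlt
    rw [not_le] at hlt
    have h1 : p ∈ ball (G w) (d * ‖deriv G w‖ / 16) := by
      rw [hG2, mem_ball, dist_comm]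
      exact hlt
    obtain ⟨u, hu, hup⟩ := univ_cover hd hG1 hGi h1
    have h2 := fr_it h k hp
    rw [← hup, (hG3 u hu).2] at h2
    exact hP.le_bot ⟨hu, h2⟩
  have hkey : d / 16 ≤ ‖deriv (f^[k]) z‖ * infDist z P := by
    have h1 := mul_le_mul_of_nonneg_left hinf (norm_nonneg (deriv (f^[k]) z))
    have h2 : ‖deriv (f^[k]) z‖ * (d * ‖deriv G w‖ / 16) = d / 16 := by
      calc ‖deriv (f^[k]) z‖ * (d * ‖deriv G w‖ / 16) = d / 16 * (‖deriv (f^[k]) z‖ * ‖deriv G w‖) := by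
            ring
        _ = d / 16 := by rw [hnm, mul_one]
    rwa [h2] at h1
  calc (ENNReal.ofReal (‖deriv (f^[k]) z‖ * infDist z P))⁻¹ ≤ (ENNReal.ofReal (d / 16))⁻¹ :=
        ENNReal.inv_le_inv.2 (ENNReal.ofReal_le_ofReal hkey)
    _ = ENNReal.ofReal (16 / d) := by
        rw [← ENNReal.ofReal_inv_of_pos (by positivity), inv_div]

/-- the lower bound -/
theorem rh_lo {w : ℂ} (hw : w ∈ thickening δ J) :
    ENNReal.ofReal (1 / infDist w P) ≤ rh f U J P δ w := by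
  have h1 : (ENNReal.ofReal (‖deriv (f^[0]) w‖ * infDist w P))⁻¹ ≤ rh f U J P δ w := by
    unfold rh
    refine le_iSup_of_le 0 (le_iSup_of_le w (le_iSup_of_le ?_ (le_iSup_of_le rfl le_rfl)))
    rw [dm_zero]
    exact hw
  refine le_trans ?_ h1
  have h2 : deriv (f^[0]) w = 1 := by
    rw [Function.iterate_zero]
    exact deriv_id w
  rw [h2, norm_one, one_mul]
  rcases (infDist_nonneg : 0 ≤ infDist w P).eq_or_lt with h3 | h3
  · rw [← h3, div_zero, ENNReal.ofReal_zero]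
    exact bot_le
  · rw [one_div, ENNReal.ofReal_inv_of_pos h3]

/-- monotonicity under pull back -/
theorem rh_ct (h : FR f U J P δ) {w : ℂ} (hw : w ∈ U) (hfw : f w ∈ thickening δ J)
    (hd : deriv f w ≠ 0) : rh f U J P δ w ≤ rh f U J P δ (f w) * ENNReal.ofReal ‖deriv f w‖ := by
  conv_lhs => unfold rh
  refine iSup_le fun k => iSup_le fun z => iSup_le fun hz => iSup_le fun hzw => ?_
  have hz' : z ∈ dm f U J δ (k + 1) := by
    refine ⟨fun j hj => ?_, ?_⟩
    · rcases Nat.lt_succ_iff_lt_or_eq.1 hj with h1 | h1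
      · exact hz.1 j h1
      · rw [h1, hzw]
        exact hw
    · rw [Function.iterate_succ_apply', hzw]
      exact hfw
  have hdd : deriv (f^[k + 1]) z = deriv f w * deriv (f^[k]) z := by
    have h1 := mr_itd h hz
    have h2 : HasDerivAt f (deriv f w) (f^[k] z) := by
      rw [hzw]
      exact ((h.fd w hw).differentiableAt (h.Uo.mem_nhds hw)).hasDerivAt
    rw [Function.iterate_succ']
    exact (h2.comp z h1).deriv
  have h1 : (ENNReal.ofReal (‖deriv (f^[k + 1]) z‖ * infDist z P))⁻¹ ≤ rh f U J P δ (f w) := by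
    unfold rh
    refine le_iSup_of_le (k + 1) (le_iSup_of_le z (le_iSup_of_le hz' (le_iSup_of_le ?_ le_rfl)))
    rw [Function.iterate_succ_apply', hzw]
  refine le_trans (le_of_eq ?_) (mul_le_mul_left h1 _)
  have hA : ENNReal.ofReal ‖deriv f w‖ ≠ 0 := by
    rw [ne_eq, ENNReal.ofReal_eq_zero, not_le]
    exact norm_pos_iff.2 hd
  have hprod : ENNReal.ofReal (‖deriv f w‖ * (‖deriv (f^[k]) z‖ * infDist z P))
      = ENNReal.ofReal ‖deriv f w‖ * ENNReal.ofReal (‖deriv (f^[k]) z‖ * infDist z P) :=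
    ENNReal.ofReal_mul (norm_nonneg _)
  rw [hdd, norm_mul, mul_assoc, hprod,
    ENNReal.mul_inv (Or.inl hA) (Or.inl ENNReal.ofReal_ne_top), mul_comm (ENNReal.ofReal ‖deriv f w‖)⁻¹,
    mul_assoc, ENNReal.inv_mul_cancel hA ENNReal.ofReal_ne_top, mul_one]

/-- THE SETTING `HY` IN A FRAME -/
theorem hy_fr (h : FR f U J P δ) {L : Set ℂ} (hL : IsCompact L) (hn : L.Nonempty) (hLP : L ⊆ P)
    (hLf : ∀ z ∈ L, f z ∈ L) (hP : ∀ z ∈ L, connectedComponentIn P z = {z}) (hd : ∀ z ∈ L, deriv f z ≠ 0)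
    {r1 : ℝ} (hr1 : 0 < r1) (hesc : ∀ r : ℝ, 0 < r → r ≤ r1 → nb L r ⊆ U → nb L r ⊆ thickening δ J → ∀ O : Set ℂ,
      IsOpen O → O.Nonempty → ∃ j : ℕ, ∃ w ∈ O, f^[j] w ∉ nb L r) :
    ∃ δ₀ δ₁ : ℝ, HY f P L (rh f U J P δ) δ₀ δ₁ := by
  have hPc : IsCompact P := h.Pc
  have hLJ : L ⊆ J := hLP.trans h.PJ
  obtain ⟨r0, hr0, hunif⟩ := mr_unif h.Uo h.fd hL (hLP.trans h.PU) hd h.hδ
  obtain ⟨r, hr, hrr0, hrr1, hrδ⟩ : ∃ r : ℝ, 0 < r ∧ r ≤ r0 ∧ r ≤ r1 ∧ r ≤ δ :=
    ⟨min r0 (min r1 δ), lt_min hr0 (lt_min hr1 h.hδ), min_le_left _ _,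
      (min_le_right _ _).trans (min_le_left _ _), (min_le_right _ _).trans (min_le_right _ _)⟩
  obtain ⟨s, hs, hsr, hloc⟩ := hunif r hr hrr0
  have hnbU : nb L r ⊆ U := iUnion₂_subset fun z hz => (hloc z hz).1
  have hnbJ : nb L r ⊆ thickening δ J := by
    refine iUnion₂_subset fun z hz w hw => mem_thickening_iff.2 ⟨z, hLJ hz, ?_⟩
    exact (mem_ball.1 hw).trans_le hrδ
  have hnbf : ∀ w ∈ nb L r, f w ∈ thickening δ J := by
    intro w hw
    obtain ⟨z, hz, hwz⟩ := mem_iUnion₂.1 hw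
    exact mem_thickening_iff.2 ⟨f z, hLJ (hLf z hz), (hloc z hz).2.1 w hwz⟩
  have hnbd : ∀ w ∈ nb L r, deriv f w ≠ 0 := by
    intro w hw
    obtain ⟨z, hz, hwz⟩ := mem_iUnion₂.1 hw
    exact (hloc z hz).2.2.2.1 w hwz
  refine ⟨r, s, ?_⟩
  exact
    { hδ₁ := hs
      hδ := hsr
      Pc := hPc.isClosed
      Lc := hL
      Ln := hn
      LP := hLP
      Lf := hLf
      Pf := fun z hz _ => h.Pf z hz
      fd := h.fd.mono hnbU
      inj := fun z hz => (hloc z hz).2.2.1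
      br := fun z hz => (hloc z hz).2.2.2.2
      col := fun z hz κ hκ => mr_col hPc (hLP hz) (hP z hz) hκ
      met :=
        { lo := fun w hw => rh_lo (hnbJ hw)
          up := fun w d hd hw hwP => rh_up h hd (hw.trans hnbJ) hwP }
      ct := fun w hw => rh_ct h (hnbU hw) (hnbf w hw) (hnbd w hw)
      esc := hesc r hr hrr1 hnbU hnbJ }

/-- the frame of `PS` -/
theorem fr_ps (h : PS f U J P Cr δ η ρ) : FR f U J P δ where
  hδ := h.hδ
  Uo := h.Uo
  fd := h.fd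
  Pc := h.Jc.of_isClosed_subset h.Pc h.PJ
  Pn := h.Pn
  PJ := h.PJ
  PU := h.PJ.trans h.JU
  Pf := h.Pf
  br := fun _ _ _ _ hJ hP hz hw => br_ball h hJ hP hz hw

/-- THE SETTING `HY` FROM `PS` -/
theorem hy_ps (h : PS f U J P Cr δ η ρ)
    (hesc : ∀ z ∈ thickening δ J, z ∉ J → ∃ k : ℕ, z ∉ dm f U J δ k)
    {L : Set ℂ} (hL : IsCompact L) (hn : L.Nonempty) (hLP : L ⊆ P) (hLf : ∀ z ∈ L, f z ∈ L)
    (hP : ∀ z ∈ L, connectedComponentIn P z = {z}) (hLc : ∀ z ∈ L, z ∉ Cr) :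
    ∃ δ₀ δ₁ : ℝ, HY f P L (rh f U J P δ) δ₀ δ₁ := by
  have hPc : IsCompact P := h.Jc.of_isClosed_subset h.Pc h.PJ
  have hLJ : L ⊆ J := hLP.trans h.PJ
  obtain ⟨a, ha, b, hb, hab⟩ := h.Jt
  obtain ⟨r1, hr1, hcomp⟩ := mr_comp hPc hP hL hLP (dist_pos.2 hab)
  obtain ⟨δ1, hδ1, -, hloc⟩ := h.loc
  refine hy_fr (fr_ps h) hL hn hLP hLf hP (fun z hz => ?_) hr1 ?_
  · have hzU := h.JU (hLJ hz)
    exact mr_der hδ1 ((h.fd z hzU).differentiableAt (h.Uo.mem_nhds hzU))
      (hloc (f z) (h.Jf z (hLJ hz)) z hzU (mem_ball_self hδ1)) h.nf (hLc z hz)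
  · intro r hr hrr1 hnbU hnbJ O hO hOn
    by_contra hcon
    push Not at hcon
    by_cases hOJ : (O ∩ J).Nonempty
    · obtain ⟨x, hxO, hxJ⟩ := hOJ
      obtain ⟨t, ht, htO⟩ := Metric.isOpen_iff.1 hO x hxO
      obtain ⟨N, hN⟩ := h.leo (ball x t) isOpen_ball ⟨x, mem_ball_self ht, hxJ⟩
      have hJ := hN N le_rfl
      have hc : ∀ n : ℕ, ContinuousOn (f^[n]) (ball x t) := by
        intro n
        induction n with
        | zero => exact continuousOn_id
        | succ n ih =>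
          rw [Function.iterate_succ']
          exact (h.fd.continuousOn.mono hnbU).comp ih fun y hy => hcon n y (htO hy)
      have hpre : IsPreconnected (f^[N] '' ball x t) := (convex_ball x t).isPreconnected.image _ (hc N)
      have hsub : f^[N] '' ball x t ⊆ nb L r1 := by
        rintro _ ⟨y, hy, rfl⟩
        obtain ⟨z, hz, hyz⟩ := mem_iUnion₂.1 (hcon N y (htO hy))
        exact mem_iUnion₂.2 ⟨z, hz, ball_subset_ball hrr1 hyz⟩
      have himg : ∀ y ∈ J, y ∈ f^[N] '' ball x t := fun y hy => image_mono inter_subset_left (hJ hy)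
      exact lt_irrefl _ (hcomp _ hpre hsub a (himg a ha) b (himg b hb))
    · obtain ⟨x, hx⟩ := hOn
      have hxJ : x ∉ J := fun hxJ => hOJ ⟨x, hx, hxJ⟩
      have hx0 : x ∈ nb L r := hcon 0 x hx
      obtain ⟨k, hk⟩ := hesc x (hnbJ hx0) hxJ
      exact hk ⟨fun j _ => hnbU (hcon j x hx), hnbJ (hcon k x hx)⟩

end Pool.Agent.H56.TH
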