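import Pool.Agent.H66.IL.GTE
import Pool.Agent.H27.BR.PSA
import Pool.Agent.H56.TH.MR

/-!
# THEOREM H, module ME: the escape hypothesis of `hy_ps` in a chart

`ps_dn`: the planar setting with a smaller `δ`. `ga_esc`: for small `δ` every point of the `δ`-neighbourhood of the Julia set
which is not in the Julia set leaves it (it enters the trap of `gt_ex`). `ps_he`: both together.
-/

set_option autoImplicit false

open Filter Topology Polynomial Metric Set MeasureTheory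

namespace Pool.Agent.H56.TH

open Pool.Agent.H44.Fatou (rat rat_continuous rat_coe rat_coe_of_ne pt crit_coe)
open Pool.Agent.H32.BT Pool.Agent.H79.Eul Pool.Agent.H79.Par
open Pool.Agent.H35.EX Pool.Agent.H56.HR Pool.Agent.H44.RC Pool.Agent.H47.RJ
open Pool.Agent.H47.NN Pool.Agent.H44.ND Pool.Agent.H79.ES
open Pool.Agent.H64.NC Pool.Agent.H57.CP Pool.Agent.H3.NC
open Pool.Agent.H56.UD (dm PS)

theorem dm_dn {f : ℂ → ℂ} {U J : Set ℂ} {δ δ' : ℝ} (hle : δ' ≤ δ) (k : ℕ) : dm f U J δ' k ⊆ dm f U J δ k :=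
  fun _ hz => ⟨hz.1, thickening_mono hle _ hz.2⟩

/-- the planar setting with a smaller `δ` -/
theorem ps_dn {f : ℂ → ℂ} {U J P Cr : Set ℂ} {δ δ' : ℝ} {η : ℂ → ℂ → ℂ} {ρ : ℝ} (h : PS f U J P Cr δ η ρ)
    (h0 : 0 < δ') (hle : δ' ≤ δ) : PS f U J P Cr δ' η ρ where
  hδ := h0
  Uo := h.Uo
  fd := h.fd
  Jc := h.Jc
  Jt := h.Jt
  JU := h.JU
  Jf := h.Jf
  Jb := h.Jb
  Ji := h.Ji
  Pc := h.Pc
  Pn := h.Pn
  PJ := h.PJ
  Pf := h.Pf
  bd := by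
    obtain ⟨R0, hR⟩ := h.bd
    exact ⟨R0, fun k => (dm_dn hle k).trans (hR k)⟩
  lift := by
    intro k S H q z hS hSo hH hP hq hz he
    obtain ⟨G, h1, h2, h3⟩ := h.lift k S H q z hS hSo hH (fun u hu => ⟨thickening_mono hle _ (hP u hu).1, (hP u hu).2⟩) hq
      (dm_dn hle k hz) he
    refine ⟨G, h1, h2, fun u hu => ⟨⟨(h3 u hu).1.1, ?_⟩, (h3 u hu).2⟩⟩
    rw [(h3 u hu).2]
    exact (hP u hu).1
  leo := h.leo
  Cf := h.Cf
  CJ := h.CJ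
  CP := h.CP
  hρ := h.hρ
  nf := h.nf
  loc := by
    obtain ⟨δ1, hδ1, hδ, hl⟩ := h.loc
    refine ⟨min δ1 δ', lt_min hδ1 h0, min_le_right _ _, fun y hy z hz hfz => ?_⟩
    have hb : ball y (min δ1 δ') ⊆ ball y δ1 := ball_subset_ball (min_le_left _ _)
    rcases hl y hy z hz (hb hfz) with ⟨g, h1, h2, h3⟩ | ⟨c, h1, h2, h3⟩
    · exact Or.inl ⟨g, h1.mono hb, h2, fun u hu => h3 u (hb hu)⟩
    · exact Or.inr ⟨c, h1, hb.trans h2, h3⟩

variable {d : ℕ} {u : E d} {T : Set (OnePoint ℂ)}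

/-- the points outside the Julia set escape -/
theorem ga_esc (h : GA u T) : ∃ δ' : ℝ, 0 < δ' ∧ ∀ δ ≤ δ', ∀ z : ℂ, z ∉ JC u →
    ∃ k : ℕ, z ∉ dm (Pool.Agent.H61.TT.gg (pol u.1) (pol u.2)) {z | (pol u.2).eval z ≠ 0} (JC u) δ k := by
  obtain ⟨T', -, hT⟩ := Pool.Agent.H66.IL.gt_ex h
  have hTF : ∀ x ∈ T', x ∈ FS (Rf u) := fun x hx => hT.af x (hT.tr.att x hx)
  have hTc : IsClosed ((fun z : ℂ => (z : OnePoint ℂ)) ⁻¹' T') := hT.tr.closed.preimage OnePoint.continuous_coe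
  have hdis : Disjoint (JC u) ((fun z : ℂ => (z : OnePoint ℂ)) ⁻¹' T') := by
    rw [Set.disjoint_left]
    intro z h1 h2
    exact h1 (hTF _ h2)
  obtain ⟨δ', hδ, hδ1⟩ := hdis.exists_thickenings (Pool.Agent.H27.BR.jc_comp h) hTc
  refine ⟨δ', hδ, fun δ hle z hz => ?_⟩
  have hzF : (z : OnePoint ℂ) ∈ FS (Rf u) := not_not.1 hz
  obtain ⟨k, hk⟩ := hT.en _ hzF
  refine ⟨k, fun hd => ?_⟩
  have h3 : (Rf u)^[k] (z : OnePoint ℂ) = (((Pool.Agent.H61.TT.gg (pol u.1) (pol u.2))^[k] z : ℂ) : OnePoint ℂ) :=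
    rat_it hd.1 k le_rfl
  rw [h3] at hk
  exact Set.disjoint_left.1 hδ1 (thickening_mono hle _ hd.2) (self_subset_thickening hδ _ hk)

/-- the planar setting with the escape hypothesis -/
theorem ps_he (h : GA u T) {P Cr : Set ℂ} {δ : ℝ} {η : ℂ → ℂ → ℂ} {ρ : ℝ}
    (hS : PS (Pool.Agent.H61.TT.gg (pol u.1) (pol u.2)) {z | (pol u.2).eval z ≠ 0} (JC u) P Cr δ η ρ) :
    ∃ δ' : ℝ, PS (Pool.Agent.H61.TT.gg (pol u.1) (pol u.2)) {z | (pol u.2).eval z ≠ 0} (JC u) P Cr δ' η ρ ∧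
      ∀ z ∈ thickening δ' (JC u), z ∉ JC u →
        ∃ k : ℕ, z ∉ dm (Pool.Agent.H61.TT.gg (pol u.1) (pol u.2)) {z | (pol u.2).eval z ≠ 0} (JC u) δ' k := by
  obtain ⟨δ', h0, h1⟩ := ga_esc h
  exact ⟨min δ δ', ps_dn hS (lt_min hS.hδ h0) (min_le_left _ _), fun z _ hz => h1 _ (min_le_right _ _) z hz⟩

end Pool.Agent.H56.TH
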