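import Pool.Agent.H56.TH.S1

/-!
# Module S2: THEOREM H

PROOFS. `br_all`: `R = δ₁ / 2`, `Λ` of `st_all`, `ε₁ = R δ₁ / δ₀` (Schwarz: the branch `g` of `HY.br` maps `ball (f z) δ₁` into
`ball z δ₀`, `g (f z) = z`, so `dist (g u) z ≤ (δ₀ / δ₁) dist u (f z)`, `g '' ball (f z) ε₁ ⊆ ball z R`), `i₁` of `st_small` for `ε₁`, `r` of
`st_all` for `i₁`. Claim for all `m`, `z ∈ L`: there are `V` with `St (i₁ + m) Λ z V` and `G` holomorphic on `ball (f^[m] z) r`,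
`G (f^[m] z) = z`, `G u ∈ V`, `f^[m] (G u) = u`. `m = 0`: `G = id`. Step: `V, G` at `f z`; `V ⊆ ball (f z) ε₁`, so
`V₁ = ball z δ₀ ∩ f ⁻¹' V ⊆ ball z R` (a point `w` of it is `g (f w)`) and `V₁` is a stage (`pull`); `g ∘ G`.
By `st_small`: for `m` large `V ⊆ ball z ε`.
`expand`: Schwarz: `‖deriv G (f^[m] z)‖ ≤ ε / r`, and `deriv f^[m] z * deriv G (f^[m] z) = 1` (`f^[m]` is differentiable at `z`: its orbit
is in `L`, `f` is differentiable on the open set `nb L δ₀`).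
-/

set_option autoImplicit false

open Filter Topology Metric Set MeasureTheory
open scoped MeasureTheory

namespace Pool.Agent.H56.TH

private theorem chain {f : ℂ → ℂ} {P L : Set ℂ} {ρ : ℂ → ENNReal} {δ₀ δ₁ : ℝ} (hY : HY f P L ρ δ₀ δ₁)
    {R : ℝ} (hR : 0 < R) (hR' : R < δ₁) {Λ : ENNReal} {i₁ : ℕ} {r : ℝ}
    (h0 : ∀ z ∈ L, ∃ V : Set ℂ, St f P L ρ δ₀ R i₁ Λ z V ∧ ball z r ⊆ V)
    (h1 : ∀ i ≥ i₁, ∀ z ∈ L, ∀ V : Set ℂ, St f P L ρ δ₀ R i Λ z V → V ⊆ ball z (R * δ₁ / δ₀)) :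
    ∀ m : ℕ, ∀ z ∈ L, ∃ (V : Set ℂ) (G : ℂ → ℂ), St f P L ρ δ₀ R (i₁ + m) Λ z V ∧
      DifferentiableOn ℂ G (ball (f^[m] z) r) ∧ G (f^[m] z) = z ∧
        ∀ u ∈ ball (f^[m] z) r, G u ∈ V ∧ f^[m] (G u) = u := by
  have hδ₁ := hY.hδ₁
  have hδ₀ : 0 < δ₀ := lt_of_lt_of_le hY.hδ₁ hY.hδ
  intro m
  induction m with
  | zero =>
    intro z hz
    obtain ⟨V, hV, hVr⟩ := h0 z hz
    exact ⟨V, id, hV, differentiableOn_id, rfl, fun u hu => ⟨hVr hu, rfl⟩⟩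
  | succ m ih =>
    intro z hz
    obtain ⟨V, G, hV, hGd, hGz, hG⟩ := ih (f z) (hY.Lf z hz)
    have hV1 := h1 (i₁ + m) (Nat.le_add_right _ _) (f z) (hY.Lf z hz) V hV
    obtain ⟨hp1, hp2, hp3⟩ := pull hY hz hV.wn hV.mem hR' hV.sub
    obtain ⟨g, hgd, hgz, hg⟩ := hY.br z hz
    have hVδ : V ⊆ ball (f z) δ₁ := hV.sub.trans (ball_subset_ball hR'.le)
    have hst : St f P L ρ δ₀ R (i₁ + (m + 1)) Λ z (ball z δ₀ ∩ f ⁻¹' V) := by
      refine ⟨hp1, hp2, ?_, ?_, hp3.trans hV.len⟩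
      · rintro w ⟨hw1, hw2⟩
        have hw3 : f w ∈ V := hw2
        have hw4 : f w ∈ ball (f z) δ₁ := hVδ hw3
        have hw5 : g (f w) = w := hY.inj z hz (hg _ hw4).1 hw1 (hg _ hw4).2
        have hmaps : MapsTo g (ball (f z) δ₁) (closedBall (g (f z)) δ₀) := by
          intro u hu
          rw [hgz]
          exact ball_subset_closedBall (hg u hu).1
        have hsch := Complex.dist_le_div_mul_dist_of_mapsTo_ball hgd hmaps hw4
        rw [hw5, hgz] at hsch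
        have hw6 : dist (f w) (f z) < R * δ₁ / δ₀ := hV1 hw3
        rw [mem_ball]
        refine lt_of_le_of_lt hsch ?_
        have h7 : δ₀ / δ₁ * dist (f w) (f z) < δ₀ / δ₁ * (R * δ₁ / δ₀) :=
          mul_lt_mul_of_pos_left hw6 (by positivity)
        refine lt_of_lt_of_eq h7 ?_
        field_simp
      · intro j hj w hw
        rcases j with _ | j
        · exact mem_iUnion₂.2 ⟨z, hz, hw.1⟩
        · rw [Function.iterate_succ_apply]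
          exact hV.stay j (by omega) (f w) hw.2
    refine ⟨ball z δ₀ ∩ f ⁻¹' V, fun u => g (G u), hst, ?_, ?_, ?_⟩
    · rw [Function.iterate_succ_apply]
      exact hgd.comp hGd fun u hu => hVδ (hG u hu).1
    · show g (G (f^[m + 1] z)) = z
      rw [Function.iterate_succ_apply, hGz, hgz]
    · intro u hu
      rw [Function.iterate_succ_apply] at hu
      obtain ⟨h3, h4⟩ := hG u hu
      obtain ⟨h5, h6⟩ := hg (G u) (hVδ h3)
      refine ⟨⟨h5, ?_⟩, ?_⟩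
      · show f (g (G u)) ∈ V
        rw [h6]
        exact h3
      · show f^[m + 1] (g (G u)) = u
        rw [Function.iterate_succ_apply, h6, h4]

/-- THEOREM H, branches -/
theorem br_all {f : ℂ → ℂ} {P L : Set ℂ} {ρ : ℂ → ENNReal} {δ₀ δ₁ : ℝ} (hY : HY f P L ρ δ₀ δ₁) :
    ∃ r : ℝ, 0 < r ∧ ∀ ε : ℝ, 0 < ε → ∃ m₀ : ℕ, ∀ m ≥ m₀, ∀ z ∈ L, ∃ G : ℂ → ℂ,
      DifferentiableOn ℂ G (ball (f^[m] z) r) ∧ G (f^[m] z) = z ∧
        ∀ u ∈ ball (f^[m] z) r, G u ∈ ball z ε ∧ f^[m] (G u) = u ∧ ∀ j ≤ m, f^[j] (G u) ∈ nb L δ₀ := by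
  have hδ₁ := hY.hδ₁
  have hδ₀ : 0 < δ₀ := lt_of_lt_of_le hY.hδ₁ hY.hδ
  have hR : 0 < δ₁ / 2 := by positivity
  have hR' : δ₁ / 2 < δ₁ := by linarith
  obtain ⟨Λ, hΛ, hst⟩ := st_all hY hR hR'
  obtain ⟨i₁, hi₁⟩ := st_small hY hR hR' hΛ (ε := δ₁ / 2 * δ₁ / δ₀) (by positivity)
  obtain ⟨r, hr, h0⟩ := hst i₁
  refine ⟨r, hr, fun ε hε => ?_⟩
  obtain ⟨i₂, hi₂⟩ := st_small hY hR hR' hΛ hε
  refine ⟨i₂, fun m hm z hz => ?_⟩
  obtain ⟨V, G, hV, hGd, hGz, hG⟩ := chain hY hR hR' h0 hi₁ m z hz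
  refine ⟨G, hGd, hGz, fun u hu => ⟨?_, (hG u hu).2, fun j hj => ?_⟩⟩
  · exact hi₂ (i₁ + m) (by omega) z hz V hV (hG u hu).1
  · exact hV.stay j (by omega) (G u) (hG u hu).1

/-- THEOREM H, expansion -/
theorem expand {f : ℂ → ℂ} {P L : Set ℂ} {ρ : ℂ → ENNReal} {δ₀ δ₁ : ℝ} (hY : HY f P L ρ δ₀ δ₁) (M : ℝ) :
    ∃ m₀ : ℕ, ∀ m ≥ m₀, ∀ z ∈ L, M ≤ ‖deriv f^[m] z‖ := by
  have hδ₀ : 0 < δ₀ := lt_of_lt_of_le hY.hδ₁ hY.hδ
  obtain ⟨r, hr, hbr⟩ := br_all hY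
  have hM : 0 < |M| + 1 := by positivity
  obtain ⟨m₀, hm₀⟩ := hbr (r / (|M| + 1)) (by positivity)
  refine ⟨m₀, fun m hm z hz => ?_⟩
  obtain ⟨G, hGd, hGz, hG⟩ := hm₀ m hm z hz
  have hop : IsOpen (nb L δ₀) := isOpen_biUnion fun z _ => isOpen_ball
  have hfd : ∀ w ∈ L, DifferentiableAt ℂ f w := fun w hw =>
    hY.fd.differentiableAt (hop.mem_nhds (mem_iUnion₂.2 ⟨w, hw, mem_ball_self hδ₀⟩))
  have hit : ∀ n : ℕ, ∀ w ∈ L, DifferentiableAt ℂ f^[n] w := by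
    intro n
    induction n with
    | zero => exact fun w _ => differentiableAt_id
    | succ n ih =>
      intro w hw
      rw [Function.iterate_succ]
      exact (ih (f w) (hY.Lf w hw)).comp w (hfd w hw)
  have hmaps : MapsTo G (ball (f^[m] z) r) (closedBall (G (f^[m] z)) (r / (|M| + 1))) := by
    intro u hu
    rw [hGz]
    exact ball_subset_closedBall (hG u hu).1
  have hsch := Complex.norm_deriv_le_div_of_mapsTo_ball hGd hmaps hr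
  have hGdiff : HasDerivAt G (deriv G (f^[m] z)) (f^[m] z) :=
    (hGd.differentiableAt (isOpen_ball.mem_nhds (mem_ball_self hr))).hasDerivAt
  have hfdiff : HasDerivAt f^[m] (deriv f^[m] z) (G (f^[m] z)) := by
    rw [hGz]
    exact (hit m z hz).hasDerivAt
  have hcomp : HasDerivAt (fun u => f^[m] (G u)) (deriv f^[m] z * deriv G (f^[m] z)) (f^[m] z) :=
    hfdiff.comp (f^[m] z) hGdiff
  have hev : (fun u => f^[m] (G u)) =ᶠ[𝓝 (f^[m] z)] fun u => u := by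
    filter_upwards [isOpen_ball.mem_nhds (mem_ball_self (x := f^[m] z) hr)] with u hu
    exact (hG u hu).2.1
  have hone : deriv f^[m] z * deriv G (f^[m] z) = 1 :=
    hcomp.unique ((hasDerivAt_id (f^[m] z)).congr_of_eventuallyEq hev)
  have h1 : ‖deriv f^[m] z‖ * ‖deriv G (f^[m] z)‖ = 1 := by
    rw [← norm_mul, hone, norm_one]
  have h2 : r / (|M| + 1) / r = 1 / (|M| + 1) := by
    field_simp
  rw [h2] at hsch
  have h3 : 1 ≤ ‖deriv f^[m] z‖ * (1 / (|M| + 1)) := by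
    refine h1.symm.le.trans ?_
    exact mul_le_mul_of_nonneg_left hsch (norm_nonneg _)
  have h4 : |M| + 1 ≤ ‖deriv f^[m] z‖ := by
    rw [mul_one_div, le_div_iff₀ hM, one_mul] at h3
    exact h3
  linarith [le_abs_self M]

end Pool.Agent.H56.TH
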