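import Pool.Agent.H56.TH.MR
import Pool.Agent.H78.UX.DA

/-!
# THEOREM H, module MS: the setting `HY` from the planar setting `SS` (Julia set = sphere)

`fr_ss`: the frame of `SS` (`J := P`). `hy_ss`: the setting `HY`.
-/

set_option autoImplicit false

open Filter Topology Metric Set MeasureTheory
open scoped MeasureTheory

namespace Pool.Agent.H56.TH

open Pool.Agent.H56.UD Pool.Agent.H78.UX

variable {f : ℂ → ℂ} {U P Cr : Set ℂ} {δ : ℝ} {η : ℂ → ℂ → ℂ} {ρ : ℝ}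

/-- the frame of `SS` -/
theorem fr_ss (h : SS f U P Cr δ η ρ) : FR f U P P δ where
  hδ := h.hδ
  Uo := h.Uo
  fd := h.fd
  Pc := h.Pc
  Pn := h.Pn
  PJ := Subset.rfl
  PU := h.PU
  Pf := h.Pf
  br := fun _ _ _ _ hJ hP hz hw => Pool.Agent.H78.UX.br_ball h hJ hP hz hw

/-- THE SETTING `HY` FROM `SS` -/
theorem hy_ss (h : SS f U P Cr δ η ρ) {L : Set ℂ} (hL : IsCompact L) (hn : L.Nonempty) (hLP : L ⊆ P)
    (hLf : ∀ z ∈ L, f z ∈ L) (hP : ∀ z ∈ L, connectedComponentIn P z = {z}) (hLc : ∀ z ∈ L, z ∉ Cr) :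
    ∃ δ₀ δ₁ : ℝ, HY f P L (rh f U P P δ) δ₀ δ₁ := by
  obtain ⟨δ1, hδ1, -, hloc⟩ := h.loc
  refine hy_fr (fr_ss h) hL hn hLP hLf hP (fun z hz => ?_) one_pos ?_
  · have hzU := h.PU (hLP hz)
    exact mr_der hδ1 ((h.fd z hzU).differentiableAt (h.Uo.mem_nhds hzU))
      (hloc (f z) (h.Pf z (hLP hz)) z hzU (mem_ball_self hδ1)) h.nf (hLc z hz)
  · intro r hr hr1 _ _ O hO hOn
    obtain ⟨R, hR⟩ := hL.isBounded.exists_norm_le
    obtain ⟨z0, hz0⟩ := hn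
    have hR0 : 0 ≤ R := (norm_nonneg _).trans (hR z0 hz0)
    obtain ⟨N, hN⟩ := h.leo O hO hOn (R + 2)
    have h1 : ((R + 1 : ℝ) : ℂ) ∈ ball (0 : ℂ) (R + 2) := by
      rw [mem_ball_zero_iff, Complex.norm_real, Real.norm_of_nonneg (by positivity)]
      linarith
    obtain ⟨w, hw, hwe⟩ := hN N le_rfl h1
    refine ⟨N, w, hw.1, fun hcon => ?_⟩
    rw [hwe] at hcon
    obtain ⟨z, hz, hzr⟩ := mem_iUnion₂.1 hcon
    have h2 := hR z hz
    have h3 : ‖((R + 1 : ℝ) : ℂ)‖ = R + 1 := by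
      rw [Complex.norm_real, Real.norm_of_nonneg (by positivity)]
    rw [mem_ball, dist_eq_norm] at hzr
    have h4 := norm_sub_norm_le ((R + 1 : ℝ) : ℂ) z
    linarith

end Pool.Agent.H56.TH
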