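import Pool.Agent.H56.TH.Defs

/-!
# Module HB: projection to the line

PROOF. `lint_lip`: for measurable `B ⊆ ℝ`: `volume (B ∩ T) ≤ volume (φ '' (S ∩ φ ⁻¹' B)) ≤ μH[1] (S ∩ φ ⁻¹' B)` (`μH[1] = volume`
on `ℝ`: `MeasureTheory.hausdorffMeasure_real`; `LipschitzWith.hausdorffMeasure_image_le` with constant `1`). So
`volume.restrict T ≤ Measure.map φ (μH[1].restrict S)` and `lintegral_mono'`, `lintegral_map` (`F`, `φ` measurable).
`lint_dist`: special case `φ w = dist w b`, `T = Ioo 0 r`, `F` constant: if every circle `sphere b s`, `0 < s < r`, meets `S` and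
`ρ ≥ c` on `S` then `c r ≤ ∫⁻ w in S, ρ w`.
-/

set_option autoImplicit false

open Filter Topology Metric Set MeasureTheory
open scoped MeasureTheory

namespace Pool.Agent.H56.TH

theorem lint_lip {φ : ℂ → ℝ} (hφ : LipschitzWith 1 φ) {S : Set ℂ} (hS : MeasurableSet S) {T : Set ℝ}
    (hT : T ⊆ φ '' S) {F : ℝ → ENNReal} (hF : Measurable F) :
    ∫⁻ t in T, F t ≤ ∫⁻ w in S, F (φ w) ∂(μH[1] : Measure ℂ) := by
  have hφm : Measurable φ := hφ.continuous.measurable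
  have hle : (volume : Measure ℝ).restrict T ≤ Measure.map φ ((μH[1] : Measure ℂ).restrict S) := by
    refine Measure.le_iff.2 fun B hB => ?_
    rw [Measure.restrict_apply hB, Measure.map_apply hφm hB, Measure.restrict_apply (hφm hB)]
    have h1 : B ∩ T ⊆ φ '' (φ ⁻¹' B ∩ S) := by
      rintro t ⟨htB, htT⟩
      obtain ⟨w, hwS, hw⟩ := hT htT
      exact ⟨w, ⟨by simpa [hw] using htB, hwS⟩, hw⟩
    calc volume (B ∩ T) ≤ volume (φ '' (φ ⁻¹' B ∩ S)) := measure_mono h1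
      _ = (μH[1] : Measure ℝ) (φ '' (φ ⁻¹' B ∩ S)) := by rw [hausdorffMeasure_real]
      _ ≤ ((1 : NNReal) : ENNReal) ^ (1 : ℝ) * (μH[1] : Measure ℂ) (φ ⁻¹' B ∩ S) :=
          hφ.hausdorffMeasure_image_le zero_le_one _
      _ = (μH[1] : Measure ℂ) (φ ⁻¹' B ∩ S) := by simp
  calc ∫⁻ t in T, F t ≤ ∫⁻ t, F t ∂(Measure.map φ ((μH[1] : Measure ℂ).restrict S)) :=
        lintegral_mono' hle le_rfl
    _ = ∫⁻ w in S, F (φ w) ∂(μH[1] : Measure ℂ) := lintegral_map hF hφm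

theorem lint_dist {S : Set ℂ} (hS : MeasurableSet S) {b : ℂ} {r c : ℝ} (hc : 0 ≤ c)
    (h : ∀ s : ℝ, 0 < s → s < r → (sphere b s ∩ S).Nonempty) {ρ : ℂ → ENNReal}
    (hρ : ∀ w ∈ S, ENNReal.ofReal c ≤ ρ w) :
    ENNReal.ofReal (c * r) ≤ ∫⁻ w in S, ρ w ∂(μH[1] : Measure ℂ) := by
  have hT : Ioo (0 : ℝ) r ⊆ (fun w : ℂ => dist w b) '' S := by
    rintro s ⟨hs0, hsr⟩
    obtain ⟨w, hw1, hw2⟩ := h s hs0 hsr
    exact ⟨w, hw2, mem_sphere.1 hw1⟩
  have h1 := lint_lip (LipschitzWith.dist_left b) hS hT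
    (measurable_const : Measurable (fun _ : ℝ => ENNReal.ofReal c))
  rw [setLIntegral_const, Real.volume_Ioo, sub_zero, ← ENNReal.ofReal_mul hc] at h1
  exact h1.trans (setLIntegral_mono' hS hρ)

end Pool.Agent.H56.TH
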