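import Pool.Agent.H56.TH.TC
import Pool.Agent.H56.TH.HB

/-!
# Module TH: windows with short boundary are thick

PROOFS. `thick`: let `t = dist b z > 0` (`z ∈ P`, `b ∉ P` by `Wn.fr`) and `D = dist y y' / 2`. For `0 < s < D` the circle
`sphere b s` meets `frontier V` (`circle_far`), so `T = Ioo 0 D ⊆ φ '' frontier V`, `φ w = dist w b` (1-Lipschitz). For
`w ∈ frontier V`: `infDist w P ≤ dist w z ≤ φ w + t`, `0 < infDist w P` (`P` closed, `w ∉ P`), so
`ρ w ≥ ofReal (1 / infDist w P) ≥ ofReal (1 / (φ w + t))` (`Mt.lo`). `lint_lip` with `F s = ofReal (1 / (s + t))`: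
`ofReal Λ ≥ len ρ V ≥ ∫⁻ s in Ioo 0 D, ofReal (1 / (s + t)) = ofReal (log ((D + t) / t))`. So `log ((D + t) / t) ≤ max Λ 0`; for
`Λ ≥ 0` (if `D > 0` then `log > 0` forces `Λ > 0`; if `D = 0` the claim is trivial): `D + t ≤ exp Λ t`,
`dist y y' = 2 D ≤ 2 exp Λ t`.
`thick_ball`: every `b' ∈ frontier V` has `dist b' z ≥ dist y y' / (2 exp Λ)`; `near_fr`.
-/

set_option autoImplicit false

open Filter Topology Metric Set MeasureTheory
open scoped MeasureTheory

namespace Pool.Agent.H56.TH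

theorem thick {P V O : Set ℂ} {ρ : ℂ → ENNReal} (hM : Mt ρ P O) (hP : IsClosed P) (hV : Wn P V)
    (hVO : frontier V ⊆ O) {z : ℂ} (hz : z ∈ P) {Λ : ℝ} (hl : len ρ V ≤ ENNReal.ofReal Λ) {y y' : ℂ} (hy : y ∈ V)
    (hy' : y' ∈ V) {b : ℂ} (hb : b ∈ frontier V) : dist y y' ≤ 2 * Real.exp Λ * dist b z := by
  have hbP : b ∉ P := fun h => disjoint_left.1 hV.fr hb h
  have ht : 0 < dist b z := dist_pos.2 (fun h => hbP (h ▸ hz))
  set t := dist b z with htdef
  rcases (dist_nonneg (x := y) (y := y')).eq_or_lt with h0 | hD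
  · rw [← h0]
    positivity
  set D := dist y y' / 2 with hDdef
  have hD0 : 0 < D := by positivity
  have hL : LipschitzWith 1 (fun w : ℂ => dist w b) := LipschitzWith.dist_left b
  have hT : Ioo 0 D ⊆ (fun w : ℂ => dist w b) '' frontier V := by
    intro s hs
    obtain ⟨w, hw1, hw2⟩ := circle_far hV.op hV.co hV.fu hb hy hy' hs.1 (by
      have := hs.2
      rw [hDdef] at this
      linarith)
    exact ⟨w, hw2, hw1⟩
  have hF : Measurable fun s : ℝ => ENNReal.ofReal (1 / (s + t)) := by fun_prop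
  have h1 := lint_lip hL isClosed_frontier.measurableSet hT hF
  have h2 : ∫⁻ w in frontier V, ENNReal.ofReal (1 / (dist w b + t)) ∂(μH[1] : Measure ℂ) ≤ len ρ V := by
    refine setLIntegral_mono' isClosed_frontier.measurableSet ?_
    intro w hw
    refine le_trans (ENNReal.ofReal_le_ofReal ?_) (hM.lo w (hVO hw))
    have hwP : w ∉ P := fun hp => disjoint_left.1 hV.fr hw hp
    have h3 : 0 < infDist w P := (hP.notMem_iff_infDist_pos ⟨z, hz⟩).1 hwP
    have h4 : infDist w P ≤ dist w z := infDist_le_dist_of_mem hz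
    have h5 : dist w z ≤ dist w b + dist b z := dist_triangle _ _ _
    exact one_div_le_one_div_of_le h3 (by linarith)
  have h3 : ENNReal.ofReal (Real.log ((D + t) / t)) ≤ ENNReal.ofReal Λ := by
    refine le_trans ?_ (h1.trans (h2.trans hl))
    have hcont : ContinuousOn (fun s : ℝ => 1 / (s + t)) (Icc 0 D) := by
      refine continuousOn_const.div (by fun_prop) ?_
      intro s hs
      have := hs.1
      positivity
    have hint : IntegrableOn (fun s : ℝ => 1 / (s + t)) (Ioo 0 D) :=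
      (hcont.integrableOn_Icc).mono_set Ioo_subset_Icc_self
    have h4 : ∫⁻ s in Ioo 0 D, ENNReal.ofReal (1 / (s + t)) = ENNReal.ofReal (∫ s in Ioo 0 D, 1 / (s + t)) := by
      rw [ofReal_integral_eq_lintegral_ofReal hint]
      refine (ae_restrict_iff' measurableSet_Ioo).2 (Eventually.of_forall fun s hs => ?_)
      have := hs.1
      show (0:ℝ) ≤ 1 / (s + t)
      positivity
    rw [h4]
    apply ENNReal.ofReal_le_ofReal
    rw [← integral_Ioc_eq_integral_Ioo, ← intervalIntegral.integral_of_le hD0.le,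
      intervalIntegral.integral_comp_add_right (fun s : ℝ => 1 / s) t,
      integral_one_div_of_pos (by linarith) (by linarith), zero_add]
  have hlog : 0 < Real.log ((D + t) / t) := by
    apply Real.log_pos
    rw [lt_div_iff₀ ht]
    linarith
  have h4 : Real.log ((D + t) / t) ≤ Λ := by
    rcases ENNReal.ofReal_le_ofReal_iff'.1 h3 with h | h
    · exact h
    · linarith
  have h5 : (D + t) / t ≤ Real.exp Λ := by
    rw [← Real.log_le_iff_le_exp (by positivity)]
    exact h4
  rw [div_le_iff₀ ht] at h5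
  have h6 : dist y y' = 2 * D := by
    rw [hDdef]
    ring
  rw [h6]
  nlinarith

theorem thick_ball {P V O : Set ℂ} {ρ : ℂ → ENNReal} (hM : Mt ρ P O) (hP : IsClosed P) (hV : Wn P V)
    (hVO : frontier V ⊆ O) {z : ℂ} (hz : z ∈ P) (hzV : z ∈ V) {Λ : ℝ} (hl : len ρ V ≤ ENNReal.ofReal Λ) {y y' : ℂ}
    (hy : y ∈ V) (hy' : y' ∈ V) : ball z (dist y y' / (2 * Real.exp Λ)) ⊆ V := by
  refine near_fr hV.op hzV ?_
  intro b hb
  have h := thick hM hP hV hVO hz hl hy hy' hb
  rw [div_le_iff₀ (by positivity), dist_comm z b, mul_comm]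
  exact h

end Pool.Agent.H56.TH
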