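import Pool.Agent.H56.TH.Defs

/-!
# Module HC: a grid with little length in a set of small area

PROOF. For `a ∈ [0, h)` the measure `μH[1] ({re ∈ a + h ℤ} ∩ A)` is at most `∑' k : ℤ, volume {y | (a + k h) + y I ∈ A}`
(countable union of the images of the sections under the isometries `y ↦ (a + k h) + y I`; `μH[1] = volume` on `ℝ`). The integral
of the sum over `a ∈ [0, h)` is `volume A` (Tonelli, `Complex.volume_preserving_equiv_real_prod`, and
`∫⁻ a in Ico 0 h, ∑' k, m (a + k h) = ∫⁻ t, m t`: disjoint union of the intervals `[k h, (k+1) h)`, translation invariance; or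
`MeasureTheory.IsAddFundamentalDomain`). So some `a` has value `≤ volume A / h` (otherwise the integral is larger; the set
`Ico 0 h` has measure `h`, and `volume A` is finite). The same for `b` with the imaginary part. Sum.
-/

set_option autoImplicit false

open Filter Topology Metric Set MeasureTheory
open scoped MeasureTheory

namespace Pool.Agent.H56.TH

private theorem line_shift {B : Set (ℝ × ℝ)} (hB : MeasurableSet B) {h : ℝ} (hh : 0 < h) :
    ∃ a : ℝ, ∑' k : ℤ, volume {y : ℝ | (a + k * h, y) ∈ B} ≤ volume B / ENNReal.ofReal h := by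
  obtain ⟨m, hm⟩ : ∃ m : ℝ → ENNReal, m = fun t => volume (Prod.mk t ⁻¹' B) := ⟨_, rfl⟩
  have hmm : Measurable m := by
    rw [hm]
    exact measurable_measure_prodMk_left hB
  have hint : ∫⁻ t, m t = volume B := by
    rw [Measure.volume_eq_prod, Measure.prod_apply hB, hm]
  have hFm : Measurable fun a : ℝ => ∑' k : ℤ, m (a + k * h) :=
    Measurable.tsum fun k => hmm.comp (measurable_id.add_const _)
  have hsum : ∫⁻ a in Ico 0 h, ∑' k : ℤ, m (a + k * h) = volume B := by
    have h0 : ∫⁻ a in Ico 0 h, ∑' k : ℤ, m (a + k * h) =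
        ∑' k : ℤ, ∫⁻ a in Ico 0 h, m (a + k * h) :=
      lintegral_tsum (f := fun (k : ℤ) (a : ℝ) => m (a + k * h)) fun k =>
        (hmm.comp (measurable_id.add_const _)).aemeasurable
    rw [h0, ← hint]
    have h1 : ∫⁻ t, m t = ∫⁻ t in ⋃ n : ℤ, Ico (n • h) ((n + 1) • h), m t := by
      rw [iUnion_Ico_zsmul hh, Measure.restrict_univ]
    rw [h1, lintegral_iUnion (fun n => measurableSet_Ico) (pairwise_disjoint_Ico_zsmul h)]
    refine tsum_congr fun k => ?_
    have h2 : MeasurePreserving (fun a : ℝ => a + (k : ℝ) * h) volume volume :=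
      measurePreserving_add_right volume _
    have h3 := h2.setLIntegral_comp_preimage (s := Ico (k • h) ((k + 1) • h)) measurableSet_Ico hmm
    rw [← h3]
    congr 2
    ext a
    simp only [mem_preimage, mem_Ico, zsmul_eq_mul, Int.cast_add, Int.cast_one]
    constructor
    · rintro ⟨h4, h5⟩
      exact ⟨by linarith, by linarith⟩
    · rintro ⟨h4, h5⟩
      exact ⟨by linarith, by linarith⟩
  have hvol : volume (Ico (0 : ℝ) h) = ENNReal.ofReal h := by
    rw [Real.volume_Ico, sub_zero]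
  obtain ⟨a, -, ha⟩ := exists_le_setLAverage (μ := (volume : Measure ℝ)) (s := Ico (0 : ℝ) h)
    (f := fun a : ℝ => ∑' k : ℤ, m (a + k * h))
    (by rw [hvol]; exact (ENNReal.ofReal_pos.mpr hh).ne') (by rw [hvol]; exact ENNReal.ofReal_ne_top)
    hFm.aemeasurable
  refine ⟨a, ?_⟩
  rw [setLAverage_eq, hsum, hvol] at ha
  refine le_trans (le_of_eq ?_) ha
  rw [hm]
  rfl

private theorem haus_le {A : Set ℂ} (e : ℝ → ℝ → ℂ) (he : ∀ t, Isometry (e t)) (p : ℂ → ℝ)
    (hp : ∀ w t, p w = t → ∃ y, e t y = w) (a h : ℝ) :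
    (μH[1] : Measure ℂ) ({w | ∃ k : ℤ, p w = a + k * h} ∩ A) ≤
      ∑' k : ℤ, volume {y : ℝ | e (a + k * h) y ∈ A} := by
  have h1 : {w | ∃ k : ℤ, p w = a + k * h} ∩ A ⊆
      ⋃ k : ℤ, e (a + k * h) '' {y : ℝ | e (a + k * h) y ∈ A} := by
    rintro w ⟨⟨k, hk⟩, hw⟩
    obtain ⟨y, hy⟩ := hp w _ hk
    refine mem_iUnion.mpr ⟨k, y, ?_, hy⟩
    change e (a + k * h) y ∈ A
    rw [hy]
    exact hw
  refine (measure_mono h1).trans ((measure_iUnion_le _).trans ?_)
  refine ENNReal.tsum_le_tsum fun k => ?_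
  rw [(he _).hausdorffMeasure_image (Or.inl zero_le_one), hausdorffMeasure_real]

theorem grid_shift {A : Set ℂ} (hA : MeasurableSet A) (hAf : volume A ≠ ⊤) {h : ℝ} (hh : 0 < h) :
    ∃ a b : ℝ, (μH[1] : Measure ℂ) (grd a b h ∩ A) ≤ ENNReal.ofReal (2 / h) * volume A := by
  have hB : MeasurableSet (Complex.measurableEquivRealProd.symm ⁻¹' A) :=
    Complex.measurableEquivRealProd.symm.measurable hA
  have hvB : volume (Complex.measurableEquivRealProd.symm ⁻¹' A) = volume A :=
    Complex.volume_preserving_equiv_real_prod.symm.measure_preimage hA.nullMeasurableSet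
  have hB' : MeasurableSet (Prod.swap ⁻¹' (Complex.measurableEquivRealProd.symm ⁻¹' A)) :=
    measurable_swap hB
  have hvB' : volume (Prod.swap ⁻¹' (Complex.measurableEquivRealProd.symm ⁻¹' A)) =
      volume A := by
    rw [← hvB]
    have h1 : MeasurePreserving (Prod.swap : ℝ × ℝ → ℝ × ℝ) volume volume := by
      rw [Measure.volume_eq_prod]
      exact Measure.measurePreserving_swap
    exact h1.measure_preimage hB.nullMeasurableSet
  obtain ⟨a, ha⟩ := line_shift hB hh
  obtain ⟨b, hb⟩ := line_shift hB' hh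
  rw [hvB] at ha
  rw [hvB'] at hb
  refine ⟨a, b, ?_⟩
  have h1 := haus_le (A := A) (fun t y => (⟨t, y⟩ : ℂ)) (fun t => by
    refine Isometry.of_dist_eq fun x y => ?_
    exact Complex.dist_of_re_eq (z := ⟨t, x⟩) (w := ⟨t, y⟩) rfl) Complex.re (fun w t hw => ⟨w.im, by
      apply Complex.ext
      · exact hw.symm
      · rfl⟩) a h
  have h2 := haus_le (A := A) (fun t y => (⟨y, t⟩ : ℂ)) (fun t => by
    refine Isometry.of_dist_eq fun x y => ?_
    exact Complex.dist_of_im_eq (z := ⟨x, t⟩) (w := ⟨y, t⟩) rfl) Complex.im (fun w t hw => ⟨w.re, by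
      apply Complex.ext
      · rfl
      · exact hw.symm⟩) b h
  have h3 : grd a b h ∩ A ⊆ ({w | ∃ k : ℤ, w.re = a + k * h} ∩ A) ∪
      ({w | ∃ k : ℤ, w.im = b + k * h} ∩ A) := by
    rintro w ⟨hw | hw, hwA⟩
    · exact Or.inl ⟨hw, hwA⟩
    · exact Or.inr ⟨hw, hwA⟩
  refine (measure_mono h3).trans ((measure_union_le _ _).trans ?_)
  have h4 : ENNReal.ofReal (2 / h) * volume A =
      volume A / ENNReal.ofReal h + volume A / ENNReal.ofReal h := by
    rw [ENNReal.ofReal_div_of_pos hh, ENNReal.div_eq_inv_mul, ENNReal.div_eq_inv_mul,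
      ENNReal.ofReal_ofNat]
    ring
  rw [h4]
  exact add_le_add (h1.trans ha) (h2.trans hb)

end Pool.Agent.H56.TH
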