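import Pool.Agent.H56.TH.Defs

/-!
# Module TG: cutting along the grid in a layer

PROOFS. `grd_closed`: `{a + k h}` is closed (discrete, `h > 0`; e.g. the preimage of the closed set `Int.cast '' univ` under
`t ↦ (t - a) / h`, `Int.isClosedEmbedding_coe_real`), preimages under `re`, `im`. `lay_closed`: `infDist` is continuous.
`grid_cut`: `Y` is open (`IsOpen.connectedComponentIn`), preconnected, contains `x` (`infDist x Q < s`, so `x ∉ lay`).
Suppose `w ∈ Y`, `s + 3 h ≤ infDist w Q`. By continuity of `infDist · Q` on the preconnected set `Y` there is `w' ∈ Y` with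
`infDist w' Q = s + 3 h / 2`. `w'` is in the layer, so not in the grid, so in an open square
`S = {re ∈ (a + k h, a + (k+1) h), im ∈ (b + l h, b + (l+1) h)}` (`k = ⌊(re w' - a) / h⌋`). The closed square has diameter
`≤ √2 h < 3 h / 2`, so it is contained in `{s < infDist · Q < s + 3 h}` and its boundary is in `grd ∩ lay`: `Y` misses the boundary
of the square, so `Y ⊆ S` (`Y` is preconnected, contained in the union of `S` and of the complement of the closed square). But
`x ∈ Y` and `infDist x Q < s`. Contradiction.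
Frontier: `z ∈ frontier Y`; `z ∈ closure V`; `infDist z Q ≤ s + 3 h` by continuity. If `z ∈ V \ (grd ∩ lay)` (open) then the
component of `z` in it is an open neighbourhood of `z` which meets `Y`, so it is `Y`, `z ∈ Y`: contradiction. So `z ∉ V`
(then `z ∈ frontier V`) or `z ∈ V ∩ (grd ∩ lay)`.
-/

set_option autoImplicit false

open Filter Topology Metric Set MeasureTheory
open scoped MeasureTheory

namespace Pool.Agent.H56.TH

private theorem tg_cl (f : ℂ → ℝ) (hf : Continuous f) (a : ℝ) {h : ℝ} (hh : 0 < h) :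
    IsClosed {w : ℂ | ∃ k : ℤ, f w = a + k * h} := by
  have h1 : IsClosed (Set.range (Int.cast : ℤ → ℝ)) := Int.isClosedEmbedding_coe_real.isClosed_range
  have h2 : {w : ℂ | ∃ k : ℤ, f w = a + k * h} =
      (fun w => (f w - a) / h) ⁻¹' (Set.range (Int.cast : ℤ → ℝ)) := by
    ext w
    constructor
    · rintro ⟨k, hk⟩
      refine ⟨k, ?_⟩
      show (k : ℝ) = (f w - a) / h
      rw [hk]
      field_simp
      ring
    · rintro ⟨k, hk⟩
      refine ⟨k, ?_⟩
      have h3 : (k : ℝ) = (f w - a) / h := hk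
      rw [h3]
      field_simp
      ring
  rw [h2]
  exact h1.preimage ((hf.sub continuous_const).div_const h)

theorem grd_closed (a b : ℝ) {h : ℝ} (hh : 0 < h) : IsClosed (grd a b h) :=
  (tg_cl Complex.re Complex.continuous_re a hh).union (tg_cl Complex.im Complex.continuous_im b hh)

theorem lay_closed (Q : Set ℂ) (s t : ℝ) : IsClosed (lay Q s t) :=
  (isClosed_le continuous_const (continuous_infDist_pt Q)).inter
    (isClosed_le (continuous_infDist_pt Q) continuous_const)

/-- the interval of the grid -/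
private theorem tg_fl (t a : ℝ) {h : ℝ} (hh : 0 < h) (ht : ¬∃ k : ℤ, t = a + k * h) :
    ∃ k : ℤ, a + k * h < t ∧ t < a + (k + 1 : ℤ) * h := by
  refine ⟨⌊(t - a) / h⌋, ?_, ?_⟩
  · have h1 := Int.floor_le ((t - a) / h)
    rw [le_div_iff₀ hh] at h1
    refine lt_of_le_of_ne (by linarith) fun h2 => ht ⟨_, h2.symm⟩
  · have h1 := Int.lt_floor_add_one ((t - a) / h)
    rw [div_lt_iff₀ hh] at h1
    push_cast
    linarith

theorem grid_cut {V Q : Set ℂ} (hV : IsOpen V) {x : ℂ} (hx : x ∈ V) {a b h s : ℝ} (hh : 0 < h)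
    (hxQ : infDist x Q < s) {Y : Set ℂ}
    (hY : Y = connectedComponentIn (V \ (grd a b h ∩ lay Q s (s + 3 * h))) x) :
    IsOpen Y ∧ IsPreconnected Y ∧ x ∈ Y ∧ Y ⊆ V ∧ (∀ w ∈ Y, infDist w Q < s + 3 * h) ∧
      frontier Y ⊆ (frontier V ∩ {w | infDist w Q ≤ s + 3 * h}) ∪ (V ∩ (grd a b h ∩ lay Q s (s + 3 * h))) := by
  have hG : IsClosed (grd a b h ∩ lay Q s (s + 3 * h)) :=
    (grd_closed a b hh).inter (lay_closed Q s (s + 3 * h))
  have hU : IsOpen (V \ (grd a b h ∩ lay Q s (s + 3 * h))) := hV.sdiff hG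
  have hxU : x ∈ V \ (grd a b h ∩ lay Q s (s + 3 * h)) :=
    ⟨hx, fun h1 => absurd h1.2.1 (not_le.2 hxQ)⟩
  have hYo : IsOpen Y := by
    rw [hY]
    exact hU.connectedComponentIn
  have hYp : IsPreconnected Y := by
    rw [hY]
    exact isPreconnected_connectedComponentIn
  have hxY : x ∈ Y := by
    rw [hY]
    exact mem_connectedComponentIn hxU
  have hYU : Y ⊆ V \ (grd a b h ∩ lay Q s (s + 3 * h)) := by
    rw [hY]
    exact connectedComponentIn_subset _ _
  have hlt : ∀ w ∈ Y, infDist w Q < s + 3 * h := by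
    intro w hw
    by_contra hc
    push Not at hc
    have h1 := hYp.intermediate_value hxY hw (continuous_infDist_pt Q).continuousOn
    obtain ⟨w', hw', hd⟩ := h1 (⟨by linarith, by linarith⟩ :
      s + 3 * h / 2 ∈ Icc (infDist x Q) (infDist w Q))
    have hd' : infDist w' Q = s + 3 * h / 2 := hd
    have hng : w' ∉ grd a b h := fun h2 => (hYU hw').2
      ⟨h2, by rw [hd']; linarith, by rw [hd']; linarith⟩
    obtain ⟨k, hk1, hk2⟩ := tg_fl w'.re a hh fun h2 => hng (Or.inl h2)
    obtain ⟨l, hl1, hl2⟩ := tg_fl w'.im b hh fun h2 => hng (Or.inr h2)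
    push_cast at hk2 hl2
    -- the closed square
    have hsq : ∀ z : ℂ, a + k * h ≤ z.re → z.re ≤ a + (k + 1) * h → b + l * h ≤ z.im →
        z.im ≤ b + (l + 1) * h → s < infDist z Q ∧ infDist z Q < s + 3 * h := by
      intro z z1 z2 z3 z4
      have e1 : dist z w' < 3 * h / 2 := by
        rw [Complex.dist_eq_re_im, Real.sqrt_lt' (by linarith)]
        have e2 : (z.re - w'.re) ^ 2 ≤ h ^ 2 := by
          rw [sq_le_sq, abs_of_pos hh, abs_le]
          constructor <;> linarith
        have e3 : (z.im - w'.im) ^ 2 ≤ h ^ 2 := by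
          rw [sq_le_sq, abs_of_pos hh, abs_le]
          constructor <;> linarith
        nlinarith
      have e2 := infDist_le_infDist_add_dist (s := Q) (x := z) (y := w')
      have e3 := infDist_le_infDist_add_dist (s := Q) (x := w') (y := z)
      rw [dist_comm] at e3
      constructor <;> linarith
    obtain ⟨S, hS⟩ : ∃ S : Set ℂ, S = {z : ℂ | a + k * h < z.re ∧ z.re < a + (k + 1) * h ∧
      b + l * h < z.im ∧ z.im < b + (l + 1) * h} := ⟨_, rfl⟩
    obtain ⟨S', hS'⟩ : ∃ S' : Set ℂ, S' = {z : ℂ | a + k * h ≤ z.re ∧ z.re ≤ a + (k + 1) * h ∧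
      b + l * h ≤ z.im ∧ z.im ≤ b + (l + 1) * h} := ⟨_, rfl⟩
    have hSo : IsOpen S := by
      rw [hS]
      exact (isOpen_lt continuous_const Complex.continuous_re).inter
        ((isOpen_lt Complex.continuous_re continuous_const).inter
          ((isOpen_lt continuous_const Complex.continuous_im).inter
            (isOpen_lt Complex.continuous_im continuous_const)))
    have hSc : IsClosed S' := by
      rw [hS']
      exact (isClosed_le continuous_const Complex.continuous_re).inter
        ((isClosed_le Complex.continuous_re continuous_const).inter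
          ((isClosed_le continuous_const Complex.continuous_im).inter
            (isClosed_le Complex.continuous_im continuous_const)))
    have hcov : Y ⊆ S ∪ S'ᶜ := by
      intro z hz
      by_cases h2 : z ∈ S'
      · left
        rw [hS'] at h2
        obtain ⟨z1, z2, z3, z4⟩ := h2
        have hz2 := hsq z z1 z2 z3 z4
        have hzg : z ∉ grd a b h := fun h3 => (hYU hz).2 ⟨h3, hz2.1.le, hz2.2.le⟩
        rw [hS]
        refine ⟨lt_of_le_of_ne z1 fun h3 => hzg (Or.inl ⟨k, h3.symm⟩),
          lt_of_le_of_ne z2 fun h3 => hzg (Or.inl ⟨k + 1, by rw [h3]; push_cast; rfl⟩),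
          lt_of_le_of_ne z3 fun h3 => hzg (Or.inr ⟨l, h3.symm⟩),
          lt_of_le_of_ne z4 fun h3 => hzg (Or.inr ⟨l + 1, by rw [h3]; push_cast; rfl⟩)⟩
      · exact Or.inr h2
    have hdis : Disjoint S S'ᶜ := by
      rw [Set.disjoint_compl_right_iff_subset, hS, hS']
      rintro z ⟨z1, z2, z3, z4⟩
      exact ⟨z1.le, z2.le, z3.le, z4.le⟩
    have hYS : Y ⊆ S := hYp.subset_left_of_subset_union hSo hSc.isOpen_compl hdis hcov
      ⟨w', hw', by rw [hS]; exact ⟨hk1, hk2, hl1, hl2⟩⟩
    have hxS := hYS hxY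
    rw [hS] at hxS
    have := (hsq x hxS.1.le hxS.2.1.le hxS.2.2.1.le hxS.2.2.2.le).1
    linarith
  refine ⟨hYo, hYp, hxY, fun z hz => (hYU hz).1, hlt, fun z hz => ?_⟩
  rw [hYo.frontier_eq] at hz
  obtain ⟨hz1, hz2⟩ := hz
  have hle : infDist z Q ≤ s + 3 * h :=
    closure_minimal (fun w hw => (hlt w hw).le)
      (isClosed_le (continuous_infDist_pt Q) continuous_const) hz1
  by_cases hzV : z ∈ V
  · by_cases hzG : z ∈ grd a b h ∩ lay Q s (s + 3 * h)
    · exact Or.inr ⟨hzV, hzG⟩
    · exfalso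
      have hzU : z ∈ V \ (grd a b h ∩ lay Q s (s + 3 * h)) := ⟨hzV, hzG⟩
      have hC : IsOpen (connectedComponentIn (V \ (grd a b h ∩ lay Q s (s + 3 * h))) z) :=
        hU.connectedComponentIn
      obtain ⟨y, hy1, hy2⟩ := mem_closure_iff.1 hz1 _ hC (mem_connectedComponentIn hzU)
      have e1 := connectedComponentIn_eq hy1
      rw [hY] at hy2
      have e2 := connectedComponentIn_eq hy2
      refine hz2 ?_
      rw [hY, e2, ← e1]
      exact mem_connectedComponentIn hzU
  · refine Or.inl ⟨?_, hle⟩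
    rw [hV.frontier_eq]
    exact ⟨closure_mono (fun w hw => (hYU hw).1) hz1, hzV⟩

end Pool.Agent.H56.TH
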