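import Pool.Agent.H56.TH.TF
import Pool.Agent.H56.TH.TG
import Pool.Agent.H56.TH.HC

/-!
# Module CT: the cut along a grid in a layer, with lengths

PROOFS. `col_dist`: `d ≤ infDist w Q ≤ 2 d`. `Q` compact: `infDist w Q` is attained at `q`. For `p ∈ Q`: `dist w p ≥ infDist w Q ≥ d`.
For `p ∈ P \ Q`: `dist w p ≥ dist p q - dist w q ≥ 4 d - 2 d = 2 d`. So `ball w d` misses `P`; and `infDist w P ≤ infDist w Q ≤ 2 d`.
`col_vol`: `{infDist w Q ≤ t}` is bounded (`Q` bounded), so of finite volume.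
`cut_len`: `L = lay Q s (s + 3 h) ⊆ {d ≤ infDist · Q ≤ 2 d}`, closed. `A = V ∩ L` is measurable of finite volume; take `a, b`
of `grid_shift`, `Y` of `grid_cut`, `V' = fill Y`. `Wn P V'`: `TF`; `frontier V' ⊆ frontier Y ⊆ (frontier V ∩ {infDist ≤ s + 3 h}) ∪
(V ∩ (grd ∩ L))`; the first set misses `P` (`Wn`), the second by `col_dist`. `x ∈ Y ⊆ V'`. `V' ⊆ V` (`fill_sub`). If
`{infDist · Q ≤ 2 d} ⊆ ball c r` then `Y ⊆ ball c r` and `fill Y ⊆ ball c r` (`fill_sub` with `full_ball`).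
Length: `lintegral_mono_set` and `lintegral_union_le`; on `L`: `ρ ≤ 16 / d` (`Mt.up`, `ball w d ⊆ O` since
`infDist · Q ≤ 3 d` on it), so the second part is `≤ ofReal (16 / d) μH[1] (grd ∩ A) ≤ ofReal (16 / d) ofReal (2 / h) volume A`.
Last clause: `ball x r ⊆ V` and `infDist · Q < d` on `ball x r` (so it misses the layer): the ball is preconnected and contained in
`V \ (grd ∩ L)`, so in the component `Y`.
-/

set_option autoImplicit false

open Filter Topology Metric Set MeasureTheory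
open scoped MeasureTheory

namespace Pool.Agent.H56.TH

theorem col_dist {P Q : Set ℂ} {d : ℝ} (hC : Col P Q d) {w : ℂ} (h1 : d ≤ infDist w Q) (h2 : infDist w Q ≤ 2 * d) :
    Disjoint (ball w d) P ∧ w ∉ P ∧ d ≤ infDist w P ∧ infDist w P ≤ 2 * d := by
  obtain ⟨q, hq, hqd⟩ := hC.Qc.exists_infDist_eq_dist hC.Qn w
  have hd := hC.d0
  have key : ∀ p ∈ P, d ≤ dist w p := by
    intro p hp
    by_cases hpQ : p ∈ Q
    · exact h1.trans (infDist_le_dist_of_mem hpQ)
    · have e1 := hC.sep p hp hpQ q hq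
      have e2 := dist_triangle p w q
      rw [dist_comm p w] at e2
      linarith
  refine ⟨?_, ?_, ?_, ?_⟩
  · rw [Set.disjoint_left]
    intro z hz hzP
    have e1 := key z hzP
    rw [mem_ball, dist_comm] at hz
    linarith
  · intro hw
    have e1 := key w hw
    rw [dist_self] at e1
    linarith
  · exact (le_infDist (hC.Qn.mono hC.QP)).2 fun p hp => key p hp
  · exact (infDist_le_infDist_of_subset hC.QP hC.Qn).trans h2

theorem col_vol {P Q : Set ℂ} {d : ℝ} (hC : Col P Q d) (t : ℝ) :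
    Bornology.IsBounded {w : ℂ | infDist w Q ≤ t} ∧ volume {w : ℂ | infDist w Q ≤ t} < ⊤ := by
  have hb : Bornology.IsBounded {w : ℂ | infDist w Q ≤ t} := by
    obtain ⟨q0, hq0⟩ := hC.Qn
    obtain ⟨R, hR⟩ := hC.Qc.isBounded.subset_closedBall q0
    refine (isBounded_closedBall (x := q0) (r := t + R)).subset fun w hw => ?_
    obtain ⟨q, hq, hqd⟩ := hC.Qc.exists_infDist_eq_dist hC.Qn w
    have e1 : dist w q ≤ t := by
      rw [← hqd]
      exact hw
    have e2 : dist q q0 ≤ R := hR hq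
    have e3 := dist_triangle w q q0
    rw [mem_closedBall]
    linarith
  exact ⟨hb, hb.measure_lt_top⟩

theorem cut_len {P Q V O : Set ℂ} {ρ : ℂ → ENNReal} {d s h : ℝ} (hC : Col P Q d) (hM : Mt ρ P O)
    (hO : ∀ w, infDist w Q ≤ 3 * d → w ∈ O) (hV : Wn P V) {x : ℂ} (hx : x ∈ V) (hxQ : infDist x Q < d) (hh : 0 < h)
    (hs : d ≤ s) (hs2 : s + 3 * h ≤ 2 * d) :
    ∃ V' : Set ℂ, Wn P V' ∧ x ∈ V' ∧ V' ⊆ V ∧
      (∀ (c : ℂ) (r : ℝ), (∀ w, infDist w Q ≤ 2 * d → w ∈ ball c r) → V' ⊆ ball c r) ∧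
      len ρ V' ≤ (∫⁻ w in frontier V ∩ {w | infDist w Q ≤ s + 3 * h}, ρ w ∂(μH[1] : Measure ℂ)) +
        ENNReal.ofReal (32 / (d * h)) * volume (V ∩ lay Q s (s + 3 * h)) ∧
      ∀ r : ℝ, ball x r ⊆ V → (∀ w ∈ ball x r, infDist w Q < d) → ball x r ⊆ V' := by
  have hd := hC.d0
  have hLc := lay_closed Q s (s + 3 * h)
  have hAm : MeasurableSet (V ∩ lay Q s (s + 3 * h)) := hV.op.measurableSet.inter hLc.measurableSet
  have hAf : volume (V ∩ lay Q s (s + 3 * h)) ≠ ⊤ :=
    ((measure_mono fun w hw => (hw.2.2.trans hs2 : infDist w Q ≤ 2 * d)).trans_lt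
      (col_vol hC (2 * d)).2).ne
  obtain ⟨a, b, hab⟩ := grid_shift hAm hAf hh
  obtain ⟨Y, hY⟩ : ∃ Y : Set ℂ,
      Y = connectedComponentIn (V \ (grd a b h ∩ lay Q s (s + 3 * h))) x := ⟨_, rfl⟩
  obtain ⟨hYo, hYp, hxY, hYV, hlt, hfr⟩ := grid_cut hV.op hx hh (hxQ.trans_le hs) hY
  have hfr2 : frontier (fill Y) ⊆ (frontier V ∩ {w | infDist w Q ≤ s + 3 * h}) ∪
      (V ∩ (grd a b h ∩ lay Q s (s + 3 * h))) := (fill_front hYo).trans hfr
  have hlay : ∀ w ∈ lay Q s (s + 3 * h), d ≤ infDist w Q ∧ infDist w Q ≤ 2 * d :=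
    fun w hw => ⟨hs.trans hw.1, hw.2.trans hs2⟩
  refine ⟨fill Y, ⟨fill_open hYo, fill_pre hYo hYp, fill_full hYo, ?_⟩, sub_fill Y hxY,
    fill_sub hYV hV.fu, ?_, ?_, ?_⟩
  · rw [Set.disjoint_left]
    intro z hz hzP
    rcases hfr2 hz with h1 | h1
    · exact Set.disjoint_left.1 hV.fr h1.1 hzP
    · obtain ⟨e1, e2⟩ := hlay z h1.2.2
      exact (col_dist hC e1 e2).2.1 hzP
  · intro c r hcr
    exact fill_sub (fun w hw => hcr w ((hlt w hw).le.trans hs2)) (full_ball c r)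
  · have hS2 : V ∩ (grd a b h ∩ lay Q s (s + 3 * h)) =
        grd a b h ∩ (V ∩ lay Q s (s + 3 * h)) := by
      ext w
      simp only [Set.mem_inter_iff]
      tauto
    have hm2 : MeasurableSet (grd a b h ∩ (V ∩ lay Q s (s + 3 * h))) :=
      (grd_closed a b hh).measurableSet.inter hAm
    have hρ : ∀ w ∈ grd a b h ∩ (V ∩ lay Q s (s + 3 * h)), ρ w ≤ ENNReal.ofReal (16 / d) := by
      intro w hw
      obtain ⟨e1, e2⟩ := hlay w hw.2.2
      refine hM.up w d hd (fun z hz => hO z ?_) (col_dist hC e1 e2).1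
      have e3 := infDist_le_infDist_add_dist (s := Q) (x := z) (y := w)
      rw [mem_ball] at hz
      linarith
    have hnum : ENNReal.ofReal (32 / (d * h)) = ENNReal.ofReal (16 / d) * ENNReal.ofReal (2 / h) := by
      rw [← ENNReal.ofReal_mul (by positivity)]
      congr 1
      field_simp
      norm_num
    calc len ρ (fill Y)
        ≤ ∫⁻ w in (frontier V ∩ {w | infDist w Q ≤ s + 3 * h}) ∪
            (grd a b h ∩ (V ∩ lay Q s (s + 3 * h))), ρ w ∂(μH[1] : Measure ℂ) := by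
          unfold len
          rw [← hS2]
          exact lintegral_mono_set hfr2
      _ ≤ (∫⁻ w in frontier V ∩ {w | infDist w Q ≤ s + 3 * h}, ρ w ∂(μH[1] : Measure ℂ)) +
            ∫⁻ w in grd a b h ∩ (V ∩ lay Q s (s + 3 * h)), ρ w ∂(μH[1] : Measure ℂ) :=
          lintegral_union_le _ _ _
      _ ≤ _ := by
          refine add_le_add le_rfl ?_
          calc ∫⁻ w in grd a b h ∩ (V ∩ lay Q s (s + 3 * h)), ρ w ∂(μH[1] : Measure ℂ)
              ≤ ∫⁻ _ in grd a b h ∩ (V ∩ lay Q s (s + 3 * h)), ENNReal.ofReal (16 / d)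
                  ∂(μH[1] : Measure ℂ) := setLIntegral_mono' hm2 hρ
            _ = ENNReal.ofReal (16 / d) *
                  (μH[1] : Measure ℂ) (grd a b h ∩ (V ∩ lay Q s (s + 3 * h))) :=
                setLIntegral_const _ _
            _ ≤ ENNReal.ofReal (16 / d) * (ENNReal.ofReal (2 / h) *
                  volume (V ∩ lay Q s (s + 3 * h))) := by gcongr
            _ = _ := by rw [hnum, mul_assoc]
  · intro r hr hrQ
    rcases le_or_gt r 0 with h0 | h0
    · rw [ball_eq_empty.2 h0]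
      exact Set.empty_subset _
    · have h1 : ball x r ⊆ Y := by
        rw [hY]
        refine IsPreconnected.subset_connectedComponentIn (convex_ball x r).isPreconnected
          (mem_ball_self h0) fun w hw => ⟨hr hw, fun h2 => ?_⟩
        exact absurd (hs.trans h2.2.1) (not_le.2 (hrQ w hw))
      exact h1.trans (sub_fill Y)

end Pool.Agent.H56.TH
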