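import Pool.Agent.H56.TH.CR

/-!
# Module CV: the area of a thin window is controlled by the length of its boundary

PROOF. `E = {b ∈ frontier V | t + 2 η < infDist b Q < 7 d / 4 + η}`. Every `z ∈ V` with `t + 3 η ≤ infDist z Q ≤ 7 d / 4` has a `b ∈ E` with
`dist z b < η`. `Vitali.exists_disjoint_subfamily_covering_enlargement_closedBall` for the closed balls `closedBall b η`, `b ∈ E`:
`u ⊆ E` with disjoint balls, every `b ∈ E` has `b' ∈ u` with `closedBall b η ⊆ closedBall b' (5 η)`. `u` is countable (disjoint sets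
with nonempty interior: `Set.PairwiseDisjoint.countable_of_nonempty_interior`). Area: `volume (..) ≤ ∑' b : u, volume
(closedBall b (5 η)) = ∑' b : u, ofReal (25 π η ^ 2)` (`Complex.volume_closedBall`).
Length: for `b ∈ u`: `lint_dist` with `S_b = frontier V ∩ ball b η`, `r = η`, `c = 1 / (2 d)`: the circles `sphere b s`, `0 < s < η`,
meet `frontier V` (`circle`: `x ∉ closedBall b s` as `dist x b ≥ infDist b Q - infDist x Q > t + 2 η - d ≥ 2 η`); on `S_b`:
`d ≤ t < infDist w Q < 7 d / 4 + 2 η ≤ 2 d`, `ρ ≥ 1 / infDist w P ≥ 1 / (2 d)`. So `ofReal (η / (2 d)) ≤ ∫⁻ w in S_b, ρ w`; the `S_b` are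
disjoint measurable subsets of `R = frontier V ∩ {t < infDist · Q < 2 d}`: `∑' b : u, ofReal (η / (2 d)) ≤ ∫⁻ w in R, ρ w`
(`lintegral_iUnion`, countable). `25 π η ^ 2 = 50 π η d (η / (2 d)) ≤ 160 η d (η / (2 d))` (`π < 3.2`).
-/

set_option autoImplicit false

open Filter Topology Metric Set MeasureTheory
open scoped MeasureTheory

namespace Pool.Agent.H56.TH

theorem vol_thin {P Q V O : Set ℂ} {ρ : ℂ → ENNReal} {d η t : ℝ} (hC : Col P Q d) (hM : Mt ρ P O)
    (hO : ∀ w, infDist w Q ≤ 3 * d → w ∈ O) (hV : Wn P V) {x : ℂ} (hx : x ∈ V) (hxQ : infDist x Q < d)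
    (hη0 : 0 < η) (hη : η ≤ d / 16) (ht : d ≤ t) (hn : ∀ z ∈ V, ∃ b ∈ frontier V, dist z b < η) :
    volume (V ∩ {w | t + 3 * η ≤ infDist w Q ∧ infDist w Q ≤ 7 / 4 * d}) ≤
      ENNReal.ofReal (160 * η * d) *
        ∫⁻ w in frontier V ∩ {w | t < infDist w Q ∧ infDist w Q < 2 * d}, ρ w ∂(μH[1] : Measure ℂ) := by
  have hd := hC.d0
  set E : Set ℂ := {b | b ∈ frontier V ∧ t + 2 * η < infDist b Q ∧ infDist b Q < 7 / 4 * d + η} with hE
  have hinf : ∀ a b : ℂ, infDist a Q ≤ infDist b Q + dist a b := fun a b => infDist_le_infDist_add_dist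
  obtain ⟨u, huE, hud, huc⟩ := Vitali.exists_disjoint_subfamily_covering_enlargement_closedBall E
    (fun b : ℂ => b) (fun _ => η) η (fun _ _ => le_rfl) 5 (by norm_num)
  have hcount : u.Countable := hud.countable_of_nonempty_interior fun b _ => by
    have : b ∈ interior (closedBall b η) := ball_subset_interior_closedBall (mem_ball_self hη0)
    exact ⟨b, this⟩
  -- the covering
  have hcov : V ∩ {w | t + 3 * η ≤ infDist w Q ∧ infDist w Q ≤ 7 / 4 * d} ⊆
      ⋃ b ∈ u, closedBall b (5 * η) := by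
    rintro z ⟨hzV, hz1, hz2⟩
    obtain ⟨b, hbf, hzb⟩ := hn z hzV
    have h1 := hinf z b
    have h2 := hinf b z
    rw [dist_comm b z] at h2
    have hbE : b ∈ E := ⟨hbf, by linarith, by linarith⟩
    obtain ⟨b', hb', hsub⟩ := huc b hbE
    exact mem_iUnion₂.2 ⟨b', hb', hsub (mem_closedBall.2 hzb.le)⟩
  have hvol : volume (V ∩ {w | t + 3 * η ≤ infDist w Q ∧ infDist w Q ≤ 7 / 4 * d}) ≤
      ∑' b : u, volume (closedBall (b : ℂ) (5 * η)) :=
    (measure_mono hcov).trans (measure_biUnion_le volume hcount _)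
  -- the lengths
  have hlen : ∀ b ∈ u, ENNReal.ofReal (1 / (2 * d) * η) ≤
      ∫⁻ w in frontier V ∩ ball b η, ρ w ∂(μH[1] : Measure ℂ) := by
    intro b hb
    obtain ⟨hbf, hb1, hb2⟩ := huE hb
    refine lint_dist (b := b) (isClosed_frontier.measurableSet.inter measurableSet_ball) (by positivity) ?_ ?_
    · intro s hs hsη
      have hnot : ¬ V ⊆ closedBall b s := by
        intro h
        have h1 := mem_closedBall.1 (h hx)
        have h2 := hinf b x
        rw [dist_comm b x] at h2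
        linarith
      obtain ⟨w, hw1, hw2⟩ := circle hV.op hV.co hV.fu hbf hs hnot
      refine ⟨w, hw1, hw2, mem_ball.2 ?_⟩
      rw [mem_sphere.1 hw1]
      exact hsη
    · rintro w ⟨_, hwb⟩
      have hwb' := mem_ball.1 hwb
      have h1 := hinf w b
      have h2 := hinf b w
      rw [dist_comm b w] at h2
      obtain ⟨_, _, h3, h4⟩ := col_dist hC (w := w) (by linarith) (by linarith)
      refine le_trans (ENNReal.ofReal_le_ofReal ?_) (hM.lo w (hO w (by linarith)))
      exact one_div_le_one_div_of_le (by linarith) h4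
  have hdis : u.PairwiseDisjoint fun b : ℂ => frontier V ∩ ball b η := by
    intro b hb b' hb' hbb
    have := hud hb hb' hbb
    refine Disjoint.mono ?_ ?_ this
    · exact inter_subset_right.trans ball_subset_closedBall
    · exact inter_subset_right.trans ball_subset_closedBall
  have hsubR : (⋃ b ∈ u, frontier V ∩ ball b η) ⊆ frontier V ∩ {w | t < infDist w Q ∧ infDist w Q < 2 * d} := by
    intro w hw
    obtain ⟨b, hb, hwf, hwb⟩ := mem_iUnion₂.1 hw
    obtain ⟨hbf, hb1, hb2⟩ := huE hb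
    have hwb' := mem_ball.1 hwb
    have h1 := hinf w b
    have h2 := hinf b w
    rw [dist_comm b w] at h2
    exact ⟨hwf, by linarith, by linarith⟩
  have hsum : ∑' _ : u, ENNReal.ofReal (1 / (2 * d) * η) ≤
      ∫⁻ w in frontier V ∩ {w | t < infDist w Q ∧ infDist w Q < 2 * d}, ρ w ∂(μH[1] : Measure ℂ) := by
    calc ∑' _ : u, ENNReal.ofReal (1 / (2 * d) * η)
        ≤ ∑' b : u, ∫⁻ w in frontier V ∩ ball (b : ℂ) η, ρ w ∂(μH[1] : Measure ℂ) :=
          ENNReal.tsum_le_tsum fun b => hlen b b.2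
      _ = ∫⁻ w in ⋃ b ∈ u, frontier V ∩ ball b η, ρ w ∂(μH[1] : Measure ℂ) :=
          (lintegral_biUnion hcount
            (fun b _ => isClosed_frontier.measurableSet.inter measurableSet_ball) hdis ρ).symm
      _ ≤ _ := lintegral_mono_set hsubR
  refine hvol.trans (le_trans ?_ (mul_le_mul_right hsum (ENNReal.ofReal (160 * η * d))))
  rw [← ENNReal.tsum_mul_left]
  refine ENNReal.tsum_le_tsum fun b => ?_
  rw [Complex.volume_closedBall, ← ENNReal.ofReal_pow (by positivity), ← ENNReal.ofReal_mul (by positivity)]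
  have hpi : ((NNReal.pi : NNReal) : ENNReal) = ENNReal.ofReal Real.pi := by
    rw [ENNReal.ofReal, ← NNReal.coe_real_pi, Real.toNNReal_coe]
  rw [hpi, ← ENNReal.ofReal_mul (by positivity)]
  apply ENNReal.ofReal_le_ofReal
  have h1 : 160 * η * d * (1 / (2 * d) * η) = 80 * η ^ 2 := by
    field_simp
    ring
  rw [h1]
  have h2 : Real.pi < 3.15 := Real.pi_lt_d2
  have h3 : 0 < η ^ 2 := by positivity
  nlinarith [mul_lt_mul_of_pos_left h2 h3]

end Pool.Agent.H56.TH
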