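import Pool.Agent.H56.TH.CU

/-!
# Module CO: the collars around the points of `L`, with uniform constants

PROOF. For `c ∈ L` take `Q_c` of `HY.col` with `κ = R / 8`: `Q_c` is compact, `P \ Q_c` is closed, so their distance is positive:
`Col P Q_c d_c` for some `0 < d_c ≤ R / 16`. The open sets `{w | infDist w Q_c < d_c}` cover `L`; take a finite subcover,
`c_1, .., c_m`. `3 d_c`-neighbourhood: `infDist w Q_c ≤ 3 d_c` gives `w ∈ ball c (R / 8 + 4 d_c) ⊆ ball c δ₀ ⊆ nb L δ₀` (`R ≤ δ₀`).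
Constants: `C = ∑ C_i`, `η = min η_i`, `r₁ = min d_i` (of `cut_plain`, `cut_gain` for the `m` collars; finite minimum, `m ≥ 1` as
`L` is nonempty). Let `z ∈ L`, `infDist z Q < d` with `Q = Q_(c_i)`, `d = d_i`. Since `z ∈ P` and `Col.sep`: `z ∈ Q`, so
`infDist z Q = 0` and `infDist w Q < d` for `w ∈ ball z r`, `r ≤ r₁ ≤ d`. `infDist w Q ≤ 2 d` implies `w ∈ ball z R`
(`dist w z ≤ 2 d + 2 R / 8 + ..< R`; the infimum is attained, or use `≤ 2 d + ε`). If `¬ V ⊆ ball z R` there is `y ∈ V` with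
`2 d ≤ infDist y Q`. The condition with `η ≤ η_i` implies the one with `η_i`.
-/

set_option autoImplicit false

open Filter Topology Metric Set MeasureTheory
open scoped MeasureTheory

namespace Pool.Agent.H56.TH

theorem collars {f : ℂ → ℂ} {P L : Set ℂ} {ρ : ℂ → ENNReal} {δ₀ δ₁ : ℝ} (hY : HY f P L ρ δ₀ δ₁) {R : ℝ}
    (hR : 0 < R) (hR' : R ≤ δ₀) :
    ∃ (C : ENNReal) (η r₁ : ℝ), C ≠ ⊤ ∧ 0 < η ∧ 0 < r₁ ∧ ∀ z ∈ L, ∀ V : Set ℂ, Wn P V → z ∈ V →
      (∃ V' : Set ℂ, Wn P V' ∧ z ∈ V' ∧ V' ⊆ V ∧ V' ⊆ ball z R ∧ len ρ V' ≤ len ρ V + C ∧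
        ∀ r : ℝ, r ≤ r₁ → ball z r ⊆ V → ball z r ⊆ V') ∧
      (¬ V ⊆ ball z R → (∀ y ∈ V, ∃ b ∈ frontier V, dist y b < η) →
        ∃ V' : Set ℂ, Wn P V' ∧ z ∈ V' ∧ V' ⊆ V ∧ V' ⊆ ball z R ∧ len ρ V' ≤ len ρ V ∧
          ∀ r : ℝ, r ≤ r₁ → ball z r ⊆ V → ball z r ⊆ V') := by
  classical
  -- the collar of a point
  have hcol : ∀ c : L, ∃ (Q : Set ℂ) (d : ℝ), (c : ℂ) ∈ Q ∧ Q ⊆ ball (c : ℂ) (R / 8) ∧ d ≤ R / 16 ∧
      Col P Q d := by
    intro c
    obtain ⟨Q, hcQ, hQP, hQb, hQc, hQcl⟩ := hY.col c c.2 (R / 8) (by positivity)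
    obtain ⟨r, hr0, hr⟩ := Metric.exists_pos_forall_lt_edist hQc hQcl
      (Set.disjoint_left.2 fun x hx hx' => hx'.2 hx)
    refine ⟨Q, min (R / 16) ((r : ℝ) / 4), hcQ, hQb, min_le_left _ _, ?_, hQc, ⟨_, hcQ⟩, hQP, ?_⟩
    · exact lt_min (by positivity) (by
        have : (0 : ℝ) < r := by exact_mod_cast hr0
        positivity)
    · intro p hp hpQ q hq
      have h1 := hr q hq p ⟨hp, hpQ⟩
      rw [edist_comm, edist_nndist] at h1
      have h2 : (r : NNReal) < nndist p q := by exact_mod_cast h1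
      have h3 : (r : ℝ) < dist p q := by
        rw [← coe_nndist]
        exact_mod_cast h2
      have h4 := min_le_right (R / 16) ((r : ℝ) / 4)
      linarith
  choose Q d hcQ hQb hdR hC using hcol
  have hnear : ∀ (c : L) (w : ℂ) (s : ℝ), infDist w (Q c) ≤ s → ∃ q ∈ Q c, dist w q ≤ s := by
    intro c w s hw
    obtain ⟨q, hq, hqd⟩ := (hC c).Qc.exists_infDist_eq_dist (hC c).Qn w
    exact ⟨q, hq, hqd ▸ hw⟩
  have hO : ∀ (c : L) (w : ℂ), infDist w (Q c) ≤ 3 * d c → w ∈ nb L δ₀ := by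
    intro c w hw
    obtain ⟨q, hq, hqd⟩ := hnear c w _ hw
    have h1 := mem_ball.1 (hQb c hq)
    have h2 := dist_triangle w q c
    have h3 := hdR c
    unfold nb
    refine mem_iUnion₂.2 ⟨c, c.2, mem_ball.2 ?_⟩
    linarith
  have hpl := fun c : L => cut_plain (hC c) hY.met (hO c)
  have hga := fun c : L => cut_gain (hC c) hY.met (hO c)
  choose Cc hCtop hpl using hpl
  choose ηc hη0 hga using hga
  have hmin : ∀ (g : L → ℝ), (∀ c, 0 < g c) → ∀ t : Finset L, ∃ m : ℝ, 0 < m ∧ ∀ c ∈ t, m ≤ g c := by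
    intro g hg t
    induction t using Finset.induction_on with
    | empty => exact ⟨1, one_pos, fun c hc => absurd hc (Finset.notMem_empty c)⟩
    | insert a s _ ih =>
      obtain ⟨m, hm, hmc⟩ := ih
      refine ⟨min m (g a), lt_min hm (hg a), fun c hc => ?_⟩
      rcases Finset.mem_insert.1 hc with h | h
      · rw [h]
        exact min_le_right _ _
      · exact (min_le_left _ _).trans (hmc c h)
  -- the finite subcover
  obtain ⟨t, ht⟩ := hY.Lc.elim_nhds_subcover' (fun x hx => {w | infDist w (Q ⟨x, hx⟩) < d ⟨x, hx⟩}) (by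
    intro x hx
    have hop : IsOpen {w | infDist w (Q ⟨x, hx⟩) < d ⟨x, hx⟩} :=
      isOpen_lt (continuous_infDist_pt _) continuous_const
    refine hop.mem_nhds ?_
    show infDist x (Q ⟨x, hx⟩) < d ⟨x, hx⟩
    rw [infDist_zero_of_mem (hcQ ⟨x, hx⟩)]
    exact (hC ⟨x, hx⟩).d0)
  obtain ⟨η, hη, hηc⟩ := hmin ηc hη0 t
  obtain ⟨r₁, hr₁, hr₁c⟩ := hmin d (fun c => (hC c).d0) t
  refine ⟨∑ c ∈ t, Cc c, η, r₁, ?_, hη, hr₁, ?_⟩
  · exact ENNReal.sum_ne_top.2 fun c _ => hCtop c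
  intro z hz V hV hzV
  obtain ⟨c, hct, hzc⟩ := mem_iUnion₂.1 (ht hz)
  have hzc' : infDist z (Q c) < d c := hzc
  have hzQ : z ∈ Q c := by
    by_contra hcon
    obtain ⟨q, hq, hqd⟩ := hnear c z _ le_rfl
    have h1 := (hC c).sep z (hY.LP hz) hcon q hq
    have h2 := (hC c).d0
    linarith
  have hball : ∀ w, infDist w (Q c) ≤ 2 * d c → w ∈ ball z R := by
    intro w hw
    obtain ⟨q, hq, hqd⟩ := hnear c w _ hw
    have h1 := mem_ball.1 (hQb c hq)
    have h2 := mem_ball.1 (hQb c hzQ)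
    have h3 := dist_triangle w q c
    have h4 := dist_triangle w c z
    rw [dist_comm (c : ℂ) z] at h4
    have h5 := hdR c
    rw [mem_ball]
    linarith
  have hsmall : ∀ r : ℝ, r ≤ r₁ → ∀ w ∈ ball z r, infDist w (Q c) < d c := by
    intro r hr w hw
    have h1 := infDist_le_dist_of_mem (x := w) hzQ
    have h2 := mem_ball.1 hw
    have h3 := hr₁c c hct
    linarith
  constructor
  · obtain ⟨V', h1, h2, h3, h4, h5, h6⟩ := hpl c V z hV hzV hzc'
    refine ⟨V', h1, h2, h3, h4 z R hball, h5.trans (add_le_add le_rfl ?_), fun r hr hrV => h6 r hrV (hsmall r hr)⟩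
    exact Finset.single_le_sum (f := Cc) (fun _ _ => zero_le) hct
  · intro hnV hthin
    obtain ⟨y, hyV, hyb⟩ := Set.not_subset.1 hnV
    obtain ⟨V', h1, h2, h3, h4, h5, h6⟩ := hga c V z hV hzV hzc'
      ⟨y, hyV, by
        by_contra hcon
        exact hyb (hball y (not_le.1 hcon).le)⟩
      (fun w hw => by
        obtain ⟨b, hb, hwb⟩ := hthin w hw
        exact ⟨b, hb, hwb.trans_le (hηc c hct)⟩)
    exact ⟨V', h1, h2, h3, h4 z R hball, h5, fun r hr hrV => h6 r hrV (hsmall r hr)⟩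

end Pool.Agent.H56.TH
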