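import Pool.Agent.H56.TH.TC
import Pool.Agent.H56.TH.HB
import Pool.Agent.H56.TH.CT

/-!
# Module CR: a thin window which crosses the collar has much boundary outside

PROOF. `V` is preconnected, `infDist x Q < d`, `2 d ≤ infDist y Q`, so there is `y₁ ∈ V` with `infDist y₁ Q = 7 d / 4`. Take
`b ∈ frontier V` with `dist y₁ b < η ≤ d / 16`. For `0 < s < d / 8` the window is not contained in `closedBall b s`
(`dist x b ≥ infDist b Q - infDist x Q ≥ 7 d / 4 - d / 16 - d > d / 8`; `infDist` is `1`-Lipschitz), so `sphere b s` meets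
`frontier V` (`circle`), at points `w` with `infDist w Q ∈ (7 d / 4 - d / 16 - d / 8, 7 d / 4 + d / 16 + d / 8) ⊆ (3 d / 2, 2 d)`.
`lint_dist` with `S = frontier V ∩ {3 d / 2 < infDist · Q < 2 d}`, `r = d / 8`, `c = 1 / (2 d)`: `ρ w ≥ ofReal (1 / infDist w P)`
(`Mt.lo`, `w ∈ O`) and `0 < infDist w P ≤ 2 d` (`col_dist`).
-/

set_option autoImplicit false

open Filter Topology Metric Set MeasureTheory
open scoped MeasureTheory

namespace Pool.Agent.H56.TH

theorem right_low {P Q V O : Set ℂ} {ρ : ℂ → ENNReal} {d η : ℝ} (hC : Col P Q d) (hM : Mt ρ P O)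
    (hO : ∀ w, infDist w Q ≤ 3 * d → w ∈ O) (hV : Wn P V) {x y : ℂ} (hx : x ∈ V) (hxQ : infDist x Q < d)
    (hy : y ∈ V) (hyQ : 2 * d ≤ infDist y Q) (hη : η ≤ d / 16)
    (hn : ∀ z ∈ V, ∃ b ∈ frontier V, dist z b < η) :
    ENNReal.ofReal (1 / 16) ≤
      ∫⁻ w in frontier V ∩ {w | 3 / 2 * d < infDist w Q ∧ infDist w Q < 2 * d}, ρ w ∂(μH[1] : Measure ℂ) := by
  have hd := hC.d0
  have hcont : Continuous fun w : ℂ => infDist w Q := continuous_infDist_pt Q
  obtain ⟨y₁, hy₁, hy₁Q⟩ : ∃ y₁ ∈ V, infDist y₁ Q = 7 / 4 * d := by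
    have h1 : (7 / 4 * d) ∈ Icc (infDist x Q) (infDist y Q) := ⟨by linarith, by linarith⟩
    obtain ⟨y₁, h2, h3⟩ := hV.co.intermediate_value hx hy hcont.continuousOn h1
    exact ⟨y₁, h2, h3⟩
  obtain ⟨b, hb, hbd⟩ := hn y₁ hy₁
  have hb1 : 27 / 16 * d < infDist b Q := by
    have h1 := infDist_le_infDist_add_dist (s := Q) (x := y₁) (y := b)
    linarith
  have hb2 : infDist b Q < 29 / 16 * d := by
    have h1 := infDist_le_infDist_add_dist (s := Q) (x := b) (y := y₁)
    rw [dist_comm] at h1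
    linarith
  have hS : MeasurableSet (frontier V ∩ {w : ℂ | 3 / 2 * d < infDist w Q ∧ infDist w Q < 2 * d}) :=
    isClosed_frontier.measurableSet.inter
      ((isOpen_lt continuous_const hcont).inter (isOpen_lt hcont continuous_const)).measurableSet
  have hcirc : ∀ s : ℝ, 0 < s → s < d / 8 →
      (sphere b s ∩ (frontier V ∩ {w : ℂ | 3 / 2 * d < infDist w Q ∧ infDist w Q < 2 * d})).Nonempty := by
    intro s hs0 hs1
    obtain ⟨w, hw1, hw2⟩ := circle hV.op hV.co hV.fu hb hs0 (by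
      intro hsub
      have h1 := mem_closedBall.1 (hsub hx)
      have h2 := infDist_le_infDist_add_dist (s := Q) (x := b) (y := x)
      rw [dist_comm] at h2
      linarith)
    rw [mem_sphere] at hw1
    refine ⟨w, mem_sphere.2 hw1, hw2, ?_, ?_⟩
    · have h1 := infDist_le_infDist_add_dist (s := Q) (x := b) (y := w)
      rw [dist_comm] at h1
      linarith
    · have h1 := infDist_le_infDist_add_dist (s := Q) (x := w) (y := b)
      linarith
  have hρ : ∀ w ∈ frontier V ∩ {w : ℂ | 3 / 2 * d < infDist w Q ∧ infDist w Q < 2 * d},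
      ENNReal.ofReal (1 / (2 * d)) ≤ ρ w := by
    rintro w ⟨-, h1, h2⟩
    obtain ⟨-, -, h3, h4⟩ := col_dist hC (w := w) (by linarith) h2.le
    refine le_trans (ENNReal.ofReal_le_ofReal ?_) (hM.lo w (hO w (by linarith)))
    exact one_div_le_one_div_of_le (by linarith) h4
  have h := lint_dist hS (c := 1 / (2 * d)) (r := d / 8) (by positivity) hcirc hρ
  refine le_trans (le_of_eq ?_) h
  congr 1
  field_simp
  norm_num

end Pool.Agent.H56.TH
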