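import Pool.Agent.H56.TH.CV

/-!
# Module CU: the CUT lemma

PROOFS. `cut_plain`: `cut_len` with `s = d`, `h = d / 3`: the first term is `≤ len ρ V` (`lintegral_mono_set`), the second
`≤ C := ofReal (96 / d ^ 2) * volume {w | infDist w Q ≤ 2 d} < ⊤` (`col_vol`).
`cut_gain`: `M = (volume {w | infDist w Q ≤ 2 d}).toReal`, `K ≥ 1` with `2 ^ (K - 1) * (d ^ 2 / (4096 K)) > M`,
`h = d / (8 K)`, `η = h / 5120` (so `η ≤ d / 16`, `3 η ≤ h`), `s_k = d + 4 h k` (`k < K`; `s_k + 3 h ≤ d + 4 h K = 3 d / 2`).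
`R_k = ∫⁻ w in frontier V ∩ {s_k + 3 h < infDist · Q < 2 d}, ρ`, `v_k = volume (V ∩ lay Q s_k (s_k + 3 h))`,
`a_k = volume (V ∩ {s_k ≤ infDist · Q ≤ 7 d / 4})`.
If `ofReal (32 / (d h)) * v_k ≤ R_k` for some `k < K`: the `V'` of `cut_len` with `s = s_k` has
`len V' ≤ ∫⁻ (frontier V ∩ {infDist ≤ s_k + 3 h}) + R_k ≤ len V` (`lintegral_inter_add_diff`-like: the two sets are disjoint
measurable subsets of `frontier V`). Otherwise for all `k < K`: `R_k < ofReal (32 / (d h)) v_k`. By `vol_thin` with `t = s_k + 3 h`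
(`t + 3 η ≤ s_(k+1)`): `a_(k+1) ≤ ofReal (160 η d) R_k ≤ ofReal (5120 η / h) v_k = v_k`. `a_k ≥ v_k + a_(k+1)` (disjoint, `k + 1 ≤ K`,
`s_k + 3 h < s_(k+1)`, measurable). So `a_k ≥ 2 a_(k+1)`, `a_0 ≥ 2 ^ (K - 1) a_(K-1) ≥ 2 ^ (K-1) v_(K-1)`,
`v_(K-1) ≥ (d h / 32) R_(K-1) ≥ (d h / 32) / 16` (`right_low`: `s_(K-1) + 3 h ≤ 3 d / 2`), so
`M ≥ a_0 ≥ 2 ^ (K - 1) d ^ 2 / (4096 K)`. Contradiction.
-/

set_option autoImplicit false

open Filter Topology Metric Set MeasureTheory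
open scoped MeasureTheory

namespace Pool.Agent.H56.TH

theorem cut_plain {P Q O : Set ℂ} {ρ : ℂ → ENNReal} {d : ℝ} (hC : Col P Q d) (hM : Mt ρ P O)
    (hO : ∀ w, infDist w Q ≤ 3 * d → w ∈ O) :
    ∃ C : ENNReal, C ≠ ⊤ ∧ ∀ (V : Set ℂ) (x : ℂ), Wn P V → x ∈ V → infDist x Q < d →
      ∃ V' : Set ℂ, Wn P V' ∧ x ∈ V' ∧ V' ⊆ V ∧
        (∀ (c : ℂ) (r : ℝ), (∀ w, infDist w Q ≤ 2 * d → w ∈ ball c r) → V' ⊆ ball c r) ∧
        len ρ V' ≤ len ρ V + C ∧
        ∀ r : ℝ, ball x r ⊆ V → (∀ w ∈ ball x r, infDist w Q < d) → ball x r ⊆ V' := by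
  have hd := hC.d0
  refine ⟨ENNReal.ofReal (32 / (d * (d / 3))) * volume {w : ℂ | infDist w Q ≤ 2 * d},
    ENNReal.mul_ne_top ENNReal.ofReal_ne_top (col_vol hC (2 * d)).2.ne, fun V x hV hx hxQ => ?_⟩
  obtain ⟨V', h1, h2, h3, h4, h5, h6⟩ := cut_len (s := d) (h := d / 3) hC hM hO hV hx hxQ
    (by positivity) le_rfl (by linarith)
  refine ⟨V', h1, h2, h3, h4, h5.trans ?_, h6⟩
  refine add_le_add (lintegral_mono_set inter_subset_left) ?_
  refine mul_le_mul_right ?_ _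
  refine measure_mono fun w hw => ?_
  have := hw.2.2
  show infDist w Q ≤ 2 * d
  linarith

/-- the choice of the number of layers -/
private theorem exK (M : ℝ) {c : ℝ} (hc : 0 < c) : ∃ K : ℕ, 1 ≤ K ∧ M < 2 ^ (K - 1) * (c / K) := by
  obtain ⟨j, hj⟩ := exists_nat_gt (2 * M / c)
  refine ⟨2 * j + 1, by omega, ?_⟩
  have h1 : ((j : ℝ) + 1) ≤ 2 ^ j := by
    exact_mod_cast Nat.lt_two_pow_self (n := j)
  have h2 : ((j : ℝ) + 1) ^ 2 ≤ 2 ^ (2 * j) := by
    rw [mul_comm 2 j, pow_mul]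
    exact pow_le_pow_left₀ (by positivity) h1 2
  have h3 : M < (j : ℝ) * c / 2 := by
    rw [div_lt_iff₀ hc] at hj
    linarith
  have h4 : (2 * j + 1 - 1 : ℕ) = 2 * j := by omega
  rw [h4]
  have hK : (0 : ℝ) < ((2 * j + 1 : ℕ) : ℝ) := by positivity
  have h5 : ((2 * j + 1 : ℕ) : ℝ) ≤ 2 * ((j : ℝ) + 1) := by
    push_cast
    linarith
  have h6 : ((j : ℝ) + 1) * c / 2 ≤ ((j : ℝ) + 1) ^ 2 * (c / ((2 * j + 1 : ℕ) : ℝ)) := by
    rw [← mul_div_assoc, div_le_div_iff₀ (by norm_num) hK]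
    have h7 : ((j : ℝ) + 1) * c * ((2 * j + 1 : ℕ) : ℝ) ≤ ((j : ℝ) + 1) * c * (2 * ((j : ℝ) + 1)) :=
      mul_le_mul_of_nonneg_left h5 (by positivity)
    nlinarith
  have h8 : ((j : ℝ) + 1) ^ 2 * (c / ((2 * j + 1 : ℕ) : ℝ)) ≤
      2 ^ (2 * j) * (c / ((2 * j + 1 : ℕ) : ℝ)) :=
    mul_le_mul_of_nonneg_right h2 (by positivity)
  have h9 : (0 : ℝ) < c / 2 := by positivity
  nlinarith

theorem cut_gain {P Q O : Set ℂ} {ρ : ℂ → ENNReal} {d : ℝ} (hC : Col P Q d) (hM : Mt ρ P O)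
    (hO : ∀ w, infDist w Q ≤ 3 * d → w ∈ O) :
    ∃ η : ℝ, 0 < η ∧ ∀ (V : Set ℂ) (x : ℂ), Wn P V → x ∈ V → infDist x Q < d →
      (∃ y ∈ V, 2 * d ≤ infDist y Q) → (∀ z ∈ V, ∃ b ∈ frontier V, dist z b < η) →
      ∃ V' : Set ℂ, Wn P V' ∧ x ∈ V' ∧ V' ⊆ V ∧
        (∀ (c : ℂ) (r : ℝ), (∀ w, infDist w Q ≤ 2 * d → w ∈ ball c r) → V' ⊆ ball c r) ∧
        len ρ V' ≤ len ρ V ∧
        ∀ r : ℝ, ball x r ⊆ V → (∀ w ∈ ball x r, infDist w Q < d) → ball x r ⊆ V' := by
  have hd := hC.d0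
  have hvol := (col_vol hC (2 * d)).2
  obtain ⟨K, hK1, hK⟩ := exK (volume {w : ℂ | infDist w Q ≤ 2 * d}).toReal
    (c := d ^ 2 / 4096) (by positivity)
  have hK0 : (0 : ℝ) < (K : ℝ) := by exact_mod_cast hK1
  obtain ⟨h, hh⟩ : ∃ h : ℝ, h = d / (8 * K) := ⟨_, rfl⟩
  have hh0 : 0 < h := by
    rw [hh]
    positivity
  have hKh : 8 * (K : ℝ) * h = d := by
    rw [hh]
    field_simp
  have hK1' : (1 : ℝ) ≤ K := by exact_mod_cast hK1
  have hhd : 8 * h ≤ d := by nlinarith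
  refine ⟨h / 5120, by positivity, fun V x hV hx hxQ hy hn => ?_⟩
  obtain ⟨y, hy, hyQ⟩ := hy
  obtain ⟨s, hs⟩ : ∃ s : ℕ → ℝ, s = fun k : ℕ => d + 4 * h * (k : ℝ) := ⟨_, rfl⟩
  have hsd : ∀ k, d ≤ s k := fun k => by
    rw [hs]
    have : 0 ≤ 4 * h * (k : ℝ) := by positivity
    show d ≤ d + 4 * h * k
    linarith
  have hs1 : ∀ k, s (k + 1) = s k + 4 * h := fun k => by
    rw [hs]
    show d + 4 * h * ((k + 1 : ℕ) : ℝ) = d + 4 * h * k + 4 * h
    push_cast
    ring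
  have hsK : ∀ k < K, s k + 4 * h ≤ 3 / 2 * d := fun k hk => by
    rw [← hs1 k, hs]
    show d + 4 * h * ((k + 1 : ℕ) : ℝ) ≤ 3 / 2 * d
    have h1 : ((k + 1 : ℕ) : ℝ) ≤ K := by exact_mod_cast hk
    have h2 : 4 * h * ((k + 1 : ℕ) : ℝ) ≤ 4 * h * K := mul_le_mul_of_nonneg_left h1 (by positivity)
    linarith
  by_cases hex : ∃ k < K, ENNReal.ofReal (32 / (d * h)) * volume (V ∩ lay Q (s k) (s k + 3 * h)) ≤
      ∫⁻ w in frontier V ∩ {w | s k + 3 * h < infDist w Q ∧ infDist w Q < 2 * d}, ρ w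
        ∂(μH[1] : Measure ℂ)
  · obtain ⟨k, hk, hle⟩ := hex
    have hk2 := hsK k hk
    obtain ⟨V', h1, h2, h3, h4, h5, h6⟩ := cut_len (s := s k) (h := h) hC hM hO hV hx hxQ
      hh0 (hsd k) (by linarith)
    refine ⟨V', h1, h2, h3, h4, h5.trans ((add_le_add_right hle _).trans ?_), h6⟩
    have hmeas : MeasurableSet (frontier V ∩
        {w | s k + 3 * h < infDist w Q ∧ infDist w Q < 2 * d}) := by
      refine isClosed_frontier.measurableSet.inter ?_
      exact ((isOpen_lt continuous_const (continuous_infDist_pt Q)).inter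
        (isOpen_lt (continuous_infDist_pt Q) continuous_const)).measurableSet
    rw [← lintegral_union hmeas]
    · refine lintegral_mono_set ?_
      exact union_subset inter_subset_left inter_subset_left
    · rw [Set.disjoint_left]
      rintro w ⟨-, hw1⟩ ⟨-, hw2⟩
      exact absurd hw2.1 (not_lt.2 hw1)
  · exfalso
    push Not at hex
    obtain ⟨v, hv⟩ : ∃ v : ℕ → ENNReal, v = fun k => volume (V ∩ lay Q (s k) (s k + 3 * h)) := ⟨_, rfl⟩
    obtain ⟨a, ha⟩ : ∃ a : ℕ → ENNReal,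
      a = fun k => volume (V ∩ {w | s k ≤ infDist w Q ∧ infDist w Q ≤ 7 / 4 * d}) := ⟨_, rfl⟩
    have hηd : h / 5120 ≤ d / 16 := by linarith
    -- the length outside
    have hR : ∀ k < K, ENNReal.ofReal (1 / 16) ≤
        ∫⁻ w in frontier V ∩ {w | s k + 3 * h < infDist w Q ∧ infDist w Q < 2 * d}, ρ w
          ∂(μH[1] : Measure ℂ) := by
      intro k hk
      refine (right_low hC hM hO hV hx hxQ hy hyQ hηd hn).trans (lintegral_mono_set ?_)
      rintro w ⟨hw1, hw2, hw3⟩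
      have := hsK k hk
      exact ⟨hw1, by linarith, hw3⟩
    -- the area
    have hav : ∀ k < K, a (k + 1) ≤ v k := by
      intro k hk
      have h1 := vol_thin (t := s k + 3 * h) hC hM hO hV hx hxQ (η := h / 5120) (by positivity) hηd
        (by have := hsd k; linarith) hn
      have h2 : a (k + 1) ≤ volume (V ∩ {w | s k + 3 * h + 3 * (h / 5120) ≤ infDist w Q ∧
          infDist w Q ≤ 7 / 4 * d}) := by
        rw [ha]
        refine measure_mono ?_
        rintro w ⟨hw1, hw2, hw3⟩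
        have := hs1 k
        exact ⟨hw1, by linarith, hw3⟩
      refine (h2.trans h1).trans ?_
      refine (mul_le_mul_right (hex k hk).le _).trans ?_
      rw [← mul_assoc, ← ENNReal.ofReal_mul (by positivity)]
      have h3 : 160 * (h / 5120) * d * (32 / (d * h)) = 1 := by
        field_simp
        norm_num
      rw [h3, ENNReal.ofReal_one, one_mul, hv]
    have hadd : ∀ k < K, v k + a (k + 1) ≤ a k := by
      intro k hk
      have h1 := hsK k hk
      have h2 := hs1 k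
      have hm : MeasurableSet (V ∩ {w | s (k + 1) ≤ infDist w Q ∧ infDist w Q ≤ 7 / 4 * d}) := by
        refine hV.op.measurableSet.inter ?_
        exact ((isClosed_le continuous_const (continuous_infDist_pt Q)).inter
          (isClosed_le (continuous_infDist_pt Q) continuous_const)).measurableSet
      rw [hv, ha]
      show volume (V ∩ lay Q (s k) (s k + 3 * h)) +
        volume (V ∩ {w | s (k + 1) ≤ infDist w Q ∧ infDist w Q ≤ 7 / 4 * d}) ≤
        volume (V ∩ {w | s k ≤ infDist w Q ∧ infDist w Q ≤ 7 / 4 * d})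
      rw [← measure_union _ hm]
      · refine measure_mono ?_
        rintro w (⟨hw1, hw2, hw3⟩ | ⟨hw1, hw2, hw3⟩)
        · exact ⟨hw1, hw2, by linarith⟩
        · exact ⟨hw1, by linarith, hw3⟩
      · rw [Set.disjoint_left]
        rintro w ⟨-, hw1⟩ ⟨-, hw2⟩
        have h3 := hw1.2
        have h4 := hw2.1
        linarith
    have hvlow : ENNReal.ofReal (d ^ 2 / 4096 / K) ≤ v (K - 1) := by
      have hk : K - 1 < K := by omega
      have h1 := (hR (K - 1) hk).trans (hex (K - 1) hk).le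
      have h2 : ENNReal.ofReal (d ^ 2 / 4096 / K) =
          ENNReal.ofReal (d * h / 32) * ENNReal.ofReal (1 / 16) := by
        rw [← ENNReal.ofReal_mul (by positivity)]
        congr 1
        rw [hh]
        field_simp
        norm_num
      have h3 : ENNReal.ofReal (d * h / 32) * ENNReal.ofReal (32 / (d * h)) = 1 := by
        rw [← ENNReal.ofReal_mul (by positivity)]
        have h4 : d * h / 32 * (32 / (d * h)) = 1 := by
          field_simp
        rw [h4, ENNReal.ofReal_one]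
      rw [h2]
      refine (mul_le_mul_right h1 _).trans ?_
      rw [← mul_assoc, h3, one_mul, hv]
    have hind : ∀ j : ℕ, j < K → 2 ^ j * ENNReal.ofReal (d ^ 2 / 4096 / K) ≤ a (K - 1 - j) := by
      intro j
      induction j with
      | zero =>
        intro _
        rw [pow_zero, one_mul]
        exact hvlow.trans (le_self_add.trans (hadd (K - 1) (by omega)))
      | succ j ih =>
        intro hj
        have h1 := ih (by omega)
        have h2 : K - 1 - (j + 1) + 1 = K - 1 - j := by omega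
        have h3 := hadd (K - 1 - (j + 1)) (by omega)
        have h4 := hav (K - 1 - (j + 1)) (by omega)
        rw [h2] at h3 h4
        rw [pow_succ, mul_comm (2 ^ j) 2, mul_assoc, two_mul]
        exact (add_le_add (h1.trans h4) h1).trans h3
    have h1 := hind (K - 1) (by omega)
    rw [Nat.sub_self] at h1
    have h2 : a 0 ≤ volume {w : ℂ | infDist w Q ≤ 2 * d} := by
      rw [ha]
      refine measure_mono ?_
      rintro w ⟨-, -, hw3⟩
      show infDist w Q ≤ 2 * d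
      linarith
    have h3 := h1.trans h2
    have h4 : (2 : ENNReal) ^ (K - 1) * ENNReal.ofReal (d ^ 2 / 4096 / K) =
        ENNReal.ofReal (2 ^ (K - 1) * (d ^ 2 / 4096 / K)) := by
      rw [ENNReal.ofReal_mul (by positivity), ENNReal.ofReal_pow (by norm_num)]
      norm_num
    rw [h4, ENNReal.ofReal_le_iff_le_toReal hvol.ne] at h3
    linarith

end Pool.Agent.H56.TH
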