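import Pool.Agent.H56.TH.Defs

/-!
# Module ES: discs which stay long near `L` are small; uniform continuity

PROOFS. `esc_rad`: otherwise there are `r > 0` and for every `n` a centre `z_n` and `i_n ≥ n` with `f^[j] w ∈ nb L δ₀` for all
`j ≤ i_n`, `w ∈ ball z_n r`. `z_n ∈ nb L δ₀` (`j = 0`), which is bounded, so a subsequence converges to some `z` (compact closed ball).
For large `n` in the subsequence `ball z (r / 2) ⊆ ball z_n r`; so `f^[j] w ∈ nb L δ₀` for all `w ∈ ball z (r / 2)`, all `j`: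
contradiction to `HY.esc`.
`unif`: `f` is continuous on `nb L δ₀` (open); `L` compact. For `r > 0` there is `r' > 0`, `r' ≤ δ₀`, with
`f '' ball z r' ⊆ ball (f z) r` for all `z ∈ L`: for `z ∈ L` take `e_z` with `f '' ball z (2 e_z) ⊆ ball (f z) (r / 2)`, finite subcover
of `L` by the balls `ball z e_z`, `r' = min e_z`; (triangle inequality).
-/

set_option autoImplicit false

open Filter Topology Metric Set MeasureTheory
open scoped MeasureTheory

namespace Pool.Agent.H56.TH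

theorem esc_rad {f : ℂ → ℂ} {P L : Set ℂ} {ρ : ℂ → ENNReal} {δ₀ δ₁ : ℝ} (hY : HY f P L ρ δ₀ δ₁) {r : ℝ}
    (hr : 0 < r) : ∃ i₀ : ℕ, ∀ i ≥ i₀, ∀ z : ℂ, ¬ ∀ j ≤ i, ∀ w ∈ ball z r, f^[j] w ∈ nb L δ₀ := by
  by_contra hcon
  push Not at hcon
  have hδ : 0 < δ₀ := lt_of_lt_of_le hY.hδ₁ hY.hδ
  have h1 : ∀ n : ℕ, ∃ z : ℂ, ∀ j ≤ n, ∀ w ∈ ball z r, f^[j] w ∈ nb L δ₀ := by
    intro n
    obtain ⟨i, hi, z, hz⟩ := hcon n
    exact ⟨z, fun j hj => hz j (hj.trans hi)⟩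
  choose z hz using h1
  obtain ⟨R, hR⟩ := hY.Lc.isBounded.subset_closedBall (0 : ℂ)
  have h2 : ∀ n, z n ∈ closedBall (0 : ℂ) (R + δ₀) := by
    intro n
    have h3 := hz n 0 (Nat.zero_le _) (z n) (mem_ball_self hr)
    simp only [Function.iterate_zero, id] at h3
    obtain ⟨y, hy, h4⟩ := mem_iUnion₂.1 h3
    have h5 := hR hy
    rw [mem_closedBall] at h5 ⊢
    rw [mem_ball] at h4
    linarith [dist_triangle (z n) y 0]
  obtain ⟨a, -, φ, hφ, hlim⟩ := (isCompact_closedBall (0 : ℂ) (R + δ₀)).tendsto_subseq h2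
  obtain ⟨j, w, hw, hj⟩ := hY.esc (ball a (r / 2)) isOpen_ball ⟨a, mem_ball_self (by linarith)⟩
  obtain ⟨N, hN⟩ := Metric.tendsto_atTop.1 hlim (r / 2) (by linarith)
  have h6 := hN (max N j) (le_max_left _ _)
  refine hj (hz (φ (max N j)) j ((le_max_right N j).trans (hφ.id_le _)) w ?_)
  rw [mem_ball] at hw ⊢
  simp only [Function.comp] at h6
  rw [dist_comm] at h6
  linarith [dist_triangle w a (z (φ (max N j)))]

theorem unif {f : ℂ → ℂ} {P L : Set ℂ} {ρ : ℂ → ENNReal} {δ₀ δ₁ : ℝ} (hY : HY f P L ρ δ₀ δ₁) {r : ℝ}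
    (hr : 0 < r) : ∃ r' : ℝ, 0 < r' ∧ r' ≤ δ₀ ∧ ∀ z ∈ L, ∀ w ∈ ball z r', f w ∈ ball (f z) r := by
  have hδ : 0 < δ₀ := lt_of_lt_of_le hY.hδ₁ hY.hδ
  have hop : IsOpen (nb L δ₀) := isOpen_biUnion fun _ _ => isOpen_ball
  have hc : ∀ z ∈ L, ContinuousAt f z := fun z hz =>
    hY.fd.continuousOn.continuousAt (hop.mem_nhds (mem_iUnion₂.2 ⟨z, hz, mem_ball_self hδ⟩))
  have h1 := hY.Lc.uniformContinuousAt_of_continuousAt f hc (Metric.dist_mem_uniformity hr)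
  obtain ⟨e, he, h2⟩ := Metric.mem_uniformity_dist.1 h1
  refine ⟨min e δ₀, lt_min he hδ, min_le_right _ _, fun z hz w hw => ?_⟩
  rw [mem_ball] at hw ⊢
  have h3 := h2 (a := z) (b := w) (by rw [dist_comm]; exact lt_of_lt_of_le hw (min_le_left _ _)) hz
  rw [dist_comm]
  exact h3

end Pool.Agent.H56.TH
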