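import Pool.Agent.H56.TH.TF
import Pool.Agent.H56.TH.HA
import Pool.Agent.H47.TH.Ful

/-!
# Module PB: the pull back of a window

PROOF. `g` the branch of `HY.br` on `ball (f z) δ₁`. `V' = g '' V`: (`⊇`) `g u ∈ ball z δ₀`, `f (g u) = u`; (`⊆`) `w ∈ ball z δ₀`,
`f w ∈ V ⊆ ball (f z) δ₁`: `f (g (f w)) = f w`, so `w = g (f w)` by injectivity. Open: `f` is continuous on the open ball.
Preconnected: image of `V` under `g` (continuous on `V`). `z ∈ V'`: clear.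
Full: `O` open, bounded, `frontier O ⊆ V' ⊆ ball z δ₀`: `O ⊆ ball z δ₀` (`full_ball`), `closure O ⊆ ball z δ₀`. `f '' O` is open
(open mapping: `f` is injective on the ball, so nowhere locally constant; or `AnalyticOnNhd.is_constant_or_isOpen`; if `O` is
empty nothing to prove), bounded, `frontier (f '' O) ⊆ f '' frontier O ⊆ V` (`closure (f '' O) ⊆ f '' closure O`, compact). `Full V`:
`f '' O ⊆ V`. So `O ⊆ V'`.
`frontier V' ⊆ g '' frontier V`: `closure V ⊆ closedBall (f z) R ⊆ ball (f z) δ₁` is compact, so `closure V' ⊆ g '' closure V`;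
points of `g '' V` are not in the frontier (`V'` open). Disjoint from `P`: `g u ∈ P`, `u ∈ frontier V`: `u = f (g u) ∈ P` (`HY.Pf`):
contradiction to `Wn.fr`.
Length: if `len ρ V = ⊤` nothing to prove. Otherwise `μH[1] (frontier V) < ⊤`: on `frontier V ⊆ closedBall (f z) R`:
`0 < infDist w P ≤ dist w (f z) ≤ R` (`f z ∈ L ⊆ P`, `w ∉ P`, `P` closed), `ρ w ≥ ofReal (1 / R)` (`Mt.lo`, `w ∈ nb L δ₀`), so
`ofReal (1 / R) * μH[1] (frontier V) ≤ len ρ V < ⊤` (`0 < R`). `lint_image` with `S = frontier V`, `O = ball (f z) δ₁`: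
`len ρ V' ≤ ∫⁻ w in g '' S, ρ w ≤ ∫⁻ w in S, ρ (g w) * ofReal ‖deriv g w‖ ≤ ∫⁻ w in S, ρ w`: `HY.ct` at `g w` and
`deriv f (g w) * deriv g w = 1` (derivative of `f ∘ g = id` on the open ball).
-/

set_option autoImplicit false

open Filter Topology Metric Set MeasureTheory
open scoped MeasureTheory

namespace Pool.Agent.H56.TH

theorem pb_nb {L : Set ℂ} {δ₀ : ℝ} {z : ℂ} (hz : z ∈ L) : ball z δ₀ ⊆ nb L δ₀ :=
  fun _ hw => mem_iUnion₂.2 ⟨z, hz, hw⟩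

theorem pb_haus {f : ℂ → ℂ} {P L : Set ℂ} {ρ : ℂ → ENNReal} {δ₀ δ₁ : ℝ} (h : HY f P L ρ δ₀ δ₁) {z : ℂ}
    (hz : z ∈ L) {V : Set ℂ} (hV : Wn P V) (hVb : frontier V ⊆ ball z δ₁) (hlen : len ρ V < ⊤) :
    (μH[1] : Measure ℂ) (frontier V) < ⊤ := by
  have hδ₁ := h.hδ₁
  have h1 : ∀ w ∈ frontier V, ENNReal.ofReal (1 / δ₁) ≤ ρ w := by
    intro w hw
    have hwb := hVb hw
    have hwn : w ∈ nb L δ₀ := pb_nb hz (ball_subset_ball h.hδ hwb)
    refine le_trans (ENNReal.ofReal_le_ofReal ?_) (h.met.lo w hwn)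
    have hwP : w ∉ P := fun hp => disjoint_left.1 hV.fr hw hp
    have h0 : 0 < infDist w P := (h.Pc.notMem_iff_infDist_pos ⟨z, h.LP hz⟩).1 hwP
    have h2 : infDist w P ≤ dist w z := infDist_le_dist_of_mem (h.LP hz)
    exact one_div_le_one_div_of_le h0 (h2.trans (le_of_lt hwb))
  have h2 : ENNReal.ofReal (1 / δ₁) * (μH[1] : Measure ℂ) (frontier V) ≤ len ρ V := by
    unfold len
    rw [← setLIntegral_const]
    exact setLIntegral_mono' isClosed_frontier.measurableSet h1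
  have h3 : ENNReal.ofReal (1 / δ₁) ≠ 0 := by
    simpa using hδ₁
  exact ENNReal.lt_top_of_mul_ne_top_right (h2.trans_lt hlen).ne h3

theorem pb_len {f : ℂ → ℂ} {P L : Set ℂ} {ρ : ℂ → ENNReal} {δ₀ δ₁ : ℝ} (h : HY f P L ρ δ₀ δ₁) {z : ℂ}
    (hz : z ∈ L) {g : ℂ → ℂ} (hg : DifferentiableOn ℂ g (ball (f z) δ₁))
    (hgf : ∀ u ∈ ball (f z) δ₁, g u ∈ ball z δ₀ ∧ f (g u) = u) {S : Set ℂ} (hS : IsCompact S)
    (hSb : S ⊆ ball (f z) δ₁) (hfin : (μH[1] : Measure ℂ) S < ⊤) :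
    ∫⁻ w in g '' S, ρ w ∂(μH[1] : Measure ℂ) ≤ ∫⁻ w in S, ρ w ∂(μH[1] : Measure ℂ) := by
  refine (lint_image isOpen_ball hg hS hSb hfin ρ).trans ?_
  refine setLIntegral_mono' hS.isClosed.measurableSet ?_
  intro w hw
  have hwb := hSb hw
  obtain ⟨hgw, hfg⟩ := hgf w hwb
  have hgn : g w ∈ nb L δ₀ := pb_nb hz hgw
  have h1 := h.ct (g w) hgn
  rw [hfg] at h1
  have hno : IsOpen (nb L δ₀) := isOpen_biUnion fun _ _ => isOpen_ball
  have hdf : HasDerivAt f (deriv f (g w)) (g w) :=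
    (h.fd.differentiableAt (hno.mem_nhds hgn)).hasDerivAt
  have hdg : HasDerivAt g (deriv g w) w :=
    (hg.differentiableAt (isOpen_ball.mem_nhds hwb)).hasDerivAt
  have hcomp : HasDerivAt (f ∘ g) (deriv f (g w) * deriv g w) w := hdf.comp w hdg
  have hid : HasDerivAt (f ∘ g) 1 w := by
    refine (hasDerivAt_id w).congr_of_eventuallyEq ?_
    filter_upwards [isOpen_ball.mem_nhds hwb] with u hu
    exact (hgf u hu).2
  have hmul : deriv f (g w) * deriv g w = 1 := hcomp.unique hid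
  calc ρ (g w) * ENNReal.ofReal ‖deriv g w‖
      ≤ ρ w * ENNReal.ofReal ‖deriv f (g w)‖ * ENNReal.ofReal ‖deriv g w‖ := by gcongr
    _ = ρ w := by
        rw [mul_assoc, ← ENNReal.ofReal_mul (norm_nonneg _), ← norm_mul, hmul, norm_one,
          ENNReal.ofReal_one, mul_one]

/-- The pull back of a window by the branch `g` of `f⁻¹` at `z`. -/
theorem pull_back {f : ℂ → ℂ} {P L : Set ℂ} {ρ : ℂ → ENNReal} {δ₀ δ₁ : ℝ} (h : HY f P L ρ δ₀ δ₁) {z : ℂ}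
    (hz : z ∈ L) {g : ℂ → ℂ} (hg : DifferentiableOn ℂ g (ball (f z) δ₁))
    (hgf : ∀ u ∈ ball (f z) δ₁, g u ∈ ball z δ₀ ∧ f (g u) = u) {V : Set ℂ} (hV : Wn P V) {R : ℝ}
    (hR : R < δ₁) (hVb : V ⊆ ball (f z) R) :
    Wn P (g '' V) ∧ len ρ (g '' V) ≤ len ρ V ∧ frontier (g '' V) = g '' frontier V := by
  have hcl : closure V ⊆ ball (f z) δ₁ :=
    ((closure_mono hVb).trans closure_ball_subset_closedBall).trans (closedBall_subset_ball hR)
  have hfr : frontier V ⊆ ball (f z) δ₁ := frontier_subset_closure.trans hcl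
  have hinj : InjOn g (ball (f z) δ₁) := by
    intro u hu v hv huv
    rw [← (hgf u hu).2, ← (hgf v hv).2, huv]
  have hcom : IsCompact (frontier V) :=
    (isCompact_of_isClosed_isBounded isClosed_closure (isBounded_ball.subset hcl)).of_isClosed_subset
      isClosed_frontier frontier_subset_closure
  have hfi : frontier (g '' V) = g '' frontier V :=
    Pool.Agent.H47.TH.frontier_image hV.op hR hVb hg hinj
  refine ⟨?_, ?_, hfi⟩
  · refine Pool.Agent.H47.TH.wn_image hV hR hVb hg hinj ?_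
    intro u hu hgu
    obtain ⟨h1, h2⟩ := hgf u hu
    have h3 := h.Pf (g u) hgu (pb_nb hz h1)
    rwa [h2] at h3
  · by_cases hlen : len ρ V = ⊤
    · rw [hlen]
      exact le_top
    · have hfin := pb_haus h (h.Lf z hz) hV hfr (lt_top_iff_ne_top.2 hlen)
      unfold len
      rw [hfi]
      exact pb_len h hz hg hgf hcom hfr hfin

theorem pull {f : ℂ → ℂ} {P L : Set ℂ} {ρ : ℂ → ENNReal} {δ₀ δ₁ : ℝ} (hY : HY f P L ρ δ₀ δ₁) {z : ℂ} (hz : z ∈ L)
    {V : Set ℂ} (hV : Wn P V) (hfz : f z ∈ V) {R : ℝ} (hR : R < δ₁) (hVR : V ⊆ ball (f z) R) :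
    Wn P (ball z δ₀ ∩ f ⁻¹' V) ∧ z ∈ ball z δ₀ ∩ f ⁻¹' V ∧ len ρ (ball z δ₀ ∩ f ⁻¹' V) ≤ len ρ V := by
  obtain ⟨g, hg, hgz, hgf⟩ := hY.br z hz
  have hδ₀ : 0 < δ₀ := hY.hδ₁.trans_le hY.hδ
  have hVb : V ⊆ ball (f z) δ₁ := hVR.trans (ball_subset_ball hR.le)
  have heq : ball z δ₀ ∩ f ⁻¹' V = g '' V := by
    apply Subset.antisymm
    · rintro w ⟨hw1, hw2⟩
      refine ⟨f w, hw2, ?_⟩
      obtain ⟨h1, h2⟩ := hgf (f w) (hVb hw2)
      exact hY.inj z hz h1 hw1 h2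
    · rintro _ ⟨u, hu, rfl⟩
      obtain ⟨h1, h2⟩ := hgf u (hVb hu)
      exact ⟨h1, by rw [mem_preimage, h2]; exact hu⟩
  obtain ⟨h1, h2, h3⟩ := pull_back hY hz hg hgf hV hR hVR
  refine ⟨heq ▸ h1, ⟨mem_ball_self hδ₀, hfz⟩, heq ▸ h2⟩

end Pool.Agent.H56.TH
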