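import Pool.Agent.H56.TH.CO
import Pool.Agent.H56.TH.TH
import Pool.Agent.H56.TH.PB
import Pool.Agent.H56.TH.ES

/-!
# Module S1: the windows with bounded length

`St f P L ρ δ₀ R i Λ z V`: `V` is a window at `z` in `ball z R` which stays `i` steps near `L`, with length `≤ Λ`.
PROOFS. `st_pull`: `V` at `f z`: `V₁ = ball z δ₀ ∩ f ⁻¹' V` is a window (`pull`), stays `i + 1` steps (`f^[j+1] w = f^[j] (f w)`).
`st_all`: `C, η, r₁` of `collars`, `i₀` of `esc_rad` for `η`. Induction on `i`: for all `i` there is `r > 0` such that all `z ∈ L` have `V`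
with `St i ((min i i₀ + 1) * C) z V` and `ball z r ⊆ V`. `i = 0`: plain cut of `univ` (`wn_univ`, `len ρ univ = 0` since
`frontier univ = ∅`), `r = r₁`. Step: `V` at `f z`, `V₁ = ball z δ₀ ∩ f ⁻¹' V`; `r'` of `unif` for `r`, `r'' = min r' r₁`:
`ball z r'' ⊆ V₁`. If `i < i₀`: plain cut of `V₁`. If `i₀ ≤ i`: every `y ∈ V₁` has `b ∈ frontier V₁` with `dist y b < η` (otherwise
`ball y η ⊆ V₁` by `near_fr` and it stays `i + 1 ≥ i₀` steps); if `V₁ ⊆ ball z R` keep `V₁`, otherwise the cut with gain.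
`st_small`: `Λ < ⊤`, `ε > 0`: for `i ≥ i₁` every `St i Λ z V` has `V ⊆ ball z ε`: `y ∈ V`, `ε ≤ dist y z`: `thick_ball` with `y' = z`
gives a ball of radius `ε / (2 exp Λ)` in `V` (`z ∈ L ⊆ P`, `frontier V ⊆ closedBall z R ⊆ nb L δ₀`), it stays `i` steps: `esc_rad`.
-/

set_option autoImplicit false

open Filter Topology Metric Set MeasureTheory
open scoped MeasureTheory

namespace Pool.Agent.H56.TH

/-- stages -/
structure St (f : ℂ → ℂ) (P L : Set ℂ) (ρ : ℂ → ENNReal) (δ₀ R : ℝ) (i : ℕ) (Λ : ENNReal) (z : ℂ) (V : Set ℂ) :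
    Prop where
  wn : Wn P V
  mem : z ∈ V
  sub : V ⊆ ball z R
  stay : ∀ j ≤ i, ∀ w ∈ V, f^[j] w ∈ nb L δ₀
  len : len ρ V ≤ Λ

private theorem s1_nb {L : Set ℂ} {δ : ℝ} {z : ℂ} (hz : z ∈ L) : ball z δ ⊆ nb L δ := fun _ hw =>
  mem_iUnion₂.2 ⟨z, hz, hw⟩

theorem st_all {f : ℂ → ℂ} {P L : Set ℂ} {ρ : ℂ → ENNReal} {δ₀ δ₁ : ℝ} (hY : HY f P L ρ δ₀ δ₁) {R : ℝ}
    (hR : 0 < R) (hR' : R < δ₁) : ∃ Λ : ENNReal, Λ ≠ ⊤ ∧ ∀ i : ℕ, ∃ r : ℝ, 0 < r ∧
      ∀ z ∈ L, ∃ V : Set ℂ, St f P L ρ δ₀ R i Λ z V ∧ ball z r ⊆ V := by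
  have hδ : R < δ₀ := hR'.trans_le hY.hδ
  obtain ⟨C, η, r₁, hC, hη, hr₁, hcol⟩ := collars hY hR hδ.le
  obtain ⟨i₀, hi₀⟩ := esc_rad hY hη
  have key : ∀ i : ℕ, ∃ r : ℝ, 0 < r ∧ ∀ z ∈ L, ∃ V : Set ℂ,
      St f P L ρ δ₀ R i (((min i i₀ + 1 : ℕ) : ENNReal) * C) z V ∧ ball z r ⊆ V := by
    intro i
    induction i with
    | zero =>
      refine ⟨r₁, hr₁, fun z hz => ?_⟩
      obtain ⟨V', h1, h2, -, h4, h5, h6⟩ := (hcol z hz univ (wn_univ P) (mem_univ z)).1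
      refine ⟨V', ⟨h1, h2, h4, ?_, ?_⟩, h6 r₁ le_rfl (subset_univ _)⟩
      · intro j hj w hw
        obtain rfl : j = 0 := Nat.le_zero.1 hj
        exact s1_nb hz (ball_subset_ball hδ.le (h4 hw))
      · refine h5.trans (le_of_eq ?_)
        have h7 : len ρ (univ : Set ℂ) = 0 := by
          unfold len
          rw [frontier_univ, Measure.restrict_empty, lintegral_zero_measure]
        rw [h7, zero_add, Nat.zero_min, zero_add, Nat.cast_one, one_mul]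
    | succ i ih =>
      obtain ⟨r, hr, hV⟩ := ih
      obtain ⟨r', hr', hr'δ, hf⟩ := unif hY hr
      refine ⟨min r' r₁, lt_min hr' hr₁, fun z hz => ?_⟩
      obtain ⟨V₀, hS, hb⟩ := hV (f z) (hY.Lf z hz)
      obtain ⟨w1, w2, w3⟩ := pull hY hz hS.wn hS.mem hR' hS.sub
      have hstay : ∀ j ≤ i + 1, ∀ w ∈ ball z δ₀ ∩ f ⁻¹' V₀, f^[j] w ∈ nb L δ₀ := by
        intro j hj w hw
        cases j with
        | zero => exact s1_nb hz hw.1
        | succ j =>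
          rw [Function.iterate_succ_apply]
          exact hS.stay j (by omega) (f w) hw.2
      have hball : ball z (min r' r₁) ⊆ ball z δ₀ ∩ f ⁻¹' V₀ := by
        intro w hw
        have h1 : w ∈ ball z r' := ball_subset_ball (min_le_left _ _) hw
        exact ⟨ball_subset_ball hr'δ h1, hb (hf z hz w h1)⟩
      obtain ⟨hp, hg⟩ := hcol z hz (ball z δ₀ ∩ f ⁻¹' V₀) w1 w2
      rcases Nat.lt_or_ge i i₀ with hi | hi
      · obtain ⟨V', h1, h2, h3, h4, h5, h6⟩ := hp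
        refine ⟨V', ⟨h1, h2, h4, fun j hj w hw => hstay j hj w (h3 hw), ?_⟩,
          h6 _ (min_le_right _ _) hball⟩
        refine h5.trans ?_
        have h7 := add_le_add_left (w3.trans hS.len) C
        refine h7.trans (le_of_eq ?_)
        rw [min_eq_left hi.le, min_eq_left (Nat.succ_le_of_lt hi), Nat.cast_add (i + 1) 1, add_mul,
          Nat.cast_one, one_mul]
      · have hle : len ρ (ball z δ₀ ∩ f ⁻¹' V₀) ≤ ((min (i + 1) i₀ + 1 : ℕ) : ENNReal) * C := by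
          have h8 := w3.trans hS.len
          rw [min_eq_right hi] at h8
          rwa [min_eq_right (hi.trans (Nat.le_succ i))]
        by_cases hsub : ball z δ₀ ∩ f ⁻¹' V₀ ⊆ ball z R
        · exact ⟨_, ⟨w1, w2, hsub, hstay, hle⟩, hball⟩
        · obtain ⟨V', h1, h2, h3, h4, h5, h6⟩ := hg hsub (by
            intro y hy
            by_contra hno
            push Not at hno
            have h9 := near_fr w1.op hy hno
            exact hi₀ (i + 1) (by omega) y fun j hj w hw => hstay j hj w (h9 hw))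
          exact ⟨V', ⟨h1, h2, h4, fun j hj w hw => hstay j hj w (h3 hw), h5.trans hle⟩,
            h6 _ (min_le_right _ _) hball⟩
  refine ⟨((i₀ + 1 : ℕ) : ENNReal) * C, ENNReal.mul_ne_top (ENNReal.natCast_ne_top _) hC, fun i => ?_⟩
  obtain ⟨r, hr, h⟩ := key i
  refine ⟨r, hr, fun z hz => ?_⟩
  obtain ⟨V, hV, hb⟩ := h z hz
  refine ⟨V, ⟨hV.wn, hV.mem, hV.sub, hV.stay, hV.len.trans ?_⟩, hb⟩
  gcongr
  exact min_le_right _ _

theorem st_small {f : ℂ → ℂ} {P L : Set ℂ} {ρ : ℂ → ENNReal} {δ₀ δ₁ : ℝ} (hY : HY f P L ρ δ₀ δ₁) {R : ℝ}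
    (hR : 0 < R) (hR' : R < δ₁) {Λ : ENNReal} (hΛ : Λ ≠ ⊤) {ε : ℝ} (hε : 0 < ε) :
    ∃ i₁ : ℕ, ∀ i ≥ i₁, ∀ z ∈ L, ∀ V : Set ℂ, St f P L ρ δ₀ R i Λ z V → V ⊆ ball z ε := by
  have hδ : R < δ₀ := hR'.trans_le hY.hδ
  have he : 0 < 2 * Real.exp Λ.toReal := by positivity
  obtain ⟨i₁, hi₁⟩ := esc_rad hY (div_pos hε he)
  refine ⟨i₁, fun i hi z hz V hV y hy => ?_⟩
  by_contra hno
  rw [mem_ball, not_lt] at hno
  have hfr : frontier V ⊆ nb L δ₀ := by
    intro w hw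
    have h1 : w ∈ closedBall z R :=
      closure_minimal (hV.sub.trans ball_subset_closedBall) isClosed_closedBall (frontier_subset_closure hw)
    exact s1_nb hz (closedBall_subset_ball hδ h1)
  have hl : len ρ V ≤ ENNReal.ofReal Λ.toReal := by
    rw [ENNReal.ofReal_toReal hΛ]
    exact hV.len
  have h2 := thick_ball hY.met hY.Pc hV.wn hfr (hY.LP hz) hV.mem hl hy hV.mem
  refine hi₁ i hi z fun j hj w hw => hV.stay j hj w (h2 ?_)
  exact ball_subset_ball (div_le_div_of_nonneg_right hno he.le) hw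

end Pool.Agent.H56.TH
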