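import Pool.Agent.H56.TH.Defs

/-!
# Module TC: circles around boundary points meet the boundary

PROOFS. `circle`: `V` is preconnected, has points in `ball b s` (`b` is in the closure of `V`) and a point outside
`closedBall b s`: so it meets `sphere b s` (otherwise `V ⊆ ball b s ∪ (closedBall b s)ᶜ`, two disjoint open sets, both met). If
`sphere b s` missed `frontier V` it would be contained in `V` (the sphere is preconnected: `isPreconnected_sphere` in real
dimension `2`, and is covered by the disjoint open sets `V` and `(closure V)ᶜ`), so `frontier (ball b s) = sphere b s ⊆ V`,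
`ball b s ⊆ V` by `Full`, `b ∈ V`: contradiction, `V` is open and `b ∈ frontier V`.
`near_fr`: if no point of `frontier V` is in `ball y r` then `ball y r ⊆ V` (`y ∈ V`; the ball is preconnected).
`circle_far`: for `y, y' ∈ V` and `s < dist y y' / 2` the set `V` is not contained in `closedBall b s` (triangle inequality).
-/

set_option autoImplicit false

open Filter Topology Metric Set MeasureTheory
open scoped MeasureTheory

namespace Pool.Agent.H56.TH

/-- the circle is connected -/
theorem sph_con (b : ℂ) {r : ℝ} (hr : 0 ≤ r) : IsConnected (sphere b r) := by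
  apply isConnected_sphere _ b hr
  rw [Complex.rank_real_complex]
  exact_mod_cast one_lt_two

theorem circle {V : Set ℂ} (hV : IsOpen V) (hc : IsPreconnected V) (hf : Full V) {b : ℂ} (hb : b ∈ frontier V)
    {s : ℝ} (hs : 0 < s) (h : ¬ V ⊆ closedBall b s) : (sphere b s ∩ frontier V).Nonempty := by
  have hb' := hb
  rw [frontier, hV.interior_eq] at hb'
  obtain ⟨hb1, hb2⟩ := hb'
  have h1 : (V ∩ sphere b s).Nonempty := by
    by_contra hne
    rw [Set.not_nonempty_iff_eq_empty] at hne
    have hsub : V ⊆ ball b s ∪ (closedBall b s)ᶜ := by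
      intro z hz
      by_cases hz1 : dist z b < s
      · exact Or.inl hz1
      · right
        intro hz2
        have h3 : z ∈ sphere b s := le_antisymm hz2 (not_lt.1 hz1)
        have h4 : z ∈ V ∩ sphere b s := ⟨hz, h3⟩
        rw [hne] at h4
        exact h4
    obtain ⟨z, hz1, hz2⟩ := Metric.mem_closure_iff.1 hb1 s hs
    rw [Set.not_subset] at h
    obtain ⟨z', hz1', hz2'⟩ := h
    obtain ⟨w, -, hw1, hw2⟩ := hc (ball b s) (closedBall b s)ᶜ isOpen_ball isClosed_closedBall.isOpen_compl hsub
      ⟨z, hz1, by rw [mem_ball, dist_comm]; exact hz2⟩ ⟨z', hz1', hz2'⟩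
    exact hw2 (ball_subset_closedBall hw1)
  by_contra hne
  rw [Set.not_nonempty_iff_eq_empty] at hne
  have hcov : ∀ z ∈ sphere b s, z ∉ V → z ∈ (closure V)ᶜ := by
    intro z hz hz1 hz2
    have h3 : z ∈ sphere b s ∩ frontier V := ⟨hz, by rw [frontier, hV.interior_eq]; exact ⟨hz2, hz1⟩⟩
    rw [hne] at h3
    exact h3
  have hsV : sphere b s ⊆ V := by
    intro z hz
    by_contra hzV
    obtain ⟨y, hy1, hy2⟩ := h1
    obtain ⟨w, -, hw1, hw2⟩ := (sph_con b hs.le).isPreconnected V (closure V)ᶜ hV isClosed_closure.isOpen_compl (by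
      intro u hu
      by_cases hu1 : u ∈ V
      · exact Or.inl hu1
      · exact Or.inr (hcov u hu hu1)) ⟨y, hy2, hy1⟩ ⟨z, hz, hcov z hz hzV⟩
    exact hw2 (subset_closure hw1)
  have hbV : ball b s ⊆ V := by
    apply hf (ball b s) isOpen_ball isBounded_ball
    rw [frontier_ball b hs.ne']
    exact hsV
  exact hb2 (hbV (mem_ball_self hs))

theorem circle_far {V : Set ℂ} (hV : IsOpen V) (hc : IsPreconnected V) (hf : Full V) {b : ℂ} (hb : b ∈ frontier V)
    {y y' : ℂ} (hy : y ∈ V) (hy' : y' ∈ V) {s : ℝ} (hs : 0 < s) (h : 2 * s < dist y y') :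
    (sphere b s ∩ frontier V).Nonempty := by
  apply circle hV hc hf hb hs
  intro hsub
  have h1 := mem_closedBall.1 (hsub hy)
  have h2 := mem_closedBall.1 (hsub hy')
  have h3 := dist_triangle_right y y' b
  linarith

theorem near_fr {V : Set ℂ} (hV : IsOpen V) {y : ℂ} (hy : y ∈ V) {r : ℝ}
    (h : ∀ b ∈ frontier V, r ≤ dist y b) : ball y r ⊆ V := by
  intro z hz
  by_contra hzV
  have hr : 0 < r := (mem_ball.1 hz).trans_le' dist_nonneg
  have hcov : ∀ u ∈ ball y r, u ∉ V → u ∈ (closure V)ᶜ := by
    intro u hu hu1 hu2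
    have h3 := h u (by rw [frontier, hV.interior_eq]; exact ⟨hu2, hu1⟩)
    have h4 := mem_ball.1 hu
    rw [dist_comm] at h4
    linarith
  obtain ⟨w, -, hw1, hw2⟩ := (convex_ball y r).isPreconnected V (closure V)ᶜ hV isClosed_closure.isOpen_compl (by
    intro u hu
    by_cases hu1 : u ∈ V
    · exact Or.inl hu1
    · exact Or.inr (hcov u hu hu1)) ⟨y, mem_ball_self hr, hy⟩ ⟨z, hz, hcov z hz hzV⟩
  exact hw2 (subset_closure hw1)

end Pool.Agent.H56.TH
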